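import Pool.Agent.Lib.MP_721660_al.CD.St

namespace Pool.Agent.Cdim

universe u

namespace Extx

theorem fix_pow {Q M : Type u} [Group Q] [AddCommGroup M] (ρ : Act Q M) {g : Q} {m : M}
    (h : ρ g m = m) (k : ℕ) : ρ (g ^ k) m = m := by
  induction k with
  | zero => rw [pow_zero, act_one]
  | succ k ih => rw [pow_succ, act_mul, h, ih]

theorem act_comm {Q M : Type u} [Group Q] [AddCommGroup M] (ρ : Act Q M) {g h : Q}
    (c : Commute g h) (m : M) : ρ g (ρ h m) = ρ h (ρ g m) := by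
  rw [← act_mul, ← act_mul, c.eq]

theorem lin {Q M : Type u} [Group Q] [AddCommGroup M] (ρ : Act Q M) {v : Q} {m a : M}
    (h1 : ρ v m = m + a) (h2 : ρ v a = a) (k : ℕ) : ρ (v ^ k) m = m + k • a := by
  induction k with
  | zero => rw [pow_zero, act_one, zero_smul, add_zero]
  | succ k ih =>
    rw [pow_succ', act_mul, ih, map_add, map_nsmul, h1, h2, succ_nsmul]
    abel

theorem glin {G : Type u} [Group G] {v x a : G} (h1 : v * x * v⁻¹ = a * x) (h2 : Commute a v)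
    (k : ℕ) : v ^ k * x * (v ^ k)⁻¹ = a ^ k * x := by
  induction k with
  | zero => simp
  | succ k ih =>
    have e : v ^ (k + 1) * x * (v ^ (k + 1))⁻¹ = v * (v ^ k * x * (v ^ k)⁻¹) * v⁻¹ := by
      rw [pow_succ']; group
    rw [e, ih, ← mul_assoc, ← (h2.pow_left k).eq, pow_succ, mul_assoc (a ^ k), mul_assoc (a ^ k),
      h1, mul_assoc]

end Extx

open Extx

theorem ext_st : ExtSt.{u} := by
  intro Q M _ _ ρ W h ⟨e₁, he₁, h₁⟩ hq ⟨t, ht, h₃⟩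
  obtain ⟨e₂, he₂, h₂⟩ := (er_quo_iff ρ W h).1 hq
  refine ⟨e₂ * e₁ * t, by positivity, fun q m n hn hm => ?_⟩
  have a1 : ρ (q ^ e₂) m - m ∈ W := h₂ q m n hn (by rw [hm, sub_self]; exact W.zero_mem)
  have a2 : ρ (q ^ e₁) (ρ (q ^ e₂) m - m) = ρ (q ^ e₂) m - m :=
    h₁ q trivial _ a1 n hn (by
      rw [map_sub, act_comm ρ (Commute.pow_pow_self q n e₂), hm])
  have a3 : ∀ i : ℕ, ρ ((q ^ e₂) ^ i) m - m ∈ W ∧
      ρ (q ^ e₁) (ρ ((q ^ e₂) ^ i) m - m) = ρ ((q ^ e₂) ^ i) m - m := fun i => by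
    induction i with
    | zero => rw [pow_zero, act_one, sub_self]; exact ⟨W.zero_mem, map_zero _⟩
    | succ i ih =>
      have e : ρ ((q ^ e₂) ^ (i + 1)) m - m =
          ρ (q ^ e₂) (ρ ((q ^ e₂) ^ i) m - m) + (ρ (q ^ e₂) m - m) := by
        rw [pow_succ', act_mul, map_sub]; abel
      rw [e]
      refine ⟨W.add_mem (h _ _ ih.1) a1, ?_⟩
      rw [map_add, a2, act_comm ρ (Commute.pow_pow_self q e₁ e₂), ih.2]
  obtain ⟨b1, b2⟩ := a3 e₁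
  rw [← pow_mul] at b1 b2
  have b3 : ρ (q ^ (e₂ * e₁)) (ρ (q ^ (e₂ * e₁)) m - m) = ρ (q ^ (e₂ * e₁)) m - m := by
    have := fix_pow ρ b2 e₂
    rwa [← pow_mul, mul_comm e₁ e₂] at this
  have b4 := lin ρ (v := q ^ (e₂ * e₁)) (m := m) (by abel) b3
  have b5 : n • (ρ (q ^ (e₂ * e₁)) m - m) = 0 := by
    have k1 := b4 n
    have k2 := fix_pow ρ hm (e₂ * e₁)
    rw [← pow_mul, mul_comm, pow_mul, k1] at k2
    simpa using k2
  rw [pow_mul, b4 t, h₃ _ b1 n hn b5, add_zero]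

theorem aff_st : AffSt.{u} := by
  intro G Q _ _ f _ ⟨e₁, he₁, h₁⟩ ⟨t, ht, h₃⟩ ⟨e₂, he₂, h₂⟩
  refine ⟨e₂ * e₁ * t, by positivity, fun x y n hn hm => ?_⟩
  have a0 : Commute (f x) (f y ^ e₂) := h₂ _ _ n hn (by simpa using hm.map f)
  have a1 : y ^ e₂ * x * (y ^ e₂)⁻¹ * x⁻¹ ∈ f.ker := by
    rw [MonoidHom.mem_ker]
    simp only [map_mul, map_inv, map_pow]
    rw [← a0.eq]; group
  have cy := Commute.pow_pow_self y e₂ n
  have a2 : Commute (y ^ e₂ * x * (y ^ e₂)⁻¹ * x⁻¹) (y ^ e₁) :=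
    h₁ y _ a1 n hn (((cy.mul_left hm).mul_left cy.inv_left).mul_left hm.inv_left)
  have cz := Commute.pow_pow_self y e₂ e₁
  have a3 : ∀ i : ℕ, (y ^ e₂) ^ i * x * ((y ^ e₂) ^ i)⁻¹ * x⁻¹ ∈ f.ker ∧
      Commute ((y ^ e₂) ^ i * x * ((y ^ e₂) ^ i)⁻¹ * x⁻¹) (y ^ e₁) := fun i => by
    induction i with
    | zero => simp
    | succ i ih =>
      have e : (y ^ e₂) ^ (i + 1) * x * ((y ^ e₂) ^ (i + 1))⁻¹ * x⁻¹ =
          y ^ e₂ * ((y ^ e₂) ^ i * x * ((y ^ e₂) ^ i)⁻¹ * x⁻¹) * (y ^ e₂)⁻¹ *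
            (y ^ e₂ * x * (y ^ e₂)⁻¹ * x⁻¹) := by
        generalize y ^ e₂ = w
        rw [pow_succ']; group
      rw [e]
      exact ⟨f.ker.mul_mem (f.normal_ker.conj_mem _ ih.1 _) a1,
        ((cz.mul_left ih.2).mul_left cz.inv_left).mul_left a2⟩
  obtain ⟨b1, b2⟩ := a3 e₁
  rw [← pow_mul] at b1 b2
  have b3 := b2.pow_right e₂
  rw [← pow_mul, mul_comm e₁ e₂] at b3
  have b4 := glin (v := y ^ (e₂ * e₁)) (x := x) (inv_mul_cancel_right _ x).symm b3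
  have b5 : (y ^ (e₂ * e₁) * x * (y ^ (e₂ * e₁))⁻¹ * x⁻¹) ^ n = 1 := by
    have k1 := b4 n
    have k2 := hm.pow_right (e₂ * e₁)
    rw [← pow_mul, mul_comm n, pow_mul] at k2
    rw [← k2.eq, mul_inv_cancel_right] at k1
    exact (mul_eq_right.1 k1.symm)
  have b6 := b4 t
  rw [h₃ _ b1 n hn b5, one_mul, mul_inv_eq_iff_eq_mul] at b6
  rw [pow_mul]
  exact b6.symm

end Pool.Agent.Cdim
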