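import Pool.Agent.Lib.MP_721660_al.CD.St

/-! Finitely generated abelian groups are eremitic modules for every acting group. -/

namespace Pool.Agent.Cdim

universe u

namespace Fgx

theorem er_fin {Q M : Type u} [Group Q] [AddCommGroup M] [Finite M] (ρ : Act Q M) : Er ρ := by
  have : Finite (AddMonoid.End M) :=
    Finite.of_injective (fun f : AddMonoid.End M => (f : M → M)) DFunLike.coe_injective
  refine ⟨Nat.card (AddMonoid.End M)ˣ, Nat.card_pos, fun q m n _ _ => ?_⟩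
  have h : ρ.toHomUnits (q ^ Nat.card (AddMonoid.End M)ˣ) = 1 := by
    rw [map_pow, pow_card_eq_one']
  have h2 : ρ (q ^ Nat.card (AddMonoid.End M)ˣ) = 1 := congrArg Units.val h
  rw [h2]
  rfl

theorem fin_of_bound {M : Type u} [AddCommGroup M] [Module.Finite ℤ M]
    (h : ∀ m : M, ∃ n : ℕ, 0 < n ∧ n • m = 0) : Finite M := by
  apply Module.finite_of_fg_torsion M
  intro m
  obtain ⟨n, hn, hm⟩ := h m
  refine ⟨⟨(n : ℤ), mem_nonZeroDivisors_of_ne_zero (by exact_mod_cast hn.ne')⟩, ?_⟩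
  show (n : ℤ) • m = 0
  rw [natCast_zsmul]
  exact hm

theorem good_free {M : Type u} [AddCommGroup M] [Module.Finite ℤ M]
    (htf : ∀ (m : M) (n : ℕ), 0 < n → n • m = 0 → m = 0) (p : ℕ) (hp : p.Prime) :
    Good p (⊥ : AddSubgroup M) ⊤ := by
  have : IsAddTorsionFree M := by
    refine ⟨fun n hn a b hab => ?_⟩
    have hab' : n • a = n • b := hab
    have : n • (a - b) = 0 := by rw [smul_sub, hab', sub_self]
    exact sub_eq_zero.1 (htf _ n (Nat.pos_of_ne_zero hn) this)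
  have : Module.Free ℤ M := Module.free_of_finite_type_torsion_free'
  refine ⟨fun x _ hx => ?_, fun x _ hx => ⟨1, one_pos, ?_⟩⟩
  · rw [AddSubgroup.mem_bot] at hx ⊢
    exact htf x p hp.pos hx
  · rw [one_smul, AddSubgroup.mem_bot]
    let b := Module.Free.chooseBasis ℤ M
    apply b.repr.injective
    ext i
    rw [map_zero, Finsupp.zero_apply]
    obtain ⟨y, -, hy⟩ := hx (b.repr x i).natAbs
    rw [AddSubgroup.mem_bot, sub_eq_zero] at hy
    have hd : ((p ^ (b.repr x i).natAbs : ℕ) : ℤ) ∣ b.repr x i := by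
      refine ⟨b.repr y i, ?_⟩
      generalize (b.repr x i).natAbs = j at hy
      rw [hy, map_nsmul, Finsupp.smul_apply, nsmul_eq_mul]
    have hd' : p ^ (b.repr x i).natAbs ∣ (b.repr x i).natAbs := Int.natCast_dvd.1 hd
    have hlt : (b.repr x i).natAbs < p ^ (b.repr x i).natAbs := Nat.lt_pow_self hp.one_lt
    exact Int.natAbs_eq_zero.1 (Nat.eq_zero_of_dvd_of_lt hd' hlt)

theorem er_modp {Q M : Type u} [Group Q] [AddCommGroup M] [Module.Finite ℤ M] (ρ : Act Q M)
    (p : ℕ) (hp : p.Prime) : Er (quo ρ (pM M p) (inv_pM ρ p)) := by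
  have : AddGroup.FG M := Module.Finite.iff_addGroup_fg.1 inferInstance
  have : Module.Finite ℤ (M ⧸ pM M p) := Module.Finite.iff_addGroup_fg.2 inferInstance
  have : Finite (M ⧸ pM M p) := by
    refine fin_of_bound fun m => ⟨p, hp.pos, ?_⟩
    obtain ⟨m, rfl⟩ := QuotientAddGroup.mk_surjective m
    rw [← QuotientAddGroup.mk_nsmul, QuotientAddGroup.eq_zero_iff]
    exact ⟨m, rfl⟩
  exact er_fin _

/-- The torsion subgroup. -/
def tor (M : Type u) [AddCommGroup M] : AddSubgroup M where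
  carrier := {m | ∃ n : ℕ, 0 < n ∧ n • m = 0}
  zero_mem' := ⟨1, one_pos, by simp⟩
  add_mem' := by
    rintro a b ⟨n, hn, ha⟩ ⟨k, hk, hb⟩
    refine ⟨n * k, Nat.mul_pos hn hk, ?_⟩
    rw [smul_add, mul_smul n k b, hb, mul_comm, mul_smul, ha, smul_zero, smul_zero, add_zero]
  neg_mem' := by
    rintro a ⟨n, hn, ha⟩
    exact ⟨n, hn, by rw [smul_neg, ha, neg_zero]⟩

end Fgx

theorem fg_st (hE : ExtSt.{u}) (hT : TwoSt.{u}) : FgSt.{u} := by
  intro Q M _ _ ρ hM
  have : Module.Finite ℤ M := Module.Finite.iff_addGroup_fg.2 hM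
  have hinv : Inv ρ (Fgx.tor M) := by
    rintro g m ⟨n, hn, hm⟩
    exact ⟨n, hn, by rw [← map_nsmul, hm, map_zero]⟩
  have : Module.Finite ℤ (Fgx.tor M) :=
    Module.Finite.of_injective (Fgx.tor M).subtype.toIntLinearMap Subtype.val_injective
  have : Finite (Fgx.tor M) := by
    refine Fgx.fin_of_bound fun m => ?_
    obtain ⟨n, hn, hm⟩ := m.2
    exact ⟨n, hn, Subtype.ext hm⟩
  refine hE Q M ρ (Fgx.tor M) hinv ((er_sub_iff ρ _ hinv).1 (Fgx.er_fin _)) ?_
    ⟨Nat.card (Fgx.tor M), Nat.card_pos, fun m hm _ _ _ => ?_⟩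
  · have : Module.Finite ℤ (M ⧸ Fgx.tor M) := Module.Finite.iff_addGroup_fg.2 inferInstance
    have htf : ∀ (m : M ⧸ Fgx.tor M) (n : ℕ), 0 < n → n • m = 0 → m = 0 := by
      intro m n hn hm
      obtain ⟨m, rfl⟩ := QuotientAddGroup.mk_surjective m
      rw [← QuotientAddGroup.mk_nsmul, QuotientAddGroup.eq_zero_iff] at hm
      obtain ⟨k, hk, hm⟩ := hm
      rw [QuotientAddGroup.eq_zero_iff]
      exact ⟨k * n, Nat.mul_pos hk hn, by rw [mul_smul]; exact hm⟩
    exact hT Q _ (quo ρ _ hinv) 2 3 Nat.prime_two Nat.prime_three (by norm_num) htf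
      (Fgx.good_free htf 2 Nat.prime_two) (Fgx.good_free htf 3 Nat.prime_three)
      (Fgx.er_modp _ 2 Nat.prime_two) (Fgx.er_modp _ 3 Nat.prime_three)
  · have h : Nat.card (Fgx.tor M) • (⟨m, hm⟩ : Fgx.tor M) = 0 := card_nsmul_eq_zero'
    exact congrArg Subtype.val h

end Pool.Agent.Cdim
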