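import Pool.Agent.Lib.MP_721660_al.CD.St

/-! The kernel of a map from a finitely generated group onto a polycyclic group is the normal
closure of a finite set. -/

namespace Pool.Agent.Cdim

universe u

namespace Fngx

variable {G Q : Type u} [Group G] [Group Q] (f : G →* Q)

theorem key {K N : Subgroup G} [N.Normal] (hN : N ≤ f.ker) (hK : K ⊓ f.ker ≤ N) {g : G}
    (hg : g ∈ K ⊔ N) (h1 : f g = 1) : g ∈ N := by
  obtain ⟨k, hk, n, hn, rfl⟩ := Subgroup.mem_sup_of_normal_right.1 hg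
  have h2 : f n = 1 := hN hn
  rw [map_mul, h2, mul_one] at h1
  exact N.mul_mem (hK ⟨hk, h1⟩) hn

theorem fin_lift (K : Subgroup G) (Y : Set G) (hY : Y.Finite) (h : ∀ y ∈ Y, f y ∈ K.map f) :
    ∃ T : Set G, T.Finite ∧ T ⊆ f.ker ∧ ∀ N : Subgroup G, T ⊆ N → ∀ y ∈ Y, y ∈ K ⊔ N := by
  have h' : ∀ y ∈ Y, ∃ w, w ∈ K ∧ f w = f y := fun y hy => h y hy
  choose! w hw1 hw2 using h'
  refine ⟨(fun y => (w y)⁻¹ * y) '' Y, hY.image _, ?_, ?_⟩
  · rintro _ ⟨y, hy, rfl⟩
    show f ((w y)⁻¹ * y) = 1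
    rw [map_mul, map_inv, hw2 y hy, inv_mul_cancel]
  · intro N hN y hy
    have e : y = w y * ((w y)⁻¹ * y) := by group
    rw [e]
    exact Subgroup.mul_mem_sup (hw1 y hy) (hN ⟨y, hy, rfl⟩)

theorem conj_mem {S : Set G} {N : Subgroup G} [hN : N.Normal] {c : G}
    (h : ∀ k ∈ S, c * k * c⁻¹ ∈ Subgroup.closure S ⊔ N) :
    ∀ l ∈ Subgroup.closure S ⊔ N, c * l * c⁻¹ ∈ Subgroup.closure S ⊔ N := by
  have : Subgroup.closure S ⊔ N ≤ (Subgroup.closure S ⊔ N).comap (MulAut.conj c).toMonoidHom := by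
    refine sup_le ((Subgroup.closure_le _).2 fun k hk => h k hk) fun n hn => ?_
    exact Subgroup.mem_sup_right (hN.conj_mem n hn c)
  exact fun l hl => this hl

theorem conj_zpow {L : Subgroup G} {b : G} (h1 : ∀ l ∈ L, b * l * b⁻¹ ∈ L)
    (h2 : ∀ l ∈ L, b⁻¹ * l * b⁻¹⁻¹ ∈ L) (j : ℤ) : ∀ l ∈ L, b ^ j * l * (b ^ j)⁻¹ ∈ L := by
  induction j using Int.induction_on with
  | zero => intro l hl; simpa using hl
  | succ i ih =>
    intro l hl
    have e : b ^ ((i : ℤ) + 1) * l * (b ^ ((i : ℤ) + 1))⁻¹ =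
        b ^ (i : ℤ) * (b * l * b⁻¹) * (b ^ (i : ℤ))⁻¹ := by group
    rw [e]; exact ih _ (h1 l hl)
  | pred i ih =>
    intro l hl
    have e : b ^ (-(i : ℤ) - 1) * l * (b ^ (-(i : ℤ) - 1))⁻¹ =
        b ^ (-(i : ℤ)) * (b⁻¹ * l * b⁻¹⁻¹) * (b ^ (-(i : ℤ)))⁻¹ := by group
    rw [e]; exact ih _ (h2 l hl)

theorem normal_form {L : Subgroup G} {b : G} {S : Set G} (hS : S ⊆ L)
    (h : ∀ j : ℤ, ∀ l ∈ L, b ^ j * l * (b ^ j)⁻¹ ∈ L) {g : G}
    (hg : g ∈ Subgroup.closure (insert b S)) : ∃ j : ℤ, ∃ l ∈ L, g = b ^ j * l := by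
  induction hg using Subgroup.closure_induction with
  | mem x hx =>
    rcases hx with rfl | hx
    · exact ⟨1, 1, L.one_mem, by simp⟩
    · exact ⟨0, x, hS hx, by simp⟩
  | one => exact ⟨0, 1, L.one_mem, by simp⟩
  | mul x y _ _ hx hy =>
    obtain ⟨i, l, hl, rfl⟩ := hx
    obtain ⟨j, l', hl', rfl⟩ := hy
    exact ⟨i + j, b ^ (-j) * l * (b ^ (-j))⁻¹ * l', L.mul_mem (h _ l hl) hl', by group⟩
  | inv x _ hx =>
    obtain ⟨i, l, hl, rfl⟩ := hx
    exact ⟨-i, b ^ i * l⁻¹ * (b ^ i)⁻¹, h _ _ (L.inv_mem hl), by group⟩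

theorem main (hf : Function.Surjective f) {H : Subgroup Q} (hH : Poly H) :
    ∃ S T : Set G, S.Finite ∧ T.Finite ∧ (Subgroup.closure S).map f = H ∧ T ⊆ f.ker ∧
      Subgroup.closure S ⊓ f.ker ≤ Subgroup.normalClosure T := by
  induction hH with
  | bot => exact ⟨∅, ∅, Set.finite_empty, Set.finite_empty, by simp, by simp, by simp⟩
  | step N H x _ hNH hx hn hj ih =>
    obtain ⟨S, T, hS, hT, hm, hTk, hK⟩ := ih
    obtain ⟨b, rfl⟩ := hf x
    let D : AddSubgroup ℤ :=
      { carrier := {j | f b ^ j ∈ N}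
        zero_mem' := by simp
        add_mem' := fun {i j} hi hj => by
          show f b ^ (i + j) ∈ N
          rw [zpow_add]; exact N.mul_mem hi hj
        neg_mem' := fun {i} hi => by
          show f b ^ (-i) ∈ N
          rw [zpow_neg]; exact N.inv_mem hi }
    obtain ⟨d, hd⟩ := Int.subgroup_cyclic D
    have hdD : d ∈ D := by rw [hd]; exact AddSubgroup.mem_closure_singleton_self d
    have hSN : ∀ k ∈ S, f k ∈ N := fun k hk => by
      rw [← hm]; exact ⟨k, Subgroup.subset_closure hk, rfl⟩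
    obtain ⟨T', hT', hT'k, hY⟩ := fin_lift f (Subgroup.closure S)
      (insert (b ^ d) ((fun k => b * k * b⁻¹) '' S ∪ (fun k => b⁻¹ * k * b⁻¹⁻¹) '' S))
      (((hS.image _).union (hS.image _)).insert _) (by
        rw [hm]
        rintro y (rfl | ⟨k, hk, rfl⟩ | ⟨k, hk, rfl⟩)
        · rw [map_zpow]; exact hdD
        · simp only [map_mul, map_inv]
          exact hn _ hx _ (hSN k hk)
        · simp only [map_mul, map_inv]
          exact hn _ (H.inv_mem hx) _ (hSN k hk))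
    have hTT : T ∪ T' ⊆ f.ker := Set.union_subset hTk hT'k
    refine ⟨insert b S, T ∪ T', hS.insert _, hT.union hT', ?_, hTT, ?_⟩
    · refine le_antisymm ?_ fun h hh => ?_
      · rw [Subgroup.map_le_iff_le_comap, Subgroup.closure_le]
        rintro y (rfl | hy)
        · exact hx
        · exact hNH (hSN y hy)
      · obtain ⟨j, n, hn', rfl⟩ := hj h hh
        rw [← hm] at hn'
        obtain ⟨k, hk, rfl⟩ := hn'
        refine ⟨b ^ j * k, Subgroup.mul_mem _ (Subgroup.zpow_mem _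
          (Subgroup.subset_closure (Set.mem_insert _ _)) j)
          (Subgroup.closure_mono (Set.subset_insert _ _) hk), ?_⟩
        rw [map_mul, map_zpow]
    · rintro g ⟨hg, hg1⟩
      have hg1 : f g = 1 := hg1
      set M := Subgroup.normalClosure (T ∪ T') with hM
      have hMk : M ≤ f.ker := Subgroup.normalClosure_le_normal hTT
      have hY' := hY M (Set.subset_union_right.trans Subgroup.subset_normalClosure)
      have c1 := conj_mem (S := S) (N := M) (c := b) fun k hk =>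
        hY' _ (Set.mem_insert_of_mem _ (Or.inl ⟨k, hk, rfl⟩))
      have c2 := conj_mem (S := S) (N := M) (c := b⁻¹) fun k hk =>
        hY' _ (Set.mem_insert_of_mem _ (Or.inr ⟨k, hk, rfl⟩))
      obtain ⟨j, l, hl, rfl⟩ := normal_form (L := Subgroup.closure S ⊔ M)
        (fun k hk => Subgroup.mem_sup_left (Subgroup.subset_closure hk)) (conj_zpow c1 c2) hg
      have hfl : f l ∈ N := by
        obtain ⟨k, hk, n, hn', rfl⟩ := Subgroup.mem_sup_of_normal_right.1 hl
        have h2 : f n = 1 := hMk hn'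
        rw [map_mul, h2, mul_one, ← hm]
        exact ⟨k, hk, rfl⟩
      have hjD : j ∈ D := by
        show f b ^ j ∈ N
        rw [map_mul, map_zpow] at hg1
        rw [eq_inv_of_mul_eq_one_left hg1]
        exact N.inv_mem hfl
      rw [hd, AddSubgroup.mem_closure_singleton] at hjD
      obtain ⟨i, rfl⟩ := hjD
      refine key f hMk (hK.trans (Subgroup.normalClosure_mono Set.subset_union_left))
        (Subgroup.mul_mem _ ?_ hl) hg1
      rw [smul_eq_mul, mul_comm, zpow_mul]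
      exact Subgroup.zpow_mem _ (hY' _ (Set.mem_insert _ _)) i

end Fngx

theorem fng_st (_hP : PMaxSt.{u}) : FngSt.{u} := by
  intro G Q _ _ f hG hf hQ
  obtain ⟨S, T, hS, hT, hm, hTk, hK⟩ := Fngx.main f hf hQ
  obtain ⟨Y, hY, hYf⟩ := Group.fg_iff.1 hG
  obtain ⟨T', hT', hT'k, hl⟩ := Fngx.fin_lift f (Subgroup.closure S) Y hYf
    (by rw [hm]; exact fun _ _ => trivial)
  have hTT : T ∪ T' ⊆ f.ker := Set.union_subset hTk hT'k
  refine ⟨(hT.union hT').toFinset, ?_⟩
  rw [Set.Finite.coe_toFinset]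
  refine le_antisymm (Subgroup.normalClosure_le_normal hTT) fun g hg => ?_
  refine Fngx.key f (Subgroup.normalClosure_le_normal hTT)
    (hK.trans (Subgroup.normalClosure_mono Set.subset_union_left)) ?_ hg
  have : (⊤ : Subgroup G) ≤ Subgroup.closure S ⊔ Subgroup.normalClosure (T ∪ T') := by
    rw [← hY, Subgroup.closure_le]
    exact hl _ (Set.subset_union_right.trans Subgroup.subset_normalClosure)
  exact this trivial

end Pool.Agent.Cdim
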