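import Pool.Agent.Lib.MP_721660_al.CD.St

/-! The extension of an abelian kernel by a polycyclic group is eremitic. -/

namespace Pool.Agent.Cdim

universe u

namespace GErx

theorem span_top {G Q M : Type u} [Group G] [Group Q] [AddCommGroup M] (f : G →* Q)
    (ρ : Act Q M) (ι : Multiplicative M →* G) (hinj : Function.Injective ι)
    (hr : ι.range = f.ker)
    (hc : ∀ (g : G) (m : M),
      ι (Multiplicative.ofAdd (ρ (f g) m)) = g * ι (Multiplicative.ofAdd m) * g⁻¹)
    (s : Finset G) (hs : Subgroup.normalClosure (s : Set G) = f.ker) :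
    ∃ s' : Finset M, spanOn ρ ⊤ (s' : Set M) = ⊤ := by
  classical
  have hinj' : Function.Injective (fun m : M => ι (Multiplicative.ofAdd m)) :=
    fun a b h => Multiplicative.ofAdd.injective (hinj h)
  refine ⟨s.preimage (fun m : M => ι (Multiplicative.ofAdd m)) hinj'.injOn, ?_⟩
  set W := spanOn ρ ⊤
    ((s.preimage (fun m : M => ι (Multiplicative.ofAdd m)) hinj'.injOn : Finset M) : Set M)
    with hW
  let K : Subgroup G :=
    { carrier := {x | ∃ m ∈ W, ι (Multiplicative.ofAdd m) = x}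
      one_mem' := ⟨0, W.zero_mem, by simp⟩
      mul_mem' := by
        rintro _ _ ⟨m, hm, rfl⟩ ⟨m', hm', rfl⟩
        exact ⟨m + m', W.add_mem hm hm', by rw [ofAdd_add, map_mul]⟩
      inv_mem' := by
        rintro _ ⟨m, hm, rfl⟩
        exact ⟨-m, W.neg_mem hm, by rw [ofAdd_neg, map_inv]⟩ }
  have hKn : K.Normal := by
    refine ⟨?_⟩
    rintro _ ⟨m, hm, rfl⟩ g
    exact ⟨ρ (f g) m, invOn_spanOn ρ ⊤ _ (f g) trivial m hm, hc g m⟩
  have hsK : (s : Set G) ⊆ K := by
    intro a ha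
    have h1 : a ∈ ι.range := by
      rw [hr, ← hs]
      exact Subgroup.subset_normalClosure ha
    obtain ⟨m, hm⟩ := h1
    refine ⟨Multiplicative.toAdd m, subset_spanOn ρ ⊤ _ ?_, by simpa using hm⟩
    have h2 : ι (Multiplicative.ofAdd (Multiplicative.toAdd m)) ∈ s := by
      have h3 : ι (Multiplicative.ofAdd (Multiplicative.toAdd m)) = a := by simpa using hm
      rw [h3]
      exact ha
    exact Finset.mem_coe.2 (Finset.mem_preimage.2 h2)
  have hle : Subgroup.normalClosure (s : Set G) ≤ K := Subgroup.normalClosure_le_normal hsK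
  refine top_unique fun m _ => ?_
  have h4 : ι (Multiplicative.ofAdd m) ∈ Subgroup.normalClosure (s : Set G) := by
    rw [hs, ← hr]
    exact ⟨_, rfl⟩
  obtain ⟨m', hm', h5⟩ := hle h4
  have h6 : m' = m := hinj' h5
  exact h6 ▸ hm'

end GErx

theorem ger_st (hM : ModelSt.{u}) (hA : AffSt.{u}) (hE : PErSt.{u}) (hPo : PolySt.{u})
    (hH : HallSt.{u}) (hZ : ZeroSt.{u}) (hF : FngSt.{u}) (hB : BasicSt.{u}) : GErSt.{u} := by
  intro G Q _ _ f hFG hsurj hcomm hsol hmax hC
  obtain ⟨M, _, ρ, ι, hinj, hr, hc⟩ := hM G Q f hsurj hcomm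
  have hpoly := hPo Q hsol hmax
  obtain ⟨s, hs⟩ := hF G Q f hFG hsurj hpoly
  obtain ⟨s', hs'⟩ := GErx.span_top f ρ ι hinj hr hc s hs
  have hN : Noeth ρ := by
    intro W hW hmono
    refine hH Q M ρ ⊤ hpoly s' W (fun i g _ m hm => hW i g m hm) (fun i => ?_) hmono
    rw [hs']
    exact le_top
  obtain ⟨e, he, hEr⟩ := hZ Q hpoly hC M ρ hN
  obtain ⟨t, ht, hT⟩ := (hB Q M ρ hN).2.2.2.1
  have hinj' : Function.Injective (fun m : M => ι (Multiplicative.ofAdd m)) :=
    fun a b h => Multiplicative.ofAdd.injective (hinj h)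
  have hrep : ∀ a ∈ f.ker, ∃ m : M, ι (Multiplicative.ofAdd m) = a := by
    intro a ha
    rw [← hr] at ha
    obtain ⟨m, hm⟩ := ha
    exact ⟨Multiplicative.toAdd m, by simpa using hm⟩
  refine hA G Q f hcomm ⟨e, he, ?_⟩ ⟨t, ht, ?_⟩ (hE Q hsol hmax)
  · intro y a ha n hn hcm
    obtain ⟨m, rfl⟩ := hrep a ha
    have h1 : ρ ((f y) ^ n) m = m := by
      apply hinj'
      show ι (Multiplicative.ofAdd (ρ ((f y) ^ n) m)) = ι (Multiplicative.ofAdd m)
      rw [← map_pow, hc, ← hcm.eq, mul_inv_cancel_right]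
    have h2 := hEr (f y) m n hn h1
    have h3 := hc (y ^ e) m
    rw [map_pow, h2] at h3
    have h4 : ι (Multiplicative.ofAdd m) * y ^ e = y ^ e * ι (Multiplicative.ofAdd m) := by
      conv_lhs => rw [h3]
      rw [inv_mul_cancel_right]
    exact h4
  · intro a ha n hn han
    obtain ⟨m, rfl⟩ := hrep a ha
    have h1 : n • m = 0 := by
      apply hinj'
      show ι (Multiplicative.ofAdd (n • m)) = ι (Multiplicative.ofAdd 0)
      rw [ofAdd_nsmul, map_pow, han, ofAdd_zero, map_one]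
    have h2 := hT m n hn h1
    rw [← map_pow, ← ofAdd_nsmul, h2, ofAdd_zero, map_one]

end Pool.Agent.Cdim
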