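import Pool.Agent.Lib.MP_721660_al.CD.St

namespace Pool.Agent.Cdim

universe u

theorem gen_st (hB : BasicSt.{u}) (hE : ExtSt.{u}) : GenSt.{u} := by
  intro Q M _ _ ρ hN hU
  let P : AddSubgroup M → Prop := fun W => ∃ e : ℕ, 0 < e ∧ ∀ (q : Q) (m : M) (n : ℕ), 0 < n →
      ρ (q ^ n) m - m ∈ W → ρ (q ^ e) m - m ∈ W
  have hall : ∀ W, Inv ρ W → P W := by
    by_contra hcon
    push Not at hcon
    obtain ⟨W0, hW0, hP0⟩ := hcon
    obtain ⟨W, ⟨hW, hPW⟩, hmax⟩ := (hB Q M ρ hN).2.2.1 {W | Inv ρ W ∧ ¬ P W} ⟨W0, hW0, hP0⟩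
      (fun W h => h.1)
    have hne : W ≠ ⊤ := by
      rintro rfl
      exact hPW ⟨1, one_pos, fun _ _ _ _ _ => trivial⟩
    obtain ⟨U, hUb, hUi, hUe⟩ := hU W hW hne
    let W' : AddSubgroup M := U.comap (QuotientAddGroup.mk' W)
    have hmem : ∀ m, m ∈ W' ↔ (QuotientAddGroup.mk m : M ⧸ W) ∈ U := fun m => Iff.rfl
    have hW'i : Inv ρ W' := fun g m hm => by
      rw [hmem, ← quo_mk ρ W hW]
      exact hUi g _ ((hmem m).1 hm)
    have hle : W ≤ W' := fun m hm => by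
      rw [hmem, (QuotientAddGroup.eq_zero_iff m).2 hm]
      exact U.zero_mem
    have hP' : P W' := by
      by_contra hc
      have he := hmax W' ⟨hW'i, hc⟩ hle
      apply hUb
      rw [eq_bot_iff]
      intro x hx
      obtain ⟨m, rfl⟩ := QuotientAddGroup.mk_surjective x
      have : m ∈ W := he ▸ (hmem m).2 hx
      exact (QuotientAddGroup.eq_zero_iff m).2 this
    have hq : Er (quo (quo ρ W hW) U hUi) := by
      rw [er_quo_iff]
      obtain ⟨e, he, h⟩ := hP'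
      refine ⟨e, he, fun q x n hn hx => ?_⟩
      obtain ⟨m, rfl⟩ := QuotientAddGroup.mk_surjective x
      rw [quo_mk, ← QuotientAddGroup.mk_sub] at hx ⊢
      exact (hmem _).1 (h q m n hn ((hmem _).2 hx))
    obtain ⟨t, ht, htt⟩ := (hB Q (M ⧸ W) (quo ρ W hW) ((hB Q M ρ hN).2.1 W hW)).2.2.2.1
    have := hE Q (M ⧸ W) (quo ρ W hW) U hUi hUe hq ⟨t, ht, fun m _ n hn h => htt m n hn h⟩
    exact hPW ((er_quo_iff ρ W hW).1 this)
  obtain ⟨e, he, h⟩ := hall ⊥ (fun g m hm => by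
    rw [AddSubgroup.mem_bot] at hm ⊢
    rw [hm, map_zero])
  refine ⟨e, he, fun q m n hn hm => ?_⟩
  have := h q m n hn (by rw [hm, sub_self]; exact AddSubgroup.zero_mem _)
  exact sub_eq_zero.1 (AddSubgroup.mem_bot.1 this)

end Pool.Agent.Cdim
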