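import Pool.Agent.Lib.MP_721660_al.CD.St

namespace Pool.Agent.Cdim

universe u

namespace Goodx

variable {M : Type u} [AddCommGroup M] {p : ℕ}

theorem pure_pow {W W' : AddSubgroup M} (h : ∀ x ∈ W', p • x ∈ W → x ∈ W) (j : ℕ) :
    ∀ x ∈ W', p ^ j • x ∈ W → x ∈ W := by
  induction j with
  | zero => intro x _ hx; simpa using hx
  | succ j ih =>
    intro x hx hj
    rw [pow_succ, mul_smul] at hj
    exact h x hx (ih _ (W'.nsmul_mem hx p) hj)

theorem refl (W : AddSubgroup M) : Good p W W :=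
  ⟨fun _ hx _ => hx, fun _ hx _ => ⟨1, one_pos, by simpa using hx⟩⟩

theorem trans (W₁ W₂ W₃ : AddSubgroup M) (h12 : W₁ ≤ W₂) (g1 : Good p W₁ W₂)
    (g2 : Good p W₂ W₃) : Good p W₁ W₃ := by
  refine ⟨fun x hx hp => g1.1 x (g2.1 x hx (h12 hp)) hp, fun x hx hd => ?_⟩
  obtain ⟨n, hn, hnx⟩ := g2.2 x hx fun j => (hd j).imp fun y hy => ⟨hy.1, h12 hy.2⟩
  obtain ⟨m, hm, hmx⟩ := g1.2 _ hnx fun j => by
    obtain ⟨y, hy, hxy⟩ := hd j
    have h1 : n • x - p ^ j • n • y ∈ W₁ := by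
      rw [smul_comm (p ^ j) n y, ← smul_sub]
      exact W₁.nsmul_mem hxy n
    refine ⟨n • y, pure_pow g2.1 j _ (W₃.nsmul_mem hy n) ?_, h1⟩
    simpa using W₂.sub_mem hnx (h12 h1)
  exact ⟨m * n, Nat.mul_pos hm hn, by rw [mul_smul]; exact hmx⟩

theorem chain (W : ℕ → AddSubgroup M) (hW : Monotone W) (g : ∀ i, Good p (W i) (W (i + 1)))
    (i d : ℕ) : Good p (W i) (W (i + d)) := by
  induction d with
  | zero => exact refl _
  | succ d ih => exact trans _ _ _ (hW (Nat.le_add_right i d)) ih (g (i + d))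

theorem union (W : ℕ → AddSubgroup M) (hW : Monotone W) (g : ∀ i, Good p (W i) (W (i + 1))) :
    Good p (W 0) (⨆ i, W i) := by
  have g0 : ∀ i, Good p (W 0) (W i) := fun i => by simpa using chain W hW g 0 i
  refine ⟨fun x hx hp => ?_, fun x hx hd => ?_⟩
  · obtain ⟨i, hi⟩ := (AddSubgroup.mem_iSup_of_directed hW.directed_le).1 hx
    exact (g0 i).1 x hi hp
  · obtain ⟨i, hi⟩ := (AddSubgroup.mem_iSup_of_directed hW.directed_le).1 hx
    refine (g0 i).2 x hi fun j => ?_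
    obtain ⟨y, hy, hxy⟩ := hd j
    obtain ⟨k, hk⟩ := (AddSubgroup.mem_iSup_of_directed hW.directed_le).1 hy
    refine ⟨y, pure_pow (chain W hW g i k).1 j y (hW (Nat.le_add_left k i) hk) ?_, hxy⟩
    simpa using (W i).sub_mem hi (hW (Nat.zero_le i) hxy)

theorem fin (A : Type u) [AddCommGroup A] [Module.Finite ℤ A] : ∃ b : ℕ, ∀ p : ℕ, p.Prime →
    b < p → (∀ x : A, p • x = 0 → x = 0) ∧
      ∀ x : A, (∀ j : ℕ, ∃ y, x = p ^ j • y) → ∃ n : ℕ, 0 < n ∧ n • x = 0 := by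
  have hT : Finite (Submodule.torsion ℤ A) :=
    Module.finite_of_fg_torsion _ (Submodule.torsion_isTorsion)
  refine ⟨Nat.card (Submodule.torsion ℤ A), fun p hp hb => ⟨fun x hx => ?_, fun x hx => ?_⟩⟩
  · have hm : x ∈ Submodule.torsion ℤ A :=
      ⟨⟨(p : ℤ), mem_nonZeroDivisors_of_ne_zero (by exact_mod_cast hp.ne_zero)⟩, by
        simpa [Submonoid.smul_def] using hx⟩
    have h1 : Nat.card (Submodule.torsion ℤ A) • x = 0 :=
      congrArg Subtype.val (card_nsmul_eq_zero' (x := (⟨x, hm⟩ : Submodule.torsion ℤ A)))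
    have h2 := addOrderOf_dvd_of_nsmul_eq_zero hx
    have h3 := Nat.le_of_dvd Nat.card_pos (addOrderOf_dvd_of_nsmul_eq_zero h1)
    rcases (Nat.dvd_prime hp).1 h2 with h | h
    · exact AddMonoid.addOrderOf_eq_one_iff.1 h
    · omega
  · have hm : x ∈ (⨅ i : ℕ, (Ideal.span {(p : ℤ)}) ^ i • ⊤ : Submodule ℤ A) := by
      refine (Submodule.mem_iInf _).2 fun j => ?_
      obtain ⟨y, rfl⟩ := hx j
      rw [← natCast_zsmul]
      refine Submodule.smul_mem_smul ?_ trivial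
      push_cast
      exact Ideal.pow_mem_pow (Ideal.mem_span_singleton_self _) j
    obtain ⟨⟨r, hr⟩, hrx⟩ := (Ideal.mem_iInf_smul_pow_eq_bot_iff _ x).1 hm
    obtain ⟨c, rfl⟩ := Ideal.mem_span_singleton.1 hr
    have h1 : (1 - (p : ℤ) * c) • x = 0 := by
      rw [sub_smul, one_smul, sub_eq_zero]
      exact hrx.symm
    have h2 : 1 - (p : ℤ) * c ≠ 0 := fun e => by
      have : (p : ℤ) ∣ 1 := ⟨c, by linarith⟩
      exact hp.one_lt.ne' (Nat.dvd_one.1 (by exact_mod_cast this))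
    exact ⟨(1 - (p : ℤ) * c).natAbs, Int.natAbs_pos.2 h2, natAbs_nsmul_eq_zero.2 h1⟩

end Goodx

theorem good_st : GoodSt.{u} := fun _ _ _ =>
  ⟨fun W₁ W₂ W₃ h12 _ g1 g2 => Goodx.trans W₁ W₂ W₃ h12 g1 g2, Goodx.union⟩

theorem sep0_st : Sep0St.{u} := by
  intro M _ s W _
  set U := AddSubgroup.closure (s : Set M) with hU
  have hfg : AddGroup.FG U := (AddGroup.fg_iff_addSubgroup_fg U).2 ⟨s, rfl⟩
  have hq : AddGroup.FG (U ⧸ W.addSubgroupOf U) := QuotientAddGroup.fg _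
  have : Module.Finite ℤ (U ⧸ W.addSubgroupOf U) := Module.Finite.iff_addGroup_fg.2 hq
  obtain ⟨b, hb⟩ := Goodx.fin (U ⧸ W.addSubgroupOf U)
  have key : ∀ x : U, (QuotientAddGroup.mk' (W.addSubgroupOf U) x = 0) ↔ (x : M) ∈ W := fun x =>
    (QuotientAddGroup.eq_zero_iff x).trans AddSubgroup.mem_addSubgroupOf
  refine ⟨b, fun p hp hlt => ⟨fun x hx hpx => ?_, fun x hx hd => ?_⟩⟩
  · refine (key ⟨x, hx⟩).1 ((hb p hp hlt).1 _ ?_)
    rw [← map_nsmul]
    exact (key _).2 hpx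
  · obtain ⟨n, hn, h⟩ := (hb p hp hlt).2 (QuotientAddGroup.mk' (W.addSubgroupOf U) ⟨x, hx⟩)
      fun j => by
        obtain ⟨y, hy, hxy⟩ := hd j
        refine ⟨QuotientAddGroup.mk' (W.addSubgroupOf U) ⟨y, hy⟩, ?_⟩
        rw [← map_nsmul, ← sub_eq_zero, ← map_sub]
        exact (key _).2 hxy
    rw [← map_nsmul] at h
    exact ⟨n, hn, (key _).1 h⟩

end Pool.Agent.Cdim
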