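import Pool.Agent.Lib.MP_721660_al.CD.St

namespace Pool.Agent.Cdim

universe u

namespace Hallx

variable {Q M : Type u} [Group Q] [AddCommGroup M]

/-- `U + x U + … + x ^ (k - 1) U`. -/
def Uk (ρ : Act Q M) (x : Q) (U : AddSubgroup M) : ℕ → AddSubgroup M
  | 0 => ⊥
  | k + 1 => Uk ρ x U k ⊔ U.map (ρ (x ^ k) : M →+ M)

theorem mem_succ {ρ : Act Q M} {x : Q} {U : AddSubgroup M} {k : ℕ} {m : M} :
    m ∈ Uk ρ x U (k + 1) ↔ ∃ v ∈ Uk ρ x U k, ∃ u ∈ U, v + ρ (x ^ k) u = m := by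
  constructor
  · intro h
    obtain ⟨v, hv, _, ⟨u, hu, rfl⟩, e⟩ := AddSubgroup.mem_sup.1 h
    exact ⟨v, hv, u, hu, e⟩
  · rintro ⟨v, hv, u, hu, e⟩
    exact AddSubgroup.mem_sup.2 ⟨v, hv, _, ⟨u, hu, rfl⟩, e⟩

theorem uk_mono (ρ : Act Q M) (x : Q) (U : AddSubgroup M) : Monotone (Uk ρ x U) :=
  monotone_nat_of_le_succ fun _ => le_sup_left

theorem uk_shift1 {ρ : Act Q M} {x : Q} {U : AddSubgroup M} :
    ∀ {k : ℕ} {m : M}, m ∈ Uk ρ x U k → ρ x m ∈ Uk ρ x U (k + 1)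
  | 0, m, h => by
    rw [show m = 0 from h, map_zero]; exact zero_mem _
  | k + 1, m, h => by
    obtain ⟨v, hv, u, hu, rfl⟩ := mem_succ.1 h
    refine mem_succ.2 ⟨ρ x v, uk_shift1 hv, u, hu, ?_⟩
    rw [map_add, ← act_mul, ← pow_succ']

theorem uk_shift {ρ : Act Q M} {x : Q} {U : AddSubgroup M} {k : ℕ} {m : M}
    (h : m ∈ Uk ρ x U k) : ∀ a : ℕ, ρ (x ^ a) m ∈ Uk ρ x U (k + a)
  | 0 => by rw [pow_zero, act_one]; exact h
  | a + 1 => by rw [pow_succ', act_mul]; exact uk_shift1 (uk_shift h a)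

theorem uk_inv {ρ : Act Q M} {N : Subgroup Q} {x : Q} {U : AddSubgroup M} (hU : InvOn ρ N U)
    (hx : ∀ k : ℕ, ∀ n ∈ N, (x ^ k)⁻¹ * n * x ^ k ∈ N) : ∀ k, InvOn ρ N (Uk ρ x U k)
  | 0 => fun g _ m h => by
    rw [show m = 0 from h, map_zero]; exact zero_mem _
  | k + 1 => fun g hg m h => by
    obtain ⟨v, hv, u, hu, rfl⟩ := mem_succ.1 h
    refine mem_succ.2 ⟨ρ g v, uk_inv hU hx k g hg v hv, _, hU _ (hx k g hg) u hu, ?_⟩
    rw [map_add, ← act_mul, ← act_mul]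
    congr 3
    group

theorem invOn_sup {ρ : Act Q M} {N : Subgroup Q} {W V : AddSubgroup M} (hW : InvOn ρ N W)
    (hV : InvOn ρ N V) : InvOn ρ N (W ⊔ V) := fun g hg m h => by
  obtain ⟨w, hw, v, hv, rfl⟩ := AddSubgroup.mem_sup.1 h
  rw [map_add]
  exact AddSubgroup.mem_sup.2 ⟨_, hW g hg w hw, _, hV g hg v hv, rfl⟩

/-- leading coefficients in degree `k` -/
def Lk (ρ : Act Q M) (x : Q) (U W : AddSubgroup M) (k : ℕ) : AddSubgroup M :=
  U ⊓ (W ⊔ Uk ρ x U k).comap (ρ (x ^ k) : M →+ M)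

theorem mem_lk {ρ : Act Q M} {x : Q} {U W : AddSubgroup M} {k : ℕ} {u : M} :
    u ∈ Lk ρ x U W k ↔ u ∈ U ∧ ρ (x ^ k) u ∈ W ⊔ Uk ρ x U k := Iff.rfl

theorem lk_inv {ρ : Act Q M} {N : Subgroup Q} {x : Q} {U W : AddSubgroup M} (hU : InvOn ρ N U)
    (hW : InvOn ρ N W) (hx : ∀ k : ℕ, ∀ n ∈ N, (x ^ k)⁻¹ * n * x ^ k ∈ N)
    (hx' : ∀ k : ℕ, ∀ n ∈ N, x ^ k * n * (x ^ k)⁻¹ ∈ N) (k : ℕ) :
    InvOn ρ N (Lk ρ x U W k) := fun g hg u hu => by
  refine mem_lk.2 ⟨hU g hg u hu.1, ?_⟩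
  have e : ρ (x ^ k) (ρ g u) = ρ (x ^ k * g * (x ^ k)⁻¹) (ρ (x ^ k) u) := by
    rw [← act_mul, ← act_mul, inv_mul_cancel_right]
  rw [e]
  exact invOn_sup hW (uk_inv hU hx k) _ (hx' k g hg) _ (mem_lk.1 hu).2

theorem lk_monoW (ρ : Act Q M) (x : Q) (U : AddSubgroup M) {W W' : AddSubgroup M} (h : W ≤ W')
    (k : ℕ) : Lk ρ x U W k ≤ Lk ρ x U W' k := fun _ hu =>
  mem_lk.2 ⟨hu.1, sup_le_sup_right h _ (mem_lk.1 hu).2⟩

theorem lk_mono {ρ : Act Q M} {x : Q} (U : AddSubgroup M) {W : AddSubgroup M}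
    (hW : ∀ m ∈ W, ρ x m ∈ W) : Monotone (Lk ρ x U W) :=
  monotone_nat_of_le_succ fun k u hu => by
    refine mem_lk.2 ⟨hu.1, ?_⟩
    obtain ⟨w, hw, v, hv, e⟩ := AddSubgroup.mem_sup.1 (mem_lk.1 hu).2
    rw [pow_succ', act_mul, ← e, map_add]
    exact AddSubgroup.mem_sup.2 ⟨_, hW w hw, _, uk_shift1 hv, rfl⟩

theorem inf_le {ρ : Act Q M} {x : Q} {U W W' : AddSubgroup M} (h : W ≤ W')
    (hL : ∀ k, Lk ρ x U W' k ≤ Lk ρ x U W k) :
    ∀ (k : ℕ) (m : M), m ∈ W' → m ∈ Uk ρ x U k → m ∈ W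
  | 0, m, _, hm => by rw [show m = 0 from hm]; exact zero_mem _
  | k + 1, m, hm', hm => by
    obtain ⟨v, hv, u, hu, e⟩ := mem_succ.1 hm
    have h1 : u ∈ Lk ρ x U W' k :=
      mem_lk.2 ⟨hu, AddSubgroup.mem_sup.2 ⟨m, hm', -v, neg_mem hv, by rw [← e]; abel⟩⟩
    obtain ⟨w, hw, v', hv', e'⟩ := AddSubgroup.mem_sup.1 (mem_lk.1 (hL k h1)).2
    have h2 : m - w = v + v' := by rw [← e, ← e']; abel
    have h3 : m - w ∈ W := inf_le h hL k _ (sub_mem hm' (h hw)) (h2 ▸ add_mem hv hv')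
    simpa using add_mem h3 hw

theorem span_reach {ρ : Act Q M} {N H : Subgroup Q} {x : Q}
    (hH : ∀ h ∈ H, ∃ j : ℤ, ∃ n ∈ N, h = x ^ j * n) (s : Set M) {m : M}
    (hm : m ∈ spanOn ρ H s) : ∃ a k : ℕ, ρ (x ^ a) m ∈ Uk ρ x (spanOn ρ N s) k := by
  induction hm using AddSubgroup.closure_induction with
  | mem y hy =>
    obtain ⟨g, hg, m, hm, rfl⟩ := hy
    obtain ⟨j, n, hn, rfl⟩ := hH g hg
    obtain ⟨b, hb⟩ : ∃ b : ℕ, (b : ℤ) = j.natAbs + j := ⟨(j.natAbs + j).toNat, by omega⟩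
    refine ⟨j.natAbs, b + 1, mem_succ.2 ⟨0, zero_mem _, ρ n m,
      invOn_spanOn ρ N s n hn m (subset_spanOn ρ N s hm), ?_⟩⟩
    rw [zero_add, ← act_mul, ← act_mul, ← mul_assoc, ← zpow_natCast, ← zpow_natCast, ← zpow_add, hb]
  | zero => exact ⟨0, 0, by rw [map_zero]; exact zero_mem _⟩
  | add y z _ _ hy hz =>
    obtain ⟨a, k, h1⟩ := hy
    obtain ⟨b, l, h2⟩ := hz
    refine ⟨a + b, (k + b) + (l + a), ?_⟩
    rw [map_add]
    refine add_mem (uk_mono ρ x _ (Nat.le_add_right _ _) ?_)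
      (uk_mono ρ x _ (Nat.le_add_left _ _) ?_)
    · rw [add_comm a b, pow_add, act_mul]; exact uk_shift h1 b
    · rw [pow_add, act_mul]; exact uk_shift h2 a
  | neg y _ hy =>
    obtain ⟨a, k, h1⟩ := hy
    exact ⟨a, k, by rw [map_neg]; exact neg_mem h1⟩

theorem base (s : Finset M) (W : ℕ → AddSubgroup M)
    (hW : ∀ i, W i ≤ AddSubgroup.closure (s : Set M)) (hm : Monotone W) :
    ∃ n, ∀ i, n ≤ i → W i = W n := by
  let V : ℕ →o Submodule ℤ M := ⟨fun i => AddSubgroup.toIntSubmodule (W i), fun i j h =>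
    AddSubgroup.toIntSubmodule.monotone (hm h)⟩
  have hN : IsNoetherian ℤ (Submodule.span ℤ (s : Set M)) :=
    isNoetherian_span_of_finite ℤ s.finite_toSet
  have hle : iSup V ≤ Submodule.span ℤ (s : Set M) := by
    refine iSup_le fun i m hmi => ?_
    have h1 : m ∈ AddSubgroup.closure (s : Set M) := hW i hmi
    exact (AddSubgroup.closure_le (Submodule.span ℤ (s : Set M)).toAddSubgroup).2
      Submodule.subset_span h1
  obtain ⟨n, hn⟩ := (isNoetherian_submodule.1 hN _ hle).stabilizes_of_iSup_eq V rfl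
  refine ⟨n, fun i hi => le_antisymm (fun m hmi => ?_) (hm hi)⟩
  have h1 : m ∈ iSup V := le_iSup V i hmi
  rw [hn] at h1
  exact h1

end Hallx

open Hallx in
theorem hall_st : HallSt.{u} := by
  intro Q M _ _ ρ H hH
  induction hH with
  | bot =>
    intro s W _ hle hm
    refine base s W (fun i => (hle i).trans (spanOn_le (fun g hg m h => ?_)
      AddSubgroup.subset_closure)) hm
    rw [show g = 1 from hg, act_one]; exact h
  | step N H x _ hNH hx hn hj ih =>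
    intro s W hinv hle hm
    have hU := invOn_spanOn ρ N (s : Set M)
    have c1 : ∀ k : ℕ, ∀ n ∈ N, (x ^ k)⁻¹ * n * x ^ k ∈ N := fun k n h => by
      simpa using hn (x ^ k)⁻¹ (inv_mem (pow_mem hx k)) n h
    have c2 : ∀ k : ℕ, ∀ n ∈ N, x ^ k * n * (x ^ k)⁻¹ ∈ N := fun k n h =>
      hn _ (pow_mem hx k) n h
    set U := spanOn ρ N (s : Set M) with hUdef
    have li : ∀ i k, InvOn ρ N (Lk ρ x U (W i) k) := fun i k =>
      lk_inv hU (fun g hg => hinv i g (hNH hg)) c1 c2 k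
    have lm : ∀ {i j k l : ℕ}, i ≤ j → k ≤ l → Lk ρ x U (W i) k ≤ Lk ρ x U (W j) l :=
      fun {i j k l} h1 h2 =>
        (lk_monoW ρ x U (hm h1) k).trans (lk_mono U (hinv j x hx) h2)
    obtain ⟨i0, h0⟩ := ih s (fun i => Lk ρ x U (W i) i) (fun i => li i i)
      (fun i => inf_le_left) (fun i j h => lm h h)
    have hrow : ∀ k, ∃ n, ∀ i, n ≤ i → Lk ρ x U (W i) k = Lk ρ x U (W n) k := fun k =>
      ih s (fun i => Lk ρ x U (W i) k) (fun i => li i k) (fun i => inf_le_left)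
        (fun i j h => lm h le_rfl)
    choose r hr using hrow
    refine ⟨i0 + (Finset.range i0).sup r, fun i hi => le_antisymm (fun m hmi => ?_) (hm hi)⟩
    set n := i0 + (Finset.range i0).sup r with hndef
    have hL : ∀ k, Lk ρ x U (W i) k ≤ Lk ρ x U (W n) k := fun k => by
      rcases lt_or_ge k i0 with hk | hk
      · have h1 : r k ≤ n :=
          (Finset.le_sup (f := r) (Finset.mem_range.2 hk)).trans (Nat.le_add_left _ _)
        rw [hr k i (h1.trans hi)]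
        exact lm h1 le_rfl
      · have h1 : Lk ρ x U (W (i + k)) (i + k) = Lk ρ x U (W i0) i0 :=
          h0 (i + k) (hk.trans (Nat.le_add_left _ _))
        refine (lm (Nat.le_add_right i k) (Nat.le_add_left k i)).trans ?_
        rw [h1]
        exact lm (Nat.le_add_right _ _) hk
    obtain ⟨a, k, h1⟩ := span_reach hj (s : Set M) (hle i hmi)
    have h2 := inf_le (hm hi) hL k _ (hinv i _ (pow_mem hx a) m hmi) h1
    have h3 := hinv n _ (inv_mem (pow_mem hx a)) _ h2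
    rwa [act_inv_act] at h3

end Pool.Agent.Cdim
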