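import Pool.Agent.Lib.MP_721660_al.CD.St

/-! An abelian kernel as a module for the quotient. -/

namespace Pool.Agent.Cdim

universe u

namespace Modelx

variable {G Q : Type u} [Group G] [Group Q]

/-- The kernel, written additively. -/
def K (f : G →* Q) (_h : ∀ a ∈ f.ker, ∀ b ∈ f.ker, Commute a b) : Type u := Additive f.ker

variable (f : G →* Q) (h : ∀ a ∈ f.ker, ∀ b ∈ f.ker, Commute a b)

instance : AddCommGroup (K f h) :=
  { (inferInstance : AddGroup (Additive f.ker)) with
    add_comm := fun a b => Subtype.ext
      (h _ (Additive.toMul (α := f.ker) a).2 _ (Additive.toMul (α := f.ker) b).2).eq }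

/-- The underlying group element. -/
def val (m : K f h) : G := (Additive.toMul (α := f.ker) m : f.ker)

theorem val_mem (m : K f h) : val f h m ∈ f.ker := (Additive.toMul (α := f.ker) m).2

theorem val_inj {m m' : K f h} (e : val f h m = val f h m') : m = m' := Subtype.ext e

theorem val_add (m m' : K f h) : val f h (m + m') = val f h m * val f h m' := rfl

theorem val_zero : val f h 0 = 1 := rfl

/-- An element of the kernel as an element of `K`. -/
def mk (a : G) (ha : a ∈ f.ker) : K f h := Additive.ofMul (α := f.ker) ⟨a, ha⟩

theorem val_mk (a : G) (ha : a ∈ f.ker) : val f h (mk f h a ha) = a := rfl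

/-- Conjugation. -/
def cj (g : G) : AddMonoid.End (K f h) :=
  (AddMonoidHom.mk' (fun m => mk f h (g * val f h m * g⁻¹)
      (f.normal_ker.conj_mem _ (val_mem f h m) g))
    (fun a b => val_inj f h (by
      change g * (val f h a * val f h b) * g⁻¹ = g * val f h a * g⁻¹ * (g * val f h b * g⁻¹)
      group)) :
      K f h →+ K f h)

theorem val_cj (g : G) (m : K f h) : val f h (cj f h g m) = g * val f h m * g⁻¹ := rfl

theorem cj_congr {g g' : G} (e : f g = f g') (m : K f h) : cj f h g m = cj f h g' m := by
  apply val_inj f h
  rw [val_cj, val_cj]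
  have h1 : g'⁻¹ * g ∈ f.ker := by rw [MonoidHom.mem_ker, map_mul, map_inv, e, inv_mul_cancel]
  have h2 := (h _ h1 _ (val_mem f h m)).eq
  calc g * val f h m * g⁻¹ = g' * (g'⁻¹ * g * val f h m) * g⁻¹ := by group
    _ = g' * (val f h m * (g'⁻¹ * g)) * g⁻¹ := by rw [h2]
    _ = g' * val f h m * g'⁻¹ := by group

end Modelx

open Modelx in
theorem model_st : ModelSt.{u} := by
  intro G Q _ _ f hf h
  have hs : ∀ q, f (Function.surjInv hf q) = q := Function.surjInv_eq hf
  let ρ : Act Q (K f h) :=
    { toFun := fun q => cj f h (Function.surjInv hf q)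
      map_one' := by
        refine AddMonoidHom.ext fun m => ?_
        refine (cj_congr f h (g' := 1) (by rw [hs, map_one]) m).trans (val_inj f h ?_)
        rw [val_cj, one_mul, inv_one, mul_one]; rfl
      map_mul' := fun q q' => by
        refine AddMonoidHom.ext fun m => ?_
        refine (cj_congr f h (g' := Function.surjInv hf q * Function.surjInv hf q')
          (by rw [map_mul, hs, hs, hs]) m).trans (val_inj f h ?_)
        change _ = val f h (cj f h (Function.surjInv hf q) (cj f h (Function.surjInv hf q') m))
        rw [val_cj, val_cj, val_cj]; group }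
  let ι : Multiplicative (K f h) →* G :=
    MonoidHom.mk' (fun m => val f h (Multiplicative.toAdd m)) (fun a b => rfl)
  refine ⟨K f h, inferInstance, ρ, ι, fun a b e => val_inj f h e, ?_, fun g m => ?_⟩
  · ext a
    constructor
    · rintro ⟨m, rfl⟩
      exact val_mem f h _
    · intro ha
      exact ⟨Multiplicative.ofAdd (mk f h a ha), rfl⟩
  · change val f h (cj f h (Function.surjInv hf (f g)) m) = g * val f h m * g⁻¹
    rw [cj_congr f h (g' := g) (hs _) m, val_cj]

end Pool.Agent.Cdim
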