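import Pool.Agent.Lib.MP_721660_al.CD.St

namespace Pool.Agent.Cdim

universe u

namespace PErx

theorem tors_bound (M : Type u) [AddCommGroup M] (h : AddGroup.FG M) :
    ∃ t : ℕ, 0 < t ∧ ∀ (m : M) (n : ℕ), 0 < n → n • m = 0 → t • m = 0 := by
  have : Module.Finite ℤ M := Module.Finite.iff_addGroup_fg.2 h
  have : Finite (Submodule.torsion ℤ M) :=
    Module.finite_of_fg_torsion _ Submodule.torsion_isTorsion
  refine ⟨Nat.card (Submodule.torsion ℤ M), Nat.card_pos, fun m n hn hm => ?_⟩
  have h1 : m ∈ Submodule.torsion ℤ M :=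
    ⟨⟨(n : ℤ), mem_nonZeroDivisors_of_ne_zero (by exact_mod_cast hn.ne')⟩, by
      change (n : ℤ) • m = 0
      rw [natCast_zsmul, hm]⟩
  have h2 : Nat.card (Submodule.torsion ℤ M) • (⟨m, h1⟩ : Submodule.torsion ℤ M) = 0 :=
    card_nsmul_eq_zero'
  exact congrArg Subtype.val h2

theorem step (hM : ModelSt.{u}) (hF : FgSt.{u}) (hA : AffSt.{u}) (G Q : Type u) [Group G]
    [Group Q] (f : G →* Q) (hf : Function.Surjective f)
    (hc : ∀ a ∈ f.ker, ∀ b ∈ f.ker, Commute a b) (hk : f.ker.FG) (hQ : GEr Q) : GEr G := by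
  obtain ⟨M, _, ρ, ι, hi, hr, hconj⟩ := hM G Q f hf hc
  have hfg : AddGroup.FG M := by
    rw [AddGroup.fg_iff_mul_fg]
    have : Group.FG ι.range := (Group.fg_iff_subgroup_fg _).2 (hr ▸ hk)
    exact Group.fg_of_surjective (f := (MonoidHom.ofInjective hi).symm.toMonoidHom)
      (MonoidHom.ofInjective hi).symm.surjective
  obtain ⟨e, he, hE⟩ := hF Q M ρ hfg
  obtain ⟨t, ht, hT⟩ := tors_bound M hfg
  have key : ∀ (g : G) (m : M), ρ (f g) m = m ↔ Commute (ι (Multiplicative.ofAdd m)) g := by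
    intro g m
    constructor
    · intro h
      have h1 := hconj g m
      rw [h] at h1
      exact eq_mul_inv_iff_mul_eq.1 h1
    · intro h
      have h1 := hconj g m
      rw [← h.eq, mul_inv_cancel_right] at h1
      exact Multiplicative.ofAdd.injective (hi h1)
  refine hA G Q f hc ⟨e, he, fun y a ha n hn h => ?_⟩ ⟨t, ht, fun a ha n hn h => ?_⟩ hQ
  · rw [← hr] at ha
    obtain ⟨m, rfl⟩ := ha
    have h1 := (key (y ^ n) m.toAdd).2 h
    rw [map_pow] at h1
    have h2 := hE (f y) m.toAdd n hn h1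
    rw [← map_pow] at h2
    exact (key (y ^ e) m.toAdd).1 h2
  · rw [← hr] at ha
    obtain ⟨m, rfl⟩ := ha
    have h1 : m ^ n = 1 := hi (by rw [map_pow, h, map_one])
    have h2 : t • m.toAdd = 0 := hT m.toAdd n hn (congrArg Multiplicative.toAdd h1)
    have h3 : m ^ t = 1 := congrArg Multiplicative.ofAdd h2
    rw [← map_pow, h3, map_one]

end PErx

theorem per_st (hM : ModelSt.{u}) (hF : FgSt.{u}) (hA : AffSt.{u}) (hP : PMaxSt.{u}) :
    PErSt.{u} := by
  have main : ∀ (n : ℕ) (Q : Type u) [Group Q], derivedSeries Q n = ⊥ → GMax Q → GEr Q := by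
    intro n
    induction n with
    | zero =>
      intro Q _ h _
      refine ⟨1, one_pos, fun x y _ _ _ => ?_⟩
      have hx : x ∈ derivedSeries Q 0 := Subgroup.mem_top x
      rw [h, Subgroup.mem_bot] at hx
      rw [hx]; exact Commute.one_left _
    | succ n ih =>
      intro Q _ h hQ
      have hs := QuotientGroup.mk'_surjective (derivedSeries Q n)
      refine PErx.step hM hF hA Q _ (QuotientGroup.mk' (derivedSeries Q n)) hs ?_ (hQ _)
        (ih _ ?_ (hP.2.2 _ _ _ hs hQ))
      · rw [QuotientGroup.ker_mk']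
        intro a ha b hb
        have h1 := Subgroup.commutator_mem_commutator ha hb
        rw [← derivedSeries_succ, h, Subgroup.mem_bot] at h1
        exact commutatorElement_eq_one_iff_commute.1 h1
      · rw [← map_derivedSeries_eq hs, Subgroup.map_eq_bot_iff, QuotientGroup.ker_mk']
  intro Q _ hs hQ
  obtain ⟨n, hn⟩ := hs.solvable
  exact main n Q hn hQ

end Pool.Agent.Cdim
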