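import Pool.Agent.Lib.MP_721660_al.CD.St

/-! Cyclic series and the maximal condition. -/

namespace Pool.Agent.Cdim

universe u

namespace Polyx

variable {Q : Type u} [Group Q]

/-- pairs `(j, h)` with `h` in `x ^ j N` -/
def R (N : Subgroup Q) (x : Q) (hx : ∀ j : ℤ, ∀ n ∈ N, x ^ j * n * (x ^ j)⁻¹ ∈ N) :
    Subgroup (Multiplicative ℤ × Q) where
  carrier := {z | (x ^ z.1.toAdd)⁻¹ * z.2 ∈ N}
  one_mem' := by simp
  mul_mem' := by
    rintro ⟨i, a⟩ ⟨j, b⟩ ha hb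
    have := N.mul_mem (hx (-j.toAdd) _ ha) hb
    simp only [Set.mem_ofPred_eq, Prod.fst_mul, Prod.snd_mul, toAdd_mul] at this ⊢
    convert this using 1
    group
  inv_mem' := by
    rintro ⟨i, a⟩ ha
    have := hx i.toAdd _ (N.inv_mem ha)
    simp only [Set.mem_ofPred_eq, Prod.fst_inv, Prod.snd_inv, toAdd_inv] at this ⊢
    convert this using 1
    group

theorem mem_R {N : Subgroup Q} {x : Q} {hx : ∀ j : ℤ, ∀ n ∈ N, x ^ j * n * (x ^ j)⁻¹ ∈ N}
    {z : Multiplicative ℤ × Q} : z ∈ R N x hx ↔ (x ^ z.1.toAdd)⁻¹ * z.2 ∈ N := Iff.rfl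

theorem add_gen (N H : Subgroup Q) (hN : Poly N) (hle : N ≤ H)
    (hc : ∀ a ∈ H, ∀ b ∈ H, a * b * a⁻¹ * b⁻¹ ∈ N) (s : Finset Q) (hs : (s : Set Q) ⊆ H) :
    ∃ K : Subgroup Q, Poly K ∧ N ≤ K ∧ K ≤ H ∧ (s : Set Q) ⊆ K := by
  classical
  induction s using Finset.induction_on with
  | empty => exact ⟨N, hN, le_rfl, hle, by simp⟩
  | insert x s _ ih =>
    rw [Finset.coe_insert, Set.insert_subset_iff] at hs
    obtain ⟨K, hK, h1, h2, h3⟩ := ih hs.2
    have nm : ∀ h ∈ H, ∀ n ∈ K, h * n * h⁻¹ ∈ K := fun h hh n hn => by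
      have := K.mul_mem (h1 (hc h hh n (h2 hn))) hn
      rwa [inv_mul_cancel_right] at this
    have hx : ∀ j : ℤ, ∀ n ∈ K, x ^ j * n * (x ^ j)⁻¹ ∈ K := fun j => nm _ (H.zpow_mem hs.1 j)
    let T : Subgroup Q := (R K x hx).map (MonoidHom.snd _ _)
    have mT : ∀ h, h ∈ T ↔ ∃ j : ℤ, ∃ n ∈ K, h = x ^ j * n := by
      intro h
      constructor
      · rintro ⟨⟨j, a⟩, ha, rfl⟩
        exact ⟨j.toAdd, _, mem_R.1 ha, by simp⟩
      · rintro ⟨j, n, hn, rfl⟩
        exact ⟨(Multiplicative.ofAdd j, x ^ j * n), mem_R.2 (by simpa using hn), rfl⟩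
    have kT : K ≤ T := fun n hn => (mT n).2 ⟨0, n, hn, by simp⟩
    have xT : x ∈ T := (mT x).2 ⟨1, 1, K.one_mem, by simp⟩
    have tH : T ≤ H := fun h hh => by
      obtain ⟨j, n, hn, rfl⟩ := (mT h).1 hh
      exact H.mul_mem (H.zpow_mem hs.1 j) (h2 hn)
    refine ⟨T, Poly.step K T x hK kT xT (fun h hh => nm h (tH hh)) (fun h hh => (mT h).1 hh),
      h1.trans kT, tH, ?_⟩
    rw [Finset.coe_insert, Set.insert_subset_iff]
    exact ⟨xT, h3.trans kT⟩

theorem up (N H : Subgroup Q) (hN : Poly N) (hle : N ≤ H)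
    (hc : ∀ a ∈ H, ∀ b ∈ H, a * b * a⁻¹ * b⁻¹ ∈ N) (hH : H.FG) : Poly H := by
  obtain ⟨s, hs⟩ := hH
  obtain ⟨K, hK, -, h2, h3⟩ := add_gen N H hN hle hc s (hs ▸ Subgroup.subset_closure)
  have : K = H := le_antisymm h2 (hs ▸ (Subgroup.closure_le K).2 h3)
  exact this ▸ hK

theorem fg_map {Q' : Type u} [Group Q'] (f : Q →* Q') {K : Subgroup Q} (h : K.FG) :
    (K.map f).FG := by
  obtain ⟨S, rfl, hS⟩ := (Subgroup.fg_iff K).1 h
  exact (Subgroup.fg_iff _).2 ⟨f '' S, (MonoidHom.map_closure f S).symm, hS.image f⟩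

theorem max1 (H : Subgroup Q) (hH : Poly H) : ∀ K : Subgroup Q, K ≤ H → K.FG := by
  induction hH with
  | bot => intro K hK; rw [le_bot_iff.1 hK]; exact Subgroup.FG.bot
  | step N H x _ _ hx hn hd ih =>
    intro K hK
    have hx' : ∀ j : ℤ, ∀ n ∈ N, x ^ j * n * (x ^ j)⁻¹ ∈ N := fun j => hn _ (H.zpow_mem hx j)
    let S : Subgroup (Multiplicative ℤ × Q) := R N x hx' ⊓ K.comap (MonoidHom.snd _ _)
    obtain ⟨g, hg⟩ := IsCyclic.exists_generator (α := S.map (MonoidHom.fst _ _))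
    obtain ⟨g, ⟨a, y⟩, hy, rfl⟩ := g
    have e : K = (K ⊓ N) ⊔ Subgroup.closure ({y} : Set Q) := by
      refine le_antisymm (fun k hk => ?_) (sup_le inf_le_left ((Subgroup.closure_le K).2 ?_))
      · obtain ⟨j, n, hn', e⟩ := hd k (hK hk)
        have m1 : (Multiplicative.ofAdd j, k) ∈ S := ⟨mem_R.2 (by simpa [e] using hn'), hk⟩
        obtain ⟨t, ht⟩ := hg ⟨_, _, m1, rfl⟩
        have ht' : a ^ t = Multiplicative.ofAdd j := congrArg Subtype.val ht
        have m2 := S.mul_mem (S.inv_mem (S.zpow_mem hy t)) m1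
        have m3 : (y ^ t)⁻¹ * k ∈ N := by simpa [ht'] using mem_R.1 m2.1
        have m4 : (y ^ t)⁻¹ * k ∈ K := m2.2
        have m5 : y ^ t ∈ Subgroup.closure ({y} : Set Q) :=
          Subgroup.zpow_mem _ (Subgroup.subset_closure (Set.mem_singleton y)) t
        have m6 : (y ^ t)⁻¹ * k ∈ K ⊓ N := Subgroup.mem_inf.2 ⟨m4, m3⟩
        have m7 : y ^ t * ((y ^ t)⁻¹ * k) ∈ (K ⊓ N) ⊔ Subgroup.closure ({y} : Set Q) :=
          Subgroup.mul_mem _ (Subgroup.mem_sup_right m5) (Subgroup.mem_sup_left m6)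
        rwa [mul_inv_cancel_left] at m7
      · rintro _ rfl
        exact hy.2
    rw [e]
    exact (ih _ inf_le_right).sup ((Subgroup.fg_iff _).2 ⟨{y}, rfl, Set.finite_singleton y⟩)

end Polyx

theorem poly_st : PolySt.{u} := by
  intro Q _ hs hm
  obtain ⟨n, hn⟩ := hs.solvable
  have key : ∀ n, Poly (derivedSeries Q n) → Poly (⊤ : Subgroup Q) := by
    intro n
    induction n with
    | zero => exact fun h => h
    | succ n ih =>
      intro h
      refine ih (Polyx.up _ _ h ?_ (fun a ha b hb => ?_) (hm _))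
      · rw [derivedSeries_succ]
        have := derivedSeries_normal Q n
        exact Subgroup.commutator_le_left _ _
      · rw [derivedSeries_succ]
        exact Subgroup.commutator_mem_commutator ha hb
  exact key n (hn ▸ Poly.bot)

theorem pmax_st : PMaxSt.{u} := by
  refine ⟨fun Q _ H hH => Polyx.max1 H hH, fun Q _ H hm K => ?_, fun Q Q' _ _ f hf hm K => ?_⟩
  · have h1 : Group.FG (K.map H.subtype) := (Group.fg_iff_subgroup_fg _).2 (hm _)
    exact (Group.fg_iff_subgroup_fg _).1 (Group.fg_of_surjective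
      (f := (K.equivMapOfInjective H.subtype H.subtype_injective).symm.toMonoidHom)
      (MulEquiv.surjective _))
  · rw [← Subgroup.map_comap_eq_self_of_surjective hf K]
    exact Polyx.fg_map f (hm _)

end Pool.Agent.Cdim
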