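import Pool.Agent.Lib.MP_721660_al.CD.St

/-! The separation lemma of P. Hall for modules over polycyclic groups. -/

namespace Pool.Agent.Cdim

universe u

namespace Sepx

variable {Q M : Type u} [Group Q] [AddCommGroup M]

/-- One layer. -/
theorem layer (φ : M →+ M) (p : ℕ) (F U : AddSubgroup M)
    (h : Good p (U ⊓ F.comap φ) U) : Good p F (F ⊔ U.map φ) := by
  constructor
  · intro z hz hp
    obtain ⟨f, hf, _, ⟨u, hu, rfl⟩, rfl⟩ := AddSubgroup.mem_sup.1 hz
    have hu : u ∈ U := hu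
    have h1 : φ (p • u) ∈ F := by
      have := sub_mem hp (nsmul_mem hf p)
      rwa [smul_add, add_sub_cancel_left, ← map_nsmul] at this
    exact add_mem hf (h.1 u hu ⟨nsmul_mem hu p, h1⟩).2
  · intro z hz hd
    obtain ⟨f, hf, _, ⟨u, hu, rfl⟩, rfl⟩ := AddSubgroup.mem_sup.1 hz
    have hu : u ∈ U := hu
    obtain ⟨n, hn, hnu⟩ := h.2 u hu fun j => by
      obtain ⟨y, hy, hj⟩ := hd j
      obtain ⟨f', hf', _, ⟨u', hu', rfl⟩, rfl⟩ := AddSubgroup.mem_sup.1 hy
      have hu' : u' ∈ U := hu'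
      have h2 := add_mem (sub_mem hj hf) (nsmul_mem hf' (p ^ j))
      have e : f + φ u - p ^ j • (f' + φ u') - f + p ^ j • f' = φ (u - p ^ j • u') := by
        rw [map_sub, map_nsmul, smul_add]
        abel
      rw [e] at h2
      exact ⟨u', hu', AddSubgroup.mem_inf.2 ⟨sub_mem hu (nsmul_mem hu' _), h2⟩⟩
    refine ⟨n, hn, ?_⟩
    rw [smul_add, ← map_nsmul]
    exact add_mem (nsmul_mem hf n) hnu.2

/-- The filtration. -/
def filt (ρ : Act Q M) (W U : AddSubgroup M) (y c : Q) : ℕ → AddSubgroup M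
  | 0 => W
  | k + 1 => filt ρ W U y c k ⊔ U.map (ρ (y ^ k * c) : M →+ M)

theorem filt_mono (ρ : Act Q M) (W U : AddSubgroup M) (y c : Q) : Monotone (filt ρ W U y c) :=
  monotone_nat_of_le_succ fun _ => le_sup_left

theorem filt_shift (ρ : Act Q M) (W U : AddSubgroup M) (y c : Q)
    (h : ∀ w ∈ W, ρ y w ∈ W ⊔ U.map (ρ c : M →+ M)) :
    ∀ k, ∀ m ∈ filt ρ W U y c k, ρ y m ∈ filt ρ W U y c (k + 1) := by
  intro k
  induction k with
  | zero =>
    intro m hm
    have := h m hm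
    simpa [filt] using this
  | succ k ih =>
    intro m hm
    obtain ⟨f, hf, _, ⟨u, hu, rfl⟩, rfl⟩ := AddSubgroup.mem_sup.1 hm
    rw [map_add]
    refine add_mem (AddSubgroup.mem_sup_left (ih f hf)) (AddSubgroup.mem_sup_right ⟨u, hu, ?_⟩)
    show ρ (y ^ (k + 1) * c) u = ρ y (ρ (y ^ k * c) u)
    rw [← act_mul, pow_succ', mul_assoc]

theorem filt_inv (ρ : Act Q M) (N H : Subgroup Q) (W U : AddSubgroup M) (y c : Q)
    (hn : ∀ h ∈ H, ∀ n ∈ N, h * n * h⁻¹ ∈ N) (hy : y ∈ H) (hc : c ∈ H)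
    (hW : InvOn ρ N W) (hU : InvOn ρ N U) : ∀ k, InvOn ρ N (filt ρ W U y c k) := by
  intro k
  induction k with
  | zero => exact hW
  | succ k ih =>
    intro g hg m hm
    obtain ⟨f, hf, _, ⟨u, hu, rfl⟩, rfl⟩ := AddSubgroup.mem_sup.1 hm
    rw [map_add]
    have hh : y ^ k * c ∈ H := H.mul_mem (H.pow_mem hy k) hc
    refine add_mem (AddSubgroup.mem_sup_left (ih g hg f hf)) (AddSubgroup.mem_sup_right
      ⟨ρ ((y ^ k * c)⁻¹ * g * (y ^ k * c)⁻¹⁻¹) u, hU _ (hn _ (H.inv_mem hh) g hg) u hu, ?_⟩)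
    show ρ (y ^ k * c) (ρ ((y ^ k * c)⁻¹ * g * (y ^ k * c)⁻¹⁻¹) u) = ρ g (ρ (y ^ k * c) u)
    rw [← act_mul, ← act_mul]
    congr 2
    group

/-- Climbing one side of the filtration. -/
theorem climb (hG : GoodSt.{u}) (ρ : Act Q M) (N H : Subgroup Q) (W U : AddSubgroup M) (y c : Q)
    (hn : ∀ h ∈ H, ∀ n ∈ N, h * n * h⁻¹ ∈ N) (hy : y ∈ H) (hc : c ∈ H)
    (hW : InvOn ρ N W) (hU : InvOn ρ N U) (hNo : NoethOn ρ N U)
    (ih : ∀ L : AddSubgroup M, InvOn ρ N L → L ≤ U →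
      ∃ b : ℕ, ∀ p : ℕ, p.Prime → b < p → Good p L U)
    (h : ∀ w ∈ W, ρ y w ∈ W ⊔ U.map (ρ c : M →+ M)) :
    ∃ V : AddSubgroup M, InvOn ρ N V ∧ W ≤ V ∧ (∀ k : ℕ, ∀ u ∈ U, ρ (y ^ k * c) u ∈ V) ∧
      (∀ T : AddSubgroup M, W ≤ T → (∀ k : ℕ, ∀ u ∈ U, ρ (y ^ k * c) u ∈ T) → V ≤ T) ∧
      ∃ b : ℕ, ∀ p : ℕ, p.Prime → b < p → Good p W V := by
  have hFi := filt_inv ρ N H W U y c hn hy hc hW hU
  have hFm := filt_mono ρ W U y c
  refine ⟨⨆ k, filt ρ W U y c k, ?_, le_iSup (filt ρ W U y c) 0, ?_, ?_, ?_⟩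
  · intro g hg m hm
    obtain ⟨k, hk⟩ := (AddSubgroup.mem_iSup_of_directed hFm.directed_le).1 hm
    exact le_iSup (filt ρ W U y c) k (hFi k g hg m hk)
  · intro k u hu
    exact le_iSup (filt ρ W U y c) (k + 1) (AddSubgroup.mem_sup_right ⟨u, hu, rfl⟩)
  · intro T hT hT'
    refine iSup_le fun k => ?_
    induction k with
    | zero => exact hT
    | succ k ihk =>
      refine sup_le ihk ?_
      rintro _ ⟨u, hu, rfl⟩
      exact hT' k u hu
  · let L : ℕ → AddSubgroup M := fun k =>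
      U ⊓ (filt ρ W U y c k).comap (ρ (y ^ k * c) : M →+ M)
    have hLi : ∀ k, InvOn ρ N (L k) := by
      intro k g hg m hm
      refine ⟨hU g hg m hm.1, ?_⟩
      have hh : y ^ k * c ∈ H := H.mul_mem (H.pow_mem hy k) hc
      have h1 := hFi k _ (hn _ hh g hg) _ hm.2
      show ρ (y ^ k * c) (ρ g m) ∈ filt ρ W U y c k
      have e : ρ (y ^ k * c) (ρ g m) =
          ρ (y ^ k * c * g * (y ^ k * c)⁻¹) (ρ (y ^ k * c) m) := by
        rw [← act_mul, ← act_mul]
        congr 2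
        group
      rw [e]
      exact h1
    have hLm : Monotone L := by
      refine monotone_nat_of_le_succ fun k m hm => ⟨hm.1, ?_⟩
      have h1 := filt_shift ρ W U y c h k _ hm.2
      show ρ (y ^ (k + 1) * c) m ∈ filt ρ W U y c (k + 1)
      rw [pow_succ', mul_assoc, act_mul]
      exact h1
    obtain ⟨n0, hn0⟩ := hNo L hLi (fun _ => inf_le_left) hLm
    choose b hb using fun k => ih (L k) (hLi k) inf_le_left
    refine ⟨(Finset.range (n0 + 1)).sup b, fun p hp hbp => ?_⟩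
    have hL : ∀ k, Good p (L k) U := by
      intro k
      rcases le_total k n0 with hk | hk
      · exact hb k p hp (lt_of_le_of_lt
          (Finset.le_sup (f := b) (Finset.mem_range.2 (Nat.lt_succ_of_le hk))) hbp)
      · rw [hn0 k hk]
        exact hb n0 p hp (lt_of_le_of_lt
          (Finset.le_sup (f := b) (Finset.mem_range.2 (Nat.lt_succ_self n0))) hbp)
    exact (hG M p).2 (filt ρ W U y c) hFm fun k => layer _ p _ U (hL k)

end Sepx

open Sepx in
theorem sep_st (hH : HallSt.{u}) (hG : GoodSt.{u}) (h0 : Sep0St.{u}) : SepSt.{u} := by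
  intro Q M _ _ ρ H hP
  induction hP with
  | bot =>
    intro s W _ hW
    have e : spanOn ρ ⊥ (s : Set M) = AddSubgroup.closure (s : Set M) := by
      unfold spanOn
      congr 1
      ext m
      constructor
      · rintro ⟨g, hg, m', hm', rfl⟩
        rw [Subgroup.mem_bot.1 hg, act_one]
        exact hm'
      · exact fun hm => ⟨1, Subgroup.one_mem _, m, hm, (act_one ρ m).symm⟩
    rw [e] at hW ⊢
    exact h0 M s W hW
  | step N H x hN hNH hx hn hgen ih =>
    intro s W hWi hW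
    have hU := invOn_spanOn ρ N (s : Set M)
    have hT := invOn_spanOn ρ H (s : Set M)
    have hNo := hH Q M ρ N hN s
    have hUT : spanOn ρ N (s : Set M) ≤ spanOn ρ H (s : Set M) :=
      spanOn_le (fun g hg => hT g (hNH hg)) (subset_spanOn ρ H _)
    obtain ⟨V, hVi, hWV, hVu, hVm, b, hb⟩ := climb hG ρ N H W _ x 1 hn hx H.one_mem
      (fun g hg => hWi g (hNH hg)) hU hNo (ih s)
      (fun w hw => AddSubgroup.mem_sup_left (hWi x hx w hw))
    obtain ⟨V', -, hVV, hVu', hVm', b', hb'⟩ := climb hG ρ N H V _ x⁻¹ x⁻¹ hn (H.inv_mem hx)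
      (H.inv_mem hx) hVi hU hNo (ih s) (by
        refine hVm ((V ⊔ (spanOn ρ N (s : Set M)).map (ρ x⁻¹ : M →+ M)).comap
          (ρ x⁻¹ : M →+ M)) ?_ ?_
        · exact fun w hw => AddSubgroup.mem_sup_left (hWV (hWi _ (H.inv_mem hx) w hw))
        · intro k u hu
          show ρ x⁻¹ (ρ (x ^ k * 1) u) ∈ V ⊔ (spanOn ρ N (s : Set M)).map (ρ x⁻¹ : M →+ M)
          cases k with
          | zero =>
            rw [pow_zero, mul_one, act_one]
            exact AddSubgroup.mem_sup_right ⟨u, hu, rfl⟩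
          | succ k =>
            rw [pow_succ', mul_assoc, act_mul, act_inv_act]
            exact AddSubgroup.mem_sup_left (hVu k u hu))
    have hVT : V ≤ spanOn ρ H (s : Set M) := hVm _ hW fun k u hu =>
      hT _ (H.mul_mem (H.pow_mem hx k) H.one_mem) u (hUT hu)
    have e : V' = spanOn ρ H (s : Set M) := by
      refine le_antisymm (hVm' _ hVT fun k u hu =>
        hT _ (H.mul_mem (H.pow_mem (H.inv_mem hx) k) (H.inv_mem hx)) u (hUT hu)) ?_
      refine (AddSubgroup.closure_le _).2 ?_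
      rintro _ ⟨g, hg, m, hm, rfl⟩
      obtain ⟨j, n, hnN, rfl⟩ := hgen g hg
      have hu : ρ n m ∈ spanOn ρ N (s : Set M) := hU n hnN m (subset_spanOn ρ N _ hm)
      rw [act_mul]
      cases j with
      | ofNat k =>
        have := hVV (hVu k _ hu)
        rw [mul_one] at this
        simpa using this
      | negSucc k =>
        have := hVu' k _ hu
        rw [← pow_succ, inv_pow] at this
        simpa [zpow_negSucc] using this
    refine ⟨max b b', fun p hp hbp => ?_⟩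
    rw [← e]
    exact (hG M p).1 W V V' hWV hVV (hb p hp (lt_of_le_of_lt (le_max_left _ _) hbp))
      (hb' p hp (lt_of_le_of_lt (le_max_right _ _) hbp))

end Pool.Agent.Cdim
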