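import Mathlib

/-! Induction over polycyclic groups; an eremitic abelian-by-polycyclic group has bounded chains
of centralizers. -/

set_option autoImplicit false

namespace Pool.Agent.Lib.MP_721660_al

open Subgroup

universe u

theorem fg_quot {G Q : Type u} [Group G] [Group Q] (f : G →* Q) (hf : Function.Surjective f)
    (hfg : ∀ H : Subgroup G, H.FG) (H : Subgroup Q) : H.FG := by
  obtain ⟨S, hS, hfin⟩ := (fg_iff _).1 (hfg (H.comap f))
  refine (fg_iff _).2 ⟨f '' S, ?_, hfin.image _⟩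
  rw [← MonoidHom.map_closure, hS, map_comap_eq_self_of_surjective hf]

theorem comm_ind (P : ∀ (G : Type u) [Group G], Prop)
    (hc : ∀ (G : Type u) [Group G], IsCyclic G → P G)
    (he : ∀ (G Q : Type u) [Group G] [Group Q] (f : G →* Q), Function.Surjective f →
      P f.ker → P Q → P G) (n : ℕ) :
    ∀ (G : Type u) [Group G], (∀ a b : G, a * b = b * a) → ∀ S : Finset G, S.card ≤ n →
      closure (S : Set G) = ⊤ → P G := by
  classical
  induction n with
  | zero =>
    intro G _ _ S hS ht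
    rw [Nat.le_zero, Finset.card_eq_zero] at hS
    rw [hS, Finset.coe_empty, Subgroup.closure_empty] at ht
    have : Subsingleton G := ⟨fun a b => by
      have ha : a ∈ (⊥ : Subgroup G) := ht ▸ mem_top a
      have hb : b ∈ (⊥ : Subgroup G) := ht ▸ mem_top b
      rw [mem_bot.1 ha, mem_bot.1 hb]⟩
    exact hc G inferInstance
  | succ n ih =>
    intro G _ hcm S hS ht
    rcases S.eq_empty_or_nonempty with h0 | ⟨x, hx⟩
    · exact ih G hcm S (by simp [h0]) ht
    have : (zpowers x).Normal := ⟨fun a ha g => by rwa [hcm g a, mul_inv_cancel_right]⟩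
    have hsur := QuotientGroup.mk'_surjective (zpowers x)
    refine he G (G ⧸ zpowers x) (QuotientGroup.mk' _) hsur (hc _ ?_) ?_
    · rw [QuotientGroup.ker_mk']; infer_instance
    · refine ih _ (fun a b => ?_) ((S.erase x).image (QuotientGroup.mk' (zpowers x))) ?_ ?_
      · obtain ⟨a, rfl⟩ := hsur a
        obtain ⟨b, rfl⟩ := hsur b
        rw [← map_mul, hcm, map_mul]
      · refine Finset.card_image_le.trans ?_
        rw [Finset.card_erase_of_mem hx]; omega
      · rw [eq_top_iff, ← map_top_of_surjective _ hsur, ← ht, MonoidHom.map_closure, closure_le]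
        rintro _ ⟨s, hs, rfl⟩
        by_cases e : s = x
        · have : QuotientGroup.mk' (zpowers x) s = 1 := by
            rw [← MonoidHom.mem_ker, QuotientGroup.ker_mk', e]; exact mem_zpowers x
          rw [this]; exact one_mem _
        · exact subset_closure (Finset.mem_coe.2 (Finset.mem_image_of_mem _
            (Finset.mem_erase.2 ⟨e, hs⟩)))

/-- induction principle for polycyclic groups -/
theorem poly_ind (P : ∀ (G : Type u) [Group G], Prop)
    (hc : ∀ (G : Type u) [Group G], IsCyclic G → P G)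
    (he : ∀ (G Q : Type u) [Group G] [Group Q] (f : G →* Q), Function.Surjective f →
      P f.ker → P Q → P G)
    (G : Type u) [Group G] (hs : Group.IsSolvable G) (hfg : ∀ H : Subgroup G, H.FG) : P G := by
  obtain ⟨n, hn⟩ := hs.solvable
  induction n generalizing G with
  | zero =>
    have : Subsingleton G := ⟨fun a b => by
      have ha : a ∈ (⊥ : Subgroup G) := hn ▸ mem_top a
      have hb : b ∈ (⊥ : Subgroup G) := hn ▸ mem_top b
      rw [mem_bot.1 ha, mem_bot.1 hb]⟩
    exact hc G inferInstance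
  | succ n ih =>
    have hsur := QuotientGroup.mk'_surjective (derivedSeries G n)
    refine he G (G ⧸ derivedSeries G n) (QuotientGroup.mk' _) hsur ?_ ?_
    · obtain ⟨S, hS⟩ := ((Group.fg_iff_subgroup_fg _).2
        (hfg (QuotientGroup.mk' (derivedSeries G n)).ker)).out
      refine comm_ind P hc he S.card _ (fun a b => Subtype.ext ?_) S le_rfl hS
      have ha : (a : G) ∈ derivedSeries G n := by simpa using a.2
      have hb : (b : G) ∈ derivedSeries G n := by simpa using b.2
      have h := commutator_mem_commutator ha hb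
      rw [← derivedSeries_succ, hn, mem_bot, commutatorElement_eq_one_iff_mul_comm] at h
      exact h
    · refine ih _ inferInstance (fg_quot _ hsur hfg) ?_
      rw [← map_derivedSeries_eq hsur, Subgroup.map_eq_bot_iff, QuotientGroup.ker_mk']

/-- strict chains of length `k` in which roots inside the chain have exponent `n` -/
def IsoChain {G : Type u} [Group G] (n k : ℕ) (f : ℕ → Subgroup G) : Prop :=
  (∀ i j, i < j → j ≤ k → f i < f j) ∧
    ∀ i j, i ≤ j → j ≤ k → ∀ y ∈ f j, ∀ r, 0 < r → y ^ r ∈ f i → y ^ n ∈ f i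

theorem seg {G Q : Type u} [Group G] [Group Q] (φ : G →* Q) {n k L : ℕ}
    (hQ : ∀ k (g : ℕ → Subgroup Q), IsoChain n k g → k ≤ L) {f : ℕ → Subgroup G}
    (hf : IsoChain n k f) (a : ℕ) (ha : a + (L + 1) ≤ k) :
    ¬ f (a + (L + 1)) ⊓ φ.ker ≤ f a := by
  intro hle
  have mono : ∀ i j, i ≤ j → j ≤ k → f i ≤ f j := fun i j hij hj => by
    rcases hij.eq_or_lt with rfl | h
    · exact le_rfl
    · exact (hf.1 i j h hj).le
  have key : ∀ i j, i ≤ j → j ≤ L + 1 → ∀ y ∈ f (a + j), φ y ∈ (f (a + i)).map φ →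
      y ∈ f (a + i) := by
    rintro i j hij hj y hy ⟨z, hz, e⟩
    have h1 : z⁻¹ * y ∈ f a := by
      refine hle (mem_inf.2 ⟨mul_mem (inv_mem (mono _ _ (by omega) ha hz))
        (mono _ _ (by omega) ha hy), ?_⟩)
      rw [MonoidHom.mem_ker, map_mul, map_inv, e, inv_mul_cancel]
    have h2 := mul_mem hz (mono a (a + i) (by omega) (by omega) h1)
    rwa [mul_inv_cancel_left] at h2
  have := hQ (L + 1) (fun i => (f (a + i)).map φ) ⟨fun i j hij hj => ?_, ?_⟩
  · omega
  · have hlt := hf.1 (a + i) (a + j) (by omega) (by omega)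
    refine lt_of_le_of_ne (map_mono hlt.le) fun e => hlt.not_ge fun y hy => ?_
    have e' : (f (a + i)).map φ = (f (a + j)).map φ := e
    exact key i j hij.le hj y hy (by rw [e']; exact mem_map_of_mem φ hy)
  · rintro i j hij hj _ ⟨y, hy, rfl⟩ r hr h
    rw [← map_pow] at h ⊢
    exact mem_map_of_mem φ (hf.2 _ _ (by omega) (by omega) y hy r hr
      (key i j hij hj _ (pow_mem hy r) h))

theorem iso_cyclic (n : ℕ) (hn : 0 < n) (G : Type u) [Group G] (hG : IsCyclic G) (k : ℕ)
    (f : ℕ → Subgroup G) (hf : IsoChain n k f) : k ≤ n + 1 := by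
  by_contra hk
  have mono : ∀ i j, i ≤ j → j ≤ k → f i ≤ f j := fun i j hij hj => by
    rcases hij.eq_or_lt with rfl | h
    · exact le_rfl
    · exact (hf.1 i j h hj).le
  obtain ⟨g, hg⟩ := hG.exists_generator
  obtain ⟨c, hc⟩ := (le_zpowers_iff g (f k)).1 fun x _ => hg x
  obtain ⟨d, hd⟩ := (le_zpowers_iff (g ^ c) (f 1)).1 (hc ▸ mono 1 k (by omega) le_rfl)
  have hyk : g ^ c ∈ f k := hc ▸ mem_zpowers _
  have hyn : (g ^ c) ^ n ∈ f 1 := by
    refine hf.2 1 k (by omega) le_rfl _ hyk d (Nat.pos_of_ne_zero ?_) (hd ▸ mem_zpowers _)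
    rintro rfl
    have := hf.1 0 1 one_pos (by omega)
    rw [hd, pow_zero, zpowers_one_eq_bot] at this
    exact not_lt_bot this
  have hex : ∀ i : Fin (n + 1), ∃ e : Fin n,
      (g ^ c) ^ (e : ℕ) ∈ f (i + 2) ∧ (g ^ c) ^ (e : ℕ) ∉ f (i + 1) := by
    intro i
    have hi := i.2
    obtain ⟨x, hx1, hx2⟩ := SetLike.exists_of_lt (hf.1 (i + 1) (i + 2) (by omega) (by omega))
    obtain ⟨z, rfl⟩ := mem_zpowers_iff.1 (hc ▸ mono _ k (by omega) le_rfl hx1)
    have h0 : 0 ≤ z % n := Int.emod_nonneg _ (by omega)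
    have h1 : z % n < n := Int.emod_lt_of_pos _ (by omega)
    have e : (g ^ c) ^ z = ((g ^ c) ^ n) ^ (z / n) * (g ^ c) ^ (z % n).toNat := by
      rw [← zpow_natCast (g ^ c) n, ← zpow_mul, ← zpow_natCast (g ^ c) (z % n).toNat, ← zpow_add,
        Int.toNat_of_nonneg h0, Int.mul_ediv_add_emod]
    have hm : ((g ^ c) ^ n) ^ (z / n) ∈ f (i + 1) :=
      zpow_mem (mono 1 _ (by omega) (by omega) hyn) _
    refine ⟨⟨(z % n).toNat, by omega⟩, ?_, fun h => hx2 (e ▸ mul_mem hm h)⟩
    rw [e] at hx1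
    exact (mul_mem_cancel_left (mono _ _ (by omega) (by omega) hm)).1 hx1
  choose e he1 he2 using hex
  have hinj : Function.Injective e := by
    intro i j hij
    have hi := i.2
    have hj := j.2
    by_contra hne
    rcases lt_or_gt_of_ne (fun h => hne (Fin.ext h)) with h | h
    · exact he2 j (hij ▸ mono _ _ (by omega) (by omega) (he1 i))
    · exact he2 i (hij ▸ mono _ _ (by omega) (by omega) (he1 j))
  have := Fintype.card_le_of_injective e hinj
  simp at this

theorem iso_bound (n : ℕ) (hn : 0 < n) (G : Type u) [Group G] (hs : Group.IsSolvable G)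
    (hfg : ∀ H : Subgroup G, H.FG) :
    ∃ L, ∀ k (f : ℕ → Subgroup G), IsoChain n k f → k ≤ L := by
  refine poly_ind (fun G _ => ∃ L, ∀ k (f : ℕ → Subgroup G), IsoChain n k f → k ≤ L)
    (fun G _ hG => ⟨n + 1, iso_cyclic n hn G hG⟩) ?_ G hs hfg
  rintro G Q _ _ φ - ⟨L1, h1⟩ ⟨L2, h2⟩
  refine ⟨(L1 + 1) * (L2 + 1), fun k f hf => ?_⟩
  by_contra hk
  have hb : ∀ j, j ≤ L1 + 1 → j * (L2 + 1) ≤ k := fun j hj =>
    (Nat.mul_le_mul_right _ hj).trans (by omega)
  have := h1 (L1 + 1) (fun j => (f (j * (L2 + 1))).subgroupOf φ.ker) ⟨fun i j hij hj => ?_, ?_⟩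
  · omega
  · have hij' : i * (L2 + 1) + (L2 + 1) ≤ j * (L2 + 1) := by
      rw [← Nat.succ_mul]; exact Nat.mul_le_mul_right _ hij
    have hlt := hf.1 _ _ (show i * (L2 + 1) < j * (L2 + 1) by omega) (hb j hj)
    refine lt_of_le_of_ne (comap_mono hlt.le) fun e => ?_
    refine seg φ h2 hf (i * (L2 + 1)) (hij'.trans (hb j hj)) fun y hy => ?_
    have hy1 : y ∈ f (j * (L2 + 1)) := by
      rcases hij'.eq_or_lt with e' | h
      · exact e' ▸ hy.1
      · exact (hf.1 _ _ h (hb j hj)).le hy.1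
    have e' : (f (i * (L2 + 1))).subgroupOf φ.ker = (f (j * (L2 + 1))).subgroupOf φ.ker := e
    have : (⟨y, (mem_inf.1 hy).2⟩ : φ.ker) ∈ (f (i * (L2 + 1))).subgroupOf φ.ker := by
      rw [e']; exact hy1
    exact this
  · intro i j hij hj y hy r hr h
    exact hf.2 _ _ (Nat.mul_le_mul_right _ hij) (hb j hj) y hy r hr h

/-- eremitic and abelian-by-polycyclic: bounded chains of centralizers -/
theorem erem_bound {G Q : Type u} [Group G] [Group Q] (φ : G →* Q) (hφ : Function.Surjective φ)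
    (hs : Group.IsSolvable Q) (hfg : ∀ H : Subgroup Q, H.FG)
    (hA : ∀ x ∈ φ.ker, ∀ y ∈ φ.ker, x * y = y * x) (n : ℕ) (hn : 0 < n)
    (he : ∀ (x y : G) (r : ℕ), 0 < r → x * y ^ r = y ^ r * x → x * y ^ n = y ^ n * x) :
    ∃ m : ℕ, ∀ (k : ℕ) (s : ℕ → Set G),
      (∀ i < k, centralizer (s i) < centralizer (s (i + 1))) → k ≤ m := by
  obtain ⟨L, hL⟩ := iso_bound n hn Q hs hfg
  refine ⟨(L + 1) * (L + 1), fun k s hsk => ?_⟩
  by_contra hk
  have hiso : ∀ (X : Set G) (y : G) (r : ℕ), 0 < r → y ^ r ∈ centralizer X →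
      y ^ n ∈ centralizer X := fun X y r hr h x hx => he x y r hr (h x hx)
  have hf : IsoChain n k fun i => centralizer (s i) := by
    refine ⟨fun i j hij hj => ?_, fun i j _ _ y _ r hr h => hiso _ y r hr h⟩
    induction j, hij using Nat.le_induction with
    | base => exact hsk i (by omega)
    | succ j _ ih => exact (ih (by omega)).trans (hsk j (by omega))
  have hb : ∀ j, j ≤ L + 1 → j * (L + 1) ≤ k := fun j hj =>
    (Nat.mul_le_mul_right _ hj).trans (by omega)
  let D : ℕ → Subgroup G := fun j =>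
    centralizer ((centralizer (s (j * (L + 1))) ⊓ φ.ker : Subgroup G) : Set G)
  have hD : ∀ j, φ.ker ≤ D j := fun j y hy x hx => hA x hx.2 y hy
  have hmem : ∀ j y, φ y ∈ (D j).map φ → y ∈ D j := by
    rintro j y ⟨z, hz, e⟩
    have h1 : z⁻¹ * y ∈ φ.ker := by rw [MonoidHom.mem_ker, map_mul, map_inv, e, inv_mul_cancel]
    have h2 := mul_mem hz (hD j h1)
    rwa [mul_inv_cancel_left] at h2
  have := hL (L + 1) (fun j => (D (L + 1 - j)).map φ) ⟨fun i j hij hj => ?_, ?_⟩
  · omega
  · have hij' : (L + 1 - j) * (L + 1) + (L + 1) ≤ (L + 1 - i) * (L + 1) := by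
      rw [← Nat.succ_mul]; exact Nat.mul_le_mul_right _ (by omega)
    have hbi := hb (L + 1 - i) (by omega)
    have hlt := hf.1 _ _ (show (L + 1 - j) * (L + 1) < (L + 1 - i) * (L + 1) by omega) hbi
    have hle : D (L + 1 - i) ≤ D (L + 1 - j) :=
      centralizer_le (SetLike.coe_subset_coe.2 (inf_le_inf_right _ hlt.le))
    refine lt_of_le_of_ne (map_mono hle) fun e => ?_
    refine seg φ hL hf ((L + 1 - j) * (L + 1)) (hij'.trans hbi) fun y hy x hx => ?_
    have hy1 : y ∈ centralizer (s ((L + 1 - i) * (L + 1))) := by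
      rcases hij'.eq_or_lt with e' | h
      · exact e' ▸ hy.1
      · exact (hf.1 _ _ h hbi).le hy.1
    have hx1 : x ∈ D (L + 1 - j) := fun z hz => (hz.1 x hx).symm
    have hx2 : x ∈ D (L + 1 - i) := hmem _ x (by
      have := mem_map_of_mem φ hx1
      rwa [← show (D (L + 1 - i)).map φ = (D (L + 1 - j)).map φ from e] at this)
    exact (hx2 y ⟨hy1, hy.2⟩).symm
  · rintro i j hij hj y - r hr h
    obtain ⟨y, rfl⟩ := hφ y
    rw [← map_pow] at h ⊢
    exact mem_map_of_mem φ (hiso _ y r hr (hmem _ _ h))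

end Pool.Agent.Lib.MP_721660_al

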