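import Pool.Agent.Lib.MP_721660_al.CD.St
import Pool.Agent.Lib.MP_721660_al.CD.Chain

namespace Pool.Agent.Cdim

universe u

/-- Bounded chains of centralisers, given the heart for the quotient. -/
theorem top_st (hG : GErSt.{u}) (G Q : Type u) [Group G] [Group Q] (f : G →* Q)
    (hfg : Group.FG G) (hf : Function.Surjective f)
    (hA : ∀ a ∈ f.ker, ∀ b ∈ f.ker, Commute a b) (hs : Group.IsSolvable Q) (hm : GMax Q)
    (hP : CharP Q) : Bdd G := by
  obtain ⟨e, he, hE⟩ := hG G Q f hfg hf hA hs hm hP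
  exact Pool.Agent.Lib.MP_721660_al.erem_bound f hf hs hm hA e he
    (fun x y r hr h => hE x y r hr h)

theorem solvable_of_meta (Q : Type u) [Group Q]
    (h : ∀ x ∈ commutator Q, ∀ y ∈ commutator Q, Commute x y) : Group.IsSolvable Q := by
  refine ⟨⟨2, ?_⟩⟩
  rw [show (2 : ℕ) = 1 + 1 from rfl, derivedSeries_succ, derivedSeries_one,
    Subgroup.commutator_eq_bot_iff_le_centralizer]
  intro x hx
  rw [Subgroup.mem_centralizer_iff]
  intro y hy
  exact (h y hy x hx)

end Pool.Agent.Cdim
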