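import Pool.Agent.Lib.MP_721660_al.CD.St

namespace Pool.Agent.Cdim

universe u

namespace Twox
variable {Q M : Type u} [Group Q] [AddCommGroup M] (ρ : Act Q M) (q : Q) (n p : ℕ)

theorem add (a b : ℕ) (x : M) : ρ (q ^ (a + b)) x = ρ (q ^ a) (ρ (q ^ b) x) := by
  rw [pow_add, act_mul]

theorem fix {x : M} (h : ρ (q ^ n) x = x) (a : ℕ) :
    ρ (q ^ n) (ρ (q ^ a) x) = ρ (q ^ a) x := by
  rw [← add, add_comm, add, h]

theorem fix_mul {x : M} (h : ρ (q ^ n) x = x) (i : ℕ) : ρ (q ^ (n * i)) x = x := by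
  induction i with
  | zero => rw [mul_zero, pow_zero, act_one]
  | succ i ih => rw [mul_add, mul_one, add, h, ih]

theorem iter (k : ℕ) (x : M) : (fun m => ρ q m)^[k] x = ρ (q ^ k) x := by
  induction k with
  | zero => rw [pow_zero, act_one]; rfl
  | succ k ih => rw [Function.iterate_succ_apply', ih, pow_succ', act_mul]

/-- `q ^ k` acts trivially on the fixed points of `q ^ n` modulo `p ^ j`. -/
def Lv (k j : ℕ) : Prop :=
  ∀ x, ρ (q ^ n) x = x → ∃ y, ρ (q ^ n) y = y ∧ ρ (q ^ k) x - x = p ^ j • y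

theorem up {k j : ℕ} (h : Lv ρ q n p k (j + 1)) : Lv ρ q n p (k * p) (j + 2) := by
  intro x hx
  obtain ⟨y, hy, e1⟩ := h x hx
  obtain ⟨z, hz, e2⟩ := h y hy
  have key : ∀ i : ℕ, ∃ w, ρ (q ^ n) w = w ∧
      ρ (q ^ (k * i)) x - x = p ^ (j + 1) • i • y + p ^ (j + 2) • w := by
    intro i
    induction i with
    | zero => exact ⟨0, map_zero _, by simp⟩
    | succ i ih =>
      obtain ⟨w, hw, e3⟩ := ih
      refine ⟨i • p ^ j • z + ρ (q ^ k) w, ?_, ?_⟩
      · rw [map_add, map_nsmul, map_nsmul, hz, fix ρ q n hw]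
      · have e4 : ρ (q ^ (k * (i + 1))) x - x =
            ρ (q ^ k) (ρ (q ^ (k * i)) x - x) + (ρ (q ^ k) x - x) := by
          rw [map_sub, mul_add, mul_one, add_comm (k * i), add]
          abel
        have e5 : ρ (q ^ k) y = y + p ^ (j + 1) • z := by rw [← e2]; abel
        rw [e4, e3, e1, map_add, map_nsmul, map_nsmul, map_nsmul, e5]
        generalize ρ (q ^ k) w = w'
        module
  obtain ⟨w, hw, e3⟩ := key p
  refine ⟨y + w, by rw [map_add, hy, hw], ?_⟩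
  rw [e3]
  module

theorem one (hp : p.Prime) (hn : 0 < n) (tf : ∀ (m : M) (n : ℕ), 0 < n → n • m = 0 → m = 0)
    (hG : Good p (⊥ : AddSubgroup M) ⊤) (e : ℕ)
    (hE : ∀ m : M, ρ (q ^ n) m - m ∈ pM M p → ρ (q ^ e) m - m ∈ pM M p) :
    ∃ a : ℕ, ∀ x, ρ (q ^ n) x = x → ρ (q ^ (e * p ^ a)) x = x := by
  have h0 : Lv ρ q n p e 1 := by
    intro x hx
    obtain ⟨y, hy⟩ := hE x (by rw [hx, sub_self]; exact zero_mem _)
    refine ⟨y, sub_eq_zero.1 (tf _ p hp.pos ?_), by rw [pow_one]; exact hy⟩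
    rw [smul_sub, ← map_nsmul, ← hy, map_sub, fix ρ q n hx, hx, sub_self]
  have h1 : ∀ b : ℕ, Lv ρ q n p (e * p ^ b) (b + 1) := by
    intro b
    induction b with
    | zero => simpa using h0
    | succ b ih => rw [pow_succ, ← mul_assoc]; exact up ρ q n p ih
  obtain ⟨a, n', hn', e1⟩ := Nat.exists_eq_pow_mul_and_not_dvd hn.ne' p hp.ne_one
  have n0 : 0 < n' := Nat.pos_of_ne_zero (by rintro rfl; exact hn' (dvd_zero p))
  refine ⟨a, fun x hx => sub_eq_zero.1 ?_⟩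
  obtain ⟨N, N0, hN⟩ := hG.2 (ρ (q ^ (e * p ^ a)) x - x) trivial (fun j => by
    have c1 : p ^ Nat.totient n' ≡ 1 [MOD n'] :=
      Nat.ModEq.pow_totient ((Nat.Prime.coprime_iff_not_dvd hp).2 hn')
    have c2 : 1 ≡ p ^ (Nat.totient n' * j) [MOD n'] := by
      have := c1.pow j
      rw [one_pow, ← pow_mul] at this
      exact this.symm
    obtain ⟨c, hc⟩ := (Nat.modEq_iff_dvd' (Nat.one_le_pow _ _ hp.pos)).1 c2
    have c3 : p ^ (Nat.totient n' * j) = 1 + n' * c := by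
      have := Nat.one_le_pow (Nat.totient n' * j) _ hp.pos
      omega
    have c4 : e * p ^ (a + Nat.totient n' * j) = e * p ^ a + n * (e * c) := by
      rw [pow_add, c3, e1]; ring
    obtain ⟨y, -, hy⟩ := h1 (a + Nat.totient n' * j) x hx
    rw [c4, add, fix_mul ρ q n hx] at hy
    have c5 : j ≤ a + Nat.totient n' * j + 1 := by
      have := Nat.le_mul_of_pos_left j (Nat.totient_pos.2 n0)
      omega
    obtain ⟨d, hd⟩ := Nat.exists_eq_add_of_le c5
    refine ⟨p ^ d • y, trivial, ?_⟩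
    rw [hy, hd, pow_add, mul_smul, sub_self]
    exact zero_mem _)
  exact tf _ N N0 (AddSubgroup.mem_bot.1 hN)

end Twox

theorem two_st : TwoSt.{u} := by
  intro Q M _ _ ρ p p' hp hp' hne tf hG hG' hE hE'
  obtain ⟨e, e0, he⟩ := (er_quo_iff ρ _ _).1 hE
  obtain ⟨e', e0', he'⟩ := (er_quo_iff ρ _ _).1 hE'
  refine ⟨e * e', Nat.mul_pos e0 e0', fun q x n hn hx => ?_⟩
  obtain ⟨a, ha⟩ := Twox.one ρ q n p hp hn tf hG e fun m => he q m n hn
  obtain ⟨a', ha'⟩ := Twox.one ρ q n p' hp' hn tf hG' e' fun m => he' q m n hn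
  have h1 : Function.IsPeriodicPt (fun m => ρ q m) (e * e' * p ^ a) x := by
    show (fun m => ρ q m)^[_] x = x
    rw [Twox.iter, mul_right_comm]
    exact Twox.fix_mul ρ q _ (ha x hx) e'
  have h2 : Function.IsPeriodicPt (fun m => ρ q m) (e * e' * p' ^ a') x := by
    show (fun m => ρ q m)^[_] x = x
    rw [Twox.iter, mul_assoc, mul_comm e]
    exact Twox.fix_mul ρ q _ (ha' x hx) e
  have h3 := h1.gcd h2
  rw [Nat.gcd_mul_left, (Nat.coprime_pow_primes a a' hp hp' hne).gcd_eq_one, mul_one] at h3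
  rw [← Twox.iter]
  exact h3

end Pool.Agent.Cdim
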