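import Pool.Agent.Lib.MP_721660_al.CD.Basic
import Pool.Agent.Lib.MP_721660_al.CD.Ext
import Pool.Agent.Lib.MP_721660_al.CD.Gen
import Pool.Agent.Lib.MP_721660_al.CD.Two
import Pool.Agent.Lib.MP_721660_al.CD.Fg
import Pool.Agent.Lib.MP_721660_al.CD.Model
import Pool.Agent.Lib.MP_721660_al.CD.PEr
import Pool.Agent.Lib.MP_721660_al.CD.Poly
import Pool.Agent.Lib.MP_721660_al.CD.Hall
import Pool.Agent.Lib.MP_721660_al.CD.Good
import Pool.Agent.Lib.MP_721660_al.CD.Sep
import Pool.Agent.Lib.MP_721660_al.CD.Zero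
import Pool.Agent.Lib.MP_721660_al.CD.Fng
import Pool.Agent.Lib.MP_721660_al.CD.GEr
import Pool.Agent.Lib.MP_721660_al.CD.Top

namespace Pool.Agent.Cdim

universe u

theorem gen_all : GenSt.{u} := gen_st basic_st ext_st

theorem per_all : PErSt.{u} := per_st model_st (fg_st ext_st two_st) aff_st pmax_st

theorem zero_all : ZeroSt.{u} :=
  zero_st basic_st gen_all two_st (sep_st hall_st good_st sep0_st)

theorem ger_all : GErSt.{u} :=
  ger_st model_st aff_st per_all poly_st hall_st zero_all (fng_st pmax_st) basic_st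

/-- The outer layer: the heart for `Q` gives bounded chains for all finitely generated
abelian-by-`Q` groups. -/
theorem outer (G Q : Type u) [Group G] [Group Q] (f : G →* Q)
    (hfg : Group.FG G) (hf : Function.Surjective f)
    (hA : ∀ a ∈ f.ker, ∀ b ∈ f.ker, Commute a b) (hs : Group.IsSolvable Q) (hm : GMax Q)
    (hP : CharP Q) : Bdd G :=
  top_st ger_all G Q f hfg hf hA hs hm hP

end Pool.Agent.Cdim
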