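import Pool.Agent.Lib.MP_721660_al.CD.St

namespace Pool.Agent.Cdim

universe u

namespace Apx

/-- an annihilator of a nonzero element that is maximal among such annihilators -/
theorem exists_max (R M : Type u) [CommRing R] [IsNoetherianRing R] [AddCommGroup M] [Module R M]
    [Nontrivial M] : ∃ v : M, v ≠ 0 ∧ ∀ m : M, m ≠ 0 → (∀ r : R, r • v = 0 → r • m = 0) →
      ∀ r : R, r • m = 0 → r • v = 0 := by
  obtain ⟨v0, hv0⟩ := exists_ne (0 : M)
  obtain ⟨I, ⟨v, hv, rfl⟩, hmax⟩ := (set_has_maximal_iff_noetherian (R := R) (M := R)).2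
    inferInstance {I | ∃ m : M, m ≠ 0 ∧ I = Ideal.torsionOf R M m} ⟨_, v0, hv0, rfl⟩
  refine ⟨v, hv, fun m hm hle r hr => ?_⟩
  have h1 : Ideal.torsionOf R M v ≤ Ideal.torsionOf R M m := fun x hx =>
    (Ideal.mem_torsionOf_iff _ _).2 (hle x ((Ideal.mem_torsionOf_iff _ _).1 hx))
  have h2 : Ideal.torsionOf R M v = Ideal.torsionOf R M m := by
    by_contra hne
    exact hmax _ ⟨m, hm, rfl⟩ (lt_of_le_of_ne h1 hne)
  refine (Ideal.mem_torsionOf_iff _ _).1 ?_
  rw [h2]
  exact (Ideal.mem_torsionOf_iff _ _).2 hr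

/-- the stabiliser of an additive subgroup -/
def stab {Q M : Type u} [Group Q] [AddCommGroup M] (ρ : Act Q M) (U : AddSubgroup M) :
    Subgroup Q where
  carrier := {g | ∀ m, m ∈ U ↔ ρ g m ∈ U}
  one_mem' := fun m => by rw [act_one]
  mul_mem' := fun {g h} hg hh m => by rw [act_mul]; exact (hh m).trans (hg _)
  inv_mem' := fun {g} hg m => by
    have := hg (ρ g⁻¹ m)
    rw [act_act_inv] at this
    exact this.symm

/-- elements killed by everything that kills `v` -/
def soc (R : Type u) {M : Type u} [CommRing R] [AddCommGroup M] [Module R M] (v : M) :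
    AddSubgroup M where
  carrier := {m | ∀ r : R, r • v = 0 → r • m = 0}
  zero_mem' := fun r _ => smul_zero r
  add_mem' := fun {a b} ha hb r hr => by rw [smul_add, ha r hr, hb r hr, add_zero]
  neg_mem' := fun {a} ha r hr => by rw [smul_neg, ha r hr, neg_zero]

theorem act_eq_zero {Q M : Type u} [Group Q] [AddCommGroup M] (ρ : Act Q M) (g : Q) {m : M}
    (h : ρ g m = 0) : m = 0 := by
  rw [← act_inv_act ρ g m, h, map_zero]

end Apx

open Apx in
theorem ap_st (hR : RingSt.{u}) : ApSt.{u} := by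
  classical
  intro Q M B _ _ _ ρ π hG hC hN
  obtain ⟨R, _, _, φ, -, hrange, hsm, hft, hconj⟩ := hR Q M B ρ π hG hC
  have : IsNoetherianRing R := Algebra.FiniteType.isNoetherianRing ℤ R
  obtain ⟨v, hv, hmax⟩ := exists_max R M
  set U : AddSubgroup M := soc R v with hU
  have hUm : ∀ m, m ∈ U ↔ ∀ r : R, r • v = 0 → r • m = 0 := fun m => Iff.rfl
  have hUs : ∀ (r : R), ∀ m ∈ U, r • m ∈ U := fun r m hm => (hUm _).2 fun r' hr' => by
    rw [smul_comm, (hUm m).1 hm r' hr', smul_zero]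
  -- conjugation in pointwise form
  have hcj : ∀ (g : Q) (r : R), ∃ r' : R, ∀ m : M, r' • m = ρ g (r • ρ g⁻¹ m) := fun g r => by
    obtain ⟨r', hr'⟩ := hconj g r
    exact ⟨r', fun m => by rw [hsm, hr', hsm]; rfl⟩
  have hker : ∀ a ∈ π.ker, ∃ r : R, ∀ m : M, ρ a m = r • m := fun a ha => by
    have : ρ a ∈ φ.range := by
      rw [hrange]
      exact Subring.subset_closure ⟨a, ha, rfl⟩
    obtain ⟨r, hr⟩ := this
    exact ⟨r, fun m => by rw [hsm, hr]⟩
  -- killing one nonzero element of `g U` kills `g U`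
  have hA : ∀ (g : Q) (r : R), ∀ w ∈ U, w ≠ 0 → r • ρ g w = 0 → ∀ w' ∈ U, r • ρ g w' = 0 := by
    intro g r w hw hw0 hr w' hw'
    obtain ⟨r', hr'⟩ := hcj g⁻¹ r
    rw [inv_inv] at hr'
    have h1 : r' • w = 0 := by rw [hr', hr, map_zero]
    have h2 : r' • w' = 0 := (hUm w').1 hw' r' (hmax w hw0 ((hUm w).1 hw) r' h1)
    rw [hr'] at h2
    exact act_eq_zero ρ _ h2
  have hB : ∀ (g : Q) (m : M), (∀ r : R, (∀ w ∈ U, r • ρ g w = 0) → r • m = 0) →
      ρ g⁻¹ m ∈ U := by
    intro g m hm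
    refine (hUm _).2 fun r' hr' => ?_
    obtain ⟨r, hr⟩ := hcj g r'
    have h1 : r • m = 0 := hm r fun w hw => by
      rw [hr, act_inv_act, (hUm w).1 hw r' hr', map_zero]
    rw [hr] at h1
    exact act_eq_zero ρ _ h1
  have hF : ∀ (x : Q), ∀ w ∈ U, w ≠ 0 → ρ x w ∈ U → ∀ m ∈ U, ρ x m ∈ U :=
    fun x w hw hw0 hx m hm => (hUm _).2 fun r hr => hA x r w hw hw0 ((hUm _).1 hx r hr) m hm
  have hH : ∀ (x : Q), ∀ w ∈ U, w ≠ 0 → ρ x w ∈ U → x ∈ stab ρ U := by
    intro x w hw hw0 hx m
    refine ⟨hF x w hw hw0 hx m, fun hm => ?_⟩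
    have := hF x⁻¹ (ρ x w) hx (fun h => hw0 (act_eq_zero ρ x h))
      (by rw [act_inv_act]; exact hw) _ hm
    rwa [act_inv_act] at this
  have hinv : InvOn ρ (stab ρ U) U := fun g hg m hm => (hg m).1 hm
  refine ⟨stab ρ U, U, hinv, fun a ha m => ⟨fun hm => ?_, fun hm => ?_⟩, fun h => ?_, ?_, ?_⟩
  · obtain ⟨r, hr⟩ := hker a ha
    rw [hr]
    exact hUs r m hm
  · obtain ⟨r, hr⟩ := hker a⁻¹ (inv_mem ha)
    have := hUs r _ hm
    rwa [← hr, act_inv_act] at this
  · have : v ∈ U := (hUm v).2 fun _ hr => hr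
    rw [h] at this
    exact hv (AddSubgroup.mem_bot.1 this)
  · intro s
    induction s using Finset.induction_on with
    | empty => intro _ _ _ _ g hg; exact absurd hg (Finset.notMem_empty g)
    | insert g0 s hg0 ih =>
      intro w hw hd hsum
      have hd' : ∀ g ∈ s, ∀ g' ∈ s, g⁻¹ * g' ∈ stab ρ U → g = g' := fun g hg g' hg' =>
        hd g (Finset.mem_insert_of_mem hg) g' (Finset.mem_insert_of_mem hg')
      rw [Finset.sum_insert hg0] at hsum
      have hs : ∀ g ∈ s, w g = 0 := by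
        intro g hg
        by_contra hne
        have h1 : ρ g0⁻¹ (ρ g (w g)) ∈ U := by
          refine hB g0 _ fun r hr => ?_
          have h2 := ih (fun g => ρ g⁻¹ (r • ρ g (w g))) (fun g hg => by
            obtain ⟨r', hr'⟩ := hcj g⁻¹ r
            rw [inv_inv] at hr'
            rw [← hr']
            exact hUs r' _ (hw g (Finset.mem_insert_of_mem hg))) hd' (by
            have h3 := congrArg (fun m => r • m) hsum
            simp only [smul_add, smul_zero] at h3
            rw [hr _ (hw g0 (Finset.mem_insert_self _ _)), zero_add, Finset.smul_sum] at h3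
            rw [← h3]
            exact Finset.sum_congr rfl fun g _ => act_act_inv ρ g _) g hg
          exact act_eq_zero ρ _ h2
        rw [← act_mul] at h1
        have h4 := hd g0 (Finset.mem_insert_self _ _) g (Finset.mem_insert_of_mem hg)
          (hH _ (w g) (hw g (Finset.mem_insert_of_mem hg)) hne h1)
        exact hg0 (h4 ▸ hg)
      intro g hg
      rcases Finset.mem_insert.1 hg with rfl | hg
      · rw [Finset.sum_eq_zero fun g hg => by rw [hs g hg, map_zero], add_zero] at hsum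
        exact act_eq_zero ρ _ hsum
      · exact hs g hg
  · intro r hr m hm
    have key : ∃ r0 : R, ∀ m : U, ((r m : U) : M) = r0 • (m : M) := by
      clear hm
      induction hr using Subring.closure_induction with
      | mem x hx =>
        obtain ⟨a, ha, rfl⟩ := hx
        obtain ⟨r0, h0⟩ := hker (a : Q) ha
        exact ⟨r0, fun m => by rw [part_coe, h0]⟩
      | zero => exact ⟨0, fun m => by rw [zero_smul]; rfl⟩
      | one => exact ⟨1, fun m => by rw [one_smul]; rfl⟩
      | add x y _ _ hx hy =>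
        obtain ⟨a, ha⟩ := hx
        obtain ⟨b, hb⟩ := hy
        exact ⟨a + b, fun m => by rw [add_smul, ← ha, ← hb]; rfl⟩
      | neg x _ hx =>
        obtain ⟨a, ha⟩ := hx
        exact ⟨-a, fun m => by rw [neg_smul, ← ha]; rfl⟩
      | mul x y _ _ hx hy =>
        obtain ⟨a, ha⟩ := hx
        obtain ⟨b, hb⟩ := hy
        exact ⟨a * b, fun m => by rw [mul_smul, ← hb, ← ha]; rfl⟩
    obtain ⟨r0, h0⟩ := key
    by_cases hm0 : m = 0
    · exact Or.inr hm0
    · refine Or.inl (AddMonoidHom.ext fun m' => Subtype.ext ?_)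
      have h1 : r0 • (m : M) = 0 := by rw [← h0, hm]; rfl
      have h2 : r0 • v = 0 :=
        hmax m (fun h => hm0 (Subtype.ext h)) ((hUm _).1 m.2) r0 h1
      exact (h0 m').trans ((hUm _).1 m'.2 r0 h2)

end Pool.Agent.Cdim
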