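import Pool.Agent.Lib.MP_721660_al.CD.St

namespace Pool.Agent.Cdim

universe u

namespace Case3x

variable {Q M : Type u} [Group Q] [AddCommGroup M]

/-- Elements whose operator commutes with the operator of `z`. -/
def cen (ρ : Act Q M) (z : Q) : Subgroup Q where
  carrier := {g | Commute (ρ g) (ρ z)}
  one_mem' := by
    change Commute (ρ 1) (ρ z)
    rw [map_one]; exact Commute.one_left _
  mul_mem' := by
    intro a b ha hb
    change Commute (ρ (a * b)) (ρ z)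
    rw [map_mul]; exact Commute.mul_left ha hb
  inv_mem' := by
    intro a ha
    have h : ρ a * ρ z = ρ z * ρ a := ha
    change ρ a⁻¹ * ρ z = ρ z * ρ a⁻¹
    have h1 : ρ a⁻¹ * ρ a = 1 := by rw [← map_mul, inv_mul_cancel, map_one]
    have h2 : ρ a * ρ a⁻¹ = 1 := by rw [← map_mul, mul_inv_cancel, map_one]
    calc ρ a⁻¹ * ρ z = ρ a⁻¹ * (ρ z * ρ a) * ρ a⁻¹ := by
          rw [mul_assoc, mul_assoc, h2, mul_one]
      _ = ρ z * ρ a⁻¹ := by rw [← h, ← mul_assoc, h1, one_mul]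

theorem mem_cen {ρ : Act Q M} {z g : Q} : g ∈ cen ρ z ↔ Commute (ρ g) (ρ z) := Iff.rfl

theorem cen_zpow {ρ : Act Q M} {z g : Q} (h : g ∈ cen ρ z) (j : ℤ) : Commute (ρ g) (ρ (z ^ j)) := by
  have h1 : z ∈ cen ρ g := mem_cen.2 (mem_cen.1 h).symm
  exact (mem_cen.1 ((cen ρ g).zpow_mem h1 j)).symm

theorem fix_pow (ρ : Act Q M) (y : Q) (m : M) (h : ρ y m = m) (k : ℕ) : ρ (y ^ k) m = m := by
  induction k with
  | zero => rw [pow_zero, act_one]
  | succ k ih => rw [pow_succ, act_mul, h, ih]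

/-- Periodic points of `q`. -/
def per (ρ : Act Q M) (q : Q) : AddSubgroup M where
  carrier := {m | ∃ n : ℕ, 0 < n ∧ ρ (q ^ n) m = m}
  zero_mem' := ⟨1, one_pos, map_zero _⟩
  add_mem' := by
    rintro a b ⟨n, hn, ha⟩ ⟨k, hk, hb⟩
    refine ⟨n * k, Nat.mul_pos hn hk, ?_⟩
    have h1 : ρ (q ^ (n * k)) a = a := by rw [pow_mul]; exact fix_pow ρ _ a ha k
    have h2 : ρ (q ^ (n * k)) b = b := by rw [mul_comm, pow_mul]; exact fix_pow ρ _ b hb n
    rw [map_add, h1, h2]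
  neg_mem' := by
    rintro a ⟨n, hn, ha⟩
    exact ⟨n, hn, by rw [map_neg, ha]⟩

theorem per_inv (ρ : Act Q M) (q : Q) (e : ℕ) (he : 0 < e) :
    InvOn ρ (cen ρ (q ^ e)) (per ρ q) := by
  rintro g hg m ⟨n, hn, hm⟩
  refine ⟨n * e, Nat.mul_pos hn he, ?_⟩
  have h1 : ρ (q ^ (n * e)) m = m := by rw [pow_mul]; exact fix_pow ρ _ m hm e
  have h2 : Commute (ρ g) (ρ (q ^ (n * e))) := by
    have := cen_zpow hg (n : ℤ)
    rwa [zpow_natCast, ← pow_mul, mul_comm e n] at this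
  have h3 : ρ (q ^ (n * e)) (ρ g m) = ρ g (ρ (q ^ (n * e)) m) :=
    (congrArg (fun f : AddMonoid.End M => f m) h2.eq).symm
  rw [h3, h1]

theorem rank_lt {B : Type u} [AddCommGroup B] [Module.Finite ℤ B] (b : B)
    (hb : ∀ r : ℤ, r • b = 0 → r = 0) :
    Module.finrank ℤ (B ⧸ Submodule.span ℤ {b}) < Module.finrank ℤ B := by
  have h1 := Submodule.finrank_quotient_add_finrank (Submodule.span ℤ {b})
  have h2 : LinearIndependent ℤ
      (fun _ : Unit => (⟨b, Submodule.mem_span_singleton_self b⟩ : Submodule.span ℤ {b})) := by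
    rw [Fintype.linearIndependent_iff]
    intro g hg i
    apply hb
    have := congrArg Subtype.val hg
    simpa using this
  have h3 := h2.fintype_card_le_finrank
  simp only [Fintype.card_unit] at h3
  omega

end Case3x

open Case3x

theorem case3_st (hC : CoreSt.{u}) (hO : OpSt.{u}) (hN : IndNSt.{u}) (hE : IndESt.{u})
    (hP : PMaxSt.{u}) : Case3St.{u} := by
  intro Q M B _ _ _ _ ρ π p hp IH hpM hG hComm hTF hNo q v hq hv hqv
  classical
  obtain ⟨e, he, hOp⟩ := hO Q M B ρ π hG hComm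
  have hinv := per_inv ρ q e he
  have hind : Indep ρ (cen ρ (q ^ e)) (per ρ q) := by
    intro s w hw hcos hsum
    by_contra hne
    push Not at hne
    have hnon : (s.filter fun g => w g ≠ 0).Nonempty := by
      obtain ⟨g, hg, h0⟩ := hne
      exact ⟨g, Finset.mem_filter.2 ⟨hg, h0⟩⟩
    have hch : ∀ g : Q, ∃ n : ℕ, 0 < n ∧ (g ∈ s → ρ (q ^ n) (w g) = w g) := by
      intro g
      by_cases hg : g ∈ s
      · obtain ⟨n, hn, h⟩ := hw g hg
        exact ⟨n, hn, fun _ => h⟩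
      · exact ⟨1, one_pos, fun h => absurd h hg⟩
    choose nn hnn hfix using hch
    have hn : 0 < ∏ g ∈ s, nn g := Finset.prod_pos fun g _ => hnn g
    have hfix' : ∀ g ∈ s, ρ (q ^ ∏ g ∈ s, nn g) (w g) = w g := by
      intro g hg
      obtain ⟨k, hk⟩ := Finset.dvd_prod_of_mem nn hg
      rw [hk, pow_mul]
      exact fix_pow ρ _ _ (hfix g hg) k
    obtain ⟨i, hi, k, hk, hik, N, hNpos, hEq⟩ := hC Q M B Q ρ π p hp hpM hG hComm hTF
      (s.filter fun g => w g ≠ 0) (fun g => ρ g (w g))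
      (fun g => g * q ^ (∏ g ∈ s, nn g) * g⁻¹) hnon
      (fun g hg h0 => (Finset.mem_filter.1 hg).2 (by
        have := congrArg (ρ g⁻¹) h0
        rwa [act_inv_act, map_zero] at this))
      (fun g hg => by
        rw [act_mul, act_inv_act, act_mul, hfix' g (Finset.mem_filter.1 hg).1])
      (fun g _ g' _ => by simp only [map_mul, map_inv, mul_inv_cancel_comm])
      (by
        rw [Finset.sum_filter]
        refine Eq.trans (Finset.sum_congr rfl fun g _ => ?_) hsum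
        by_cases h : w g = 0
        · simp [h]
        · simp [h])
    apply hik
    refine hcos i (Finset.mem_filter.1 hi).1 k (Finset.mem_filter.1 hk).1 (mem_cen.2 ?_)
    refine hOp _ q ((∏ g ∈ s, nn g) * N) (Nat.mul_pos hn hNpos) ?_
    simp only [conj_pow, ← pow_mul] at hEq
    set y := q ^ ((∏ g ∈ s, nn g) * N) with hy
    change ρ (i⁻¹ * k) * ρ y = ρ y * ρ (i⁻¹ * k)
    calc ρ (i⁻¹ * k) * ρ y = ρ i⁻¹ * ρ (k * y * k⁻¹) * ρ k := by
          simp only [← map_mul]; congr 1; group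
      _ = ρ i⁻¹ * ρ (i * y * i⁻¹) * ρ k := by rw [hEq]
      _ = _ := by simp only [← map_mul]; congr 1; group
  have hroot : Root (cen ρ (q ^ e)) :=
    ⟨e, he, fun g n hn hg => mem_cen.2 (hOp (q ^ e) g n hn (mem_cen.1 hg).symm).symm⟩
  set b : B := Multiplicative.toAdd (π (q ^ e)) with hb
  have hbt : ∀ r : ℤ, r • b = 0 → r = 0 := by
    intro r hr
    by_contra h0
    apply hq
    have h1 : π q ^ ((e : ℤ) * r) = 1 := by
      rw [zpow_mul, zpow_natCast, ← map_pow]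
      exact congrArg Multiplicative.ofAdd hr
    exact isOfFinOrder_iff_zpow_eq_one.2 ⟨_, mul_ne_zero (by exact_mod_cast he.ne') h0, h1⟩
  let π' : cen ρ (q ^ e) →* Multiplicative (B ⧸ Submodule.span ℤ {b}) :=
    (AddMonoidHom.toMultiplicative (Submodule.span ℤ {b}).mkQ.toAddMonoidHom).comp
      (π.comp (cen ρ (q ^ e)).subtype)
  have hker : ∀ a : cen ρ (q ^ e), a ∈ π'.ker → ∃ a0 ∈ π.ker, a0 ∈ cen ρ (q ^ e) ∧
      ∃ j : ℤ, (a : Q) = a0 * (q ^ e) ^ j := by
    intro a ha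
    have h1 : (Submodule.span ℤ {b}).mkQ (Multiplicative.toAdd (π a)) = 0 := ha
    rw [Submodule.mkQ_apply, Submodule.Quotient.mk_eq_zero, Submodule.mem_span_singleton] at h1
    obtain ⟨j, hj⟩ := h1
    have h2 : π (q ^ e) ^ j = π a := congrArg Multiplicative.ofAdd hj
    refine ⟨a * ((q ^ e) ^ j)⁻¹, ?_, ?_, j, by group⟩
    · rw [MonoidHom.mem_ker, map_mul, map_inv, map_zpow, h2, mul_inv_cancel]
    · exact mul_mem a.2 (inv_mem (zpow_mem (mem_cen.2 (Commute.refl _)) j))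
  have hComm' : Comm (part ρ (cen ρ (q ^ e)) (per ρ q) hinv) π' := by
    intro a ha c hc
    obtain ⟨a0, ha0, ha1, j, haj⟩ := hker a ha
    obtain ⟨c0, hc0, hc1, k, hck⟩ := hker c hc
    have h1 : Commute (ρ a) (ρ c) := by
      have h2 : Commute (ρ a) (ρ c0) := by
        rw [haj, map_mul]
        exact Commute.mul_left (hComm a0 ha0 c0 hc0) (cen_zpow hc1 j).symm
      rw [hck, map_mul]
      exact Commute.mul_right h2 (cen_zpow a.2 k)
    refine AddMonoidHom.ext fun m => Subtype.ext ?_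
    exact congrArg (fun f : AddMonoid.End M => f m) h1.eq
  have hEr : Er (part ρ (cen ρ (q ^ e)) (per ρ q) hinv) :=
    IH _ (rank_lt b hbt) (cen ρ (q ^ e)) (per ρ q) (B ⧸ Submodule.span ℤ {b})
      (part ρ _ _ hinv) π' rfl (fun m => Subtype.ext (hpM m)) (hP.2.1 Q _ hG) hComm'
      (hN Q M ρ _ _ hinv hNo hind)
  refine ⟨spanOn ρ ⊤ (per ρ q : Set M), ?_, fun g m hm => invOn_spanOn ρ ⊤ _ g trivial m hm,
    hE Q M ρ _ _ hinv hind hroot ((er_part_iff ρ _ _ hinv).1 hEr)⟩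
  intro h0
  have : v ∈ spanOn ρ ⊤ (per ρ q : Set M) :=
    subset_spanOn ρ ⊤ _ ⟨1, one_pos, by rw [pow_one, hqv]⟩
  rw [h0] at this
  exact hv (AddSubgroup.mem_bot.1 this)

end Pool.Agent.Cdim
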