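import Pool.Agent.Lib.MP_721660_al.CD.St

/-! Independence of fixed vectors. -/

namespace Pool.Agent.Cdim

universe u

namespace Corex

variable {Q M : Type u} [Group Q] [AddCommGroup M]

theorem conj_pow (ρ : Act Q M) (g : Q) (r : AddMonoid.End M) (n : ℕ) :
    (ρ g * r * ρ g⁻¹) ^ n = ρ g * r ^ n * ρ g⁻¹ := by
  have h1 : ρ g⁻¹ * ρ g = 1 := by rw [← map_mul, inv_mul_cancel, map_one]
  have h2 : ρ g * ρ g⁻¹ = 1 := by rw [← map_mul, mul_inv_cancel, map_one]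
  induction n with
  | zero => rw [pow_zero, pow_zero, mul_one, h2]
  | succ n ih =>
    rw [pow_succ, ih, pow_succ]
    calc ρ g * r ^ n * ρ g⁻¹ * (ρ g * r * ρ g⁻¹)
        = ρ g * r ^ n * (ρ g⁻¹ * ρ g) * r * ρ g⁻¹ := by simp only [mul_assoc]
      _ = ρ g * (r ^ n * r) * ρ g⁻¹ := by rw [h1, mul_one]; simp only [mul_assoc]

theorem conj_zero (ρ : Act Q M) (g : Q) (r : AddMonoid.End M) (h : ρ g * r * ρ g⁻¹ = 0) :
    r = 0 := by
  have h1 : ρ g⁻¹ * ρ g = 1 := by rw [← map_mul, inv_mul_cancel, map_one]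
  calc r = (ρ g⁻¹ * ρ g) * r * (ρ g⁻¹ * ρ g) := by rw [h1, one_mul, mul_one]
    _ = ρ g⁻¹ * (ρ g * r * ρ g⁻¹) * ρ g := by simp only [mul_assoc]
    _ = 0 := by rw [h, mul_zero, zero_mul]

theorem conj_apply (ρ : Act Q M) (g : Q) (r : AddMonoid.End M) (m : M) :
    (ρ g * r * ρ g⁻¹) (ρ g m) = ρ g (r m) := by
  change ρ g (r (ρ g⁻¹ (ρ g m))) = _
  rw [act_inv_act]

theorem fix_pow (ρ : Act Q M) (g : Q) (m : M) (h : ρ g m = m) (n : ℕ) : ρ (g ^ n) m = m := by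
  induction n with
  | zero => rw [pow_zero, act_one]
  | succ n ih => rw [pow_succ, act_mul, h, ih]

theorem cancel (ρ : Act Q M) (y z : Q) (a d : ℕ)
    (h : ρ (y ^ a * (z ^ a)⁻¹) = ρ (y ^ (a + d) * (z ^ (a + d))⁻¹)) : ρ (y ^ d) = ρ (z ^ d) := by
  have e1 : y ^ d = (y ^ a)⁻¹ * (y ^ (a + d) * (z ^ (a + d))⁻¹) * z ^ (a + d) := by
    rw [mul_assoc, inv_mul_cancel_right, pow_add, inv_mul_cancel_left]
  have e2 : z ^ d = (y ^ a)⁻¹ * (y ^ a * (z ^ a)⁻¹) * z ^ (a + d) := by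
    rw [inv_mul_cancel_left, pow_add, inv_mul_cancel_left]
  rw [e1, e2, map_mul, map_mul, ← h, map_mul ρ _ (z ^ (a + d)), map_mul ρ (y ^ a)⁻¹]

end Corex

theorem core_st (hR : RingSt.{u}) (hL : RelSt.{u}) (hP : PigSt.{u}) : CoreSt.{u} := by
  intro Q M B ι _ _ _ ρ π p hp hpm hG hC hT s v q hs hv hfix hπ hsum
  classical
  obtain ⟨R, _, _, φ, hinj, hrange, hsm, hft, hconj⟩ := hR Q M B ρ π hG hC
  have hmem : ∀ r : R, φ r ∈ Rg ρ π := fun r => hrange ▸ ⟨r, rfl⟩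
  have hTF : ∀ (r : R) (m : M), r • m = 0 → r = 0 ∨ m = 0 := by
    intro r m h
    rw [hsm] at h
    exact (hT _ (hmem r) m h).imp (fun e => hinj (by rw [e, map_zero])) id
  obtain ⟨i0, hi0⟩ := hs
  have : Nontrivial R := ⟨⟨1, 0, fun e => hv i0 hi0 (by
    rw [← one_smul R (v i0), e, zero_smul])⟩⟩
  have : NoZeroDivisors R := ⟨fun {a b} h => by
    have h1 : a • b • v i0 = 0 := by rw [← mul_smul, h, zero_smul]
    rcases hTF _ _ h1 with h2 | h2
    · exact Or.inl h2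
    · exact Or.inr ((hTF _ _ h2).resolve_right (hv i0 hi0))⟩
  have : IsDomain R := NoZeroDivisors.to_isDomain R
  have hp0 : (p : R) = 0 := by
    have h1 : (p : R) • v i0 = 0 := by rw [Nat.cast_smul_eq_nsmul]; exact hpm _
    exact (hTF _ _ h1).resolve_right (hv i0 hi0)
  obtain ⟨I, hI, i, hi, k, hk, hik, l, t, ht, ⟨c, hci, hc⟩, hall⟩ :=
    hL R M ι p hp hp0 hTF s v ⟨i0, hi0⟩ hv hsum
  obtain ⟨j, hj, hpig⟩ := hP Q M B ι ρ π hG hC (p ^ l) (pow_pos hp.pos l) I (q i) q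
    (fun x hx => hπ x (hI hx) i (hI hi))
  have key : ∀ n : ℕ, ∃ β : R, β ^ t = 1 ∧
      φ β = ρ (q i ^ (n * j) * (q k ^ (n * j))⁻¹) := by
    intro n
    have h1 : ∀ x, ∃ α : R, x ∈ I →
        ρ (q i ^ (n * j) * (q x ^ (n * j))⁻¹) = φ (α ^ p ^ l) := by
      intro x
      by_cases hx : x ∈ I
      · obtain ⟨a, ha, e⟩ := hpig n x hx
        have h2 : ρ a ∈ φ.range := hrange ▸ Subring.subset_closure ⟨a, ha, rfl⟩
        obtain ⟨α, hα⟩ := h2
        exact ⟨α, fun _ => by rw [e, map_pow, hα]⟩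
      · exact ⟨0, fun h => absurd h hx⟩
    choose α hα using h1
    choose c' hc' using fun x => hconj (q i ^ (n * j)) (c x)
    have h3 : ∑ x ∈ I, (c' x * α x) ^ p ^ l • v x = 0 := by
      have h4 := congrArg (ρ (q i ^ (n * j))) hc
      rw [map_sum, map_zero] at h4
      refine Eq.trans (Finset.sum_congr rfl fun x hx => ?_) h4
      have h5 : (α x ^ p ^ l) • v x = ρ (q i ^ (n * j)) (v x) := by
        rw [hsm, ← hα x hx, act_mul]
        congr 1
        have h6 := Corex.fix_pow ρ (q x) (v x) (hfix x (hI hx)) (n * j)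
        conv_lhs => rw [← h6]
        exact act_inv_act ρ _ _
      rw [mul_pow, mul_smul, h5, hsm, hsm, map_pow φ, map_pow φ, hc', Corex.conj_pow]
      exact Corex.conj_apply ρ _ _ _
    have h7 := hall _ h3
    have h8 : c' i ^ t = c' k ^ t := by
      apply hinj
      rw [map_pow, map_pow, hc', hc', Corex.conj_pow, Corex.conj_pow, ← map_pow, ← map_pow,
        hall c hc]
    have h9 : c' i ≠ 0 := by
      intro e
      have h10 := hc' i
      rw [e, map_zero] at h10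
      exact hci (hinj (by rw [Corex.conj_zero ρ _ _ h10.symm, map_zero]))
    have h11 : α i ^ t = α k ^ t := by
      rw [mul_pow, mul_pow, ← h8] at h7
      exact mul_left_cancel₀ (pow_ne_zero t h9) h7
    have h12 : α i ^ p ^ l = 1 := by
      apply hinj
      rw [← hα i hi, mul_inv_cancel, map_one, map_one]
    refine ⟨α k ^ p ^ l, ?_, (hα k hk).symm⟩
    rw [← pow_mul, mul_comm, pow_mul, ← h11, ← pow_mul, mul_comm, pow_mul, h12, one_pow]
  choose β hβ hφ using key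
  have hfin : (Set.range β).Finite := by
    refine (Polynomial.nthRootsFinset t (1 : R)).finite_toSet.subset ?_
    rintro _ ⟨n, rfl⟩
    exact (Polynomial.mem_nthRootsFinset ht 1).2 (hβ n)
  obtain ⟨a, b, hab, e⟩ : ∃ a b : ℕ, a < b ∧ β a = β b := by
    obtain ⟨a, -, b, -, hab, e⟩ := Set.infinite_univ.exists_lt_map_eq_of_mapsTo
      (f := β) (fun n _ => Set.mem_range_self n) hfin
    exact ⟨a, b, hab, e⟩
  obtain ⟨d, rfl⟩ := Nat.exists_eq_add_of_lt hab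
  refine ⟨i, hI hi, k, hI hk, hik, (d + 1) * j, Nat.mul_pos (Nat.succ_pos d) hj, ?_⟩
  refine Corex.cancel ρ (q i) (q k) (a * j) _ ?_
  rw [← hφ a, e, hφ, show (a + d + 1) * j = a * j + (d + 1) * j by ring]

end Pool.Agent.Cdim
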