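import Pool.Agent.Lib.MP_721660_al.CD.St

/-! Induced modules are eremitic. -/

namespace Pool.Agent.Cdim

universe u

namespace IndEx

variable {Q M : Type u} [Group Q] [AddCommGroup M]

/-- The sum of the translates along the chosen coset representatives. -/
noncomputable def S (ρ : Act Q M) (H : Subgroup Q) : ((Q ⧸ H) →₀ M) →+ M :=
  Finsupp.liftAddHom (fun c => (ρ c.out : M →+ M))

theorem S_eq (ρ : Act Q M) (H : Subgroup Q) (f : (Q ⧸ H) →₀ M) (s : Finset (Q ⧸ H))
    (hs : f.support ⊆ s) : S ρ H f = ∑ c ∈ s, ρ c.out (f c) := by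
  rw [S, Finsupp.liftAddHom_apply, Finsupp.sum_of_support_subset f hs]
  · rfl
  · intro c _
    exact map_zero _

theorem mem_H (H : Subgroup Q) (y : Q) (c : Q ⧸ H) : (y • c).out⁻¹ * y * c.out ∈ H := by
  rw [mul_assoc, ← QuotientGroup.eq, QuotientGroup.out_eq']
  conv_lhs => rw [← QuotientGroup.out_eq' c]
  rfl

theorem exists_rep {ρ : Act Q M} {H : Subgroup Q} {U : AddSubgroup M} (hU : InvOn ρ H U)
    {m : M} (hm : m ∈ spanOn ρ ⊤ (U : Set M)) :
    ∃ f : (Q ⧸ H) →₀ M, (∀ c, f c ∈ U) ∧ S ρ H f = m := by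
  classical
  induction hm using AddSubgroup.closure_induction with
  | mem x hx =>
    obtain ⟨g, -, u, hu, rfl⟩ := hx
    have hg : (QuotientGroup.mk g : Q ⧸ H).out⁻¹ * g ∈ H := by
      rw [← QuotientGroup.eq, QuotientGroup.out_eq']
    refine ⟨Finsupp.single (QuotientGroup.mk g) (ρ ((QuotientGroup.mk g : Q ⧸ H).out⁻¹ * g) u),
      fun c => ?_, ?_⟩
    · rw [Finsupp.single_apply]
      split_ifs
      · exact hU _ hg u hu
      · exact U.zero_mem
    · rw [S, Finsupp.liftAddHom_apply_single]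
      change ρ _ (ρ _ u) = _
      rw [← act_mul, mul_inv_cancel_left]
  | zero => exact ⟨0, fun _ => U.zero_mem, map_zero _⟩
  | add x y _ _ hx hy =>
    obtain ⟨f, hf, rfl⟩ := hx
    obtain ⟨g, hg, rfl⟩ := hy
    exact ⟨f + g, fun c => U.add_mem (hf c) (hg c), map_add _ _ _⟩
  | neg x _ hx =>
    obtain ⟨f, hf, rfl⟩ := hx
    exact ⟨-f, fun c => U.neg_mem (hf c), map_neg _ _⟩

theorem uniq {ρ : Act Q M} {H : Subgroup Q} {U : AddSubgroup M} (hI : Indep ρ H U)
    (f : (Q ⧸ H) →₀ M) (hf : ∀ c, f c ∈ U) (h0 : S ρ H f = 0) : f = 0 := by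
  classical
  have hinj : Function.Injective (fun c : Q ⧸ H => c.out) := Quotient.out_injective
  have key := hI (f.support.image (fun c : Q ⧸ H => c.out)) (fun g => f (QuotientGroup.mk g))
    (fun g _ => hf _) (by
      intro g hg g' hg' h
      obtain ⟨c, -, rfl⟩ := Finset.mem_image.1 hg
      obtain ⟨c', -, rfl⟩ := Finset.mem_image.1 hg'
      rw [← QuotientGroup.eq, QuotientGroup.out_eq', QuotientGroup.out_eq'] at h
      rw [h]) (by
      rw [Finset.sum_image (fun a _ b _ h => hinj h), ← h0, S_eq ρ H f _ subset_rfl]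
      refine Finset.sum_congr rfl fun c _ => ?_
      rw [QuotientGroup.out_eq'])
  ext c
  by_contra hc
  have h1 := key c.out (Finset.mem_image.2 ⟨c, Finsupp.mem_support_iff.2 hc, rfl⟩)
  rw [QuotientGroup.out_eq'] at h1
  exact hc h1

theorem shift {ρ : Act Q M} {H : Subgroup Q} {U : AddSubgroup M} (hU : InvOn ρ H U)
    (hI : Indep ρ H U) (f : (Q ⧸ H) →₀ M) (hf : ∀ c, f c ∈ U) (y : Q)
    (hy : ρ y (S ρ H f) = S ρ H f) (c : Q ⧸ H) :
    f (y • c) = ρ ((y • c).out⁻¹ * y * c.out) (f c) := by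
  classical
  let g : (Q ⧸ H) →₀ M := Finsupp.onFinset (f.support.image (fun c => y • c))
    (fun c => ρ (c.out⁻¹ * y * (y⁻¹ • c).out) (f (y⁻¹ • c))) (by
      intro a ha
      refine Finset.mem_image.2 ⟨y⁻¹ • a, Finsupp.mem_support_iff.2 fun h => ha ?_, by simp⟩
      simp only [h, map_zero])
  have hg : ∀ a, g (y • a) = ρ ((y • a).out⁻¹ * y * a.out) (f a) := fun a => by
    simp only [g, Finsupp.onFinset_apply, inv_smul_smul]
  have hgU : ∀ a, g a ∈ U := fun a => by
    have h1 := hg (y⁻¹ • a)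
    have h2 := mem_H H y (y⁻¹ • a)
    rw [smul_inv_smul] at h1 h2
    rw [h1]
    exact hU _ h2 _ (hf _)
  have hS : S ρ H g = S ρ H f := by
    rw [← hy, S_eq ρ H g _ Finsupp.support_onFinset_subset,
      Finset.sum_image (fun a _ b _ h => MulAction.injective y h), S_eq ρ H f _ subset_rfl,
      map_sum]
    refine Finset.sum_congr rfl fun a _ => ?_
    rw [hg, ← act_mul, ← act_mul]
    congr 2
    group
  have h0 := uniq hI (g - f) (fun a => U.sub_mem (hgU a) (hf a)) (by rw [map_sub, hS, sub_self])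
  rw [← hg, sub_eq_zero.1 h0]

theorem fix_pow {ρ : Act Q M} {y : Q} {m : M} (h : ρ y m = m) (k : ℕ) : ρ (y ^ k) m = m := by
  induction k with
  | zero => rw [pow_zero, act_one]
  | succ k ih => rw [pow_succ, act_mul, h, ih]

theorem smul_eq_iff (H : Subgroup Q) (y : Q) (c : Q ⧸ H) :
    y • c = c ↔ c.out⁻¹ * y * c.out ∈ H := by
  constructor
  · intro h
    have h1 := mem_H H y c
    rwa [h] at h1
  · intro h
    rw [mul_assoc, ← QuotientGroup.eq, QuotientGroup.out_eq'] at h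
    conv_lhs => rw [← QuotientGroup.out_eq' c]
    exact h.symm

theorem conj_pow' (a y : Q) (k : ℕ) : (a⁻¹ * y * a) ^ k = a⁻¹ * y ^ k * a := by
  have := conj_pow (a := a⁻¹) (b := y) (i := k)
  rwa [inv_inv] at this

end IndEx

open IndEx in
theorem inde_st : IndESt.{u} := by
  intro Q M _ _ ρ H U hU hI hR hE
  classical
  obtain ⟨e, he, hR⟩ := hR
  obtain ⟨e', he', hE⟩ := hE
  refine ⟨e * e', Nat.mul_pos he he', fun q _ m hm n hn hfix => ?_⟩
  obtain ⟨f, hf, rfl⟩ := exists_rep hU hm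
  have hall : ∀ k, ρ ((q ^ n) ^ k) (S ρ H f) = S ρ H f := fix_pow hfix
  have hc : ∀ c ∈ f.support, ρ (q ^ (e * e')) (ρ c.out (f c)) = ρ c.out (f c) := by
    intro c hc
    have hmem : ∀ k : ℕ, (q ^ n) ^ k • c ∈ f.support := fun k => by
      rw [Finsupp.mem_support_iff, shift hU hI f hf _ (hall k) c]
      intro h0
      apply Finsupp.mem_support_iff.1 hc
      have h1 := congrArg (ρ (((q ^ n) ^ k • c).out⁻¹ * (q ^ n) ^ k * c.out)⁻¹) h0
      rwa [act_inv_act, map_zero] at h1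
    obtain ⟨i, j, hij, hh⟩ := Set.Finite.exists_lt_map_eq_of_forall_mem
      (f := fun k : ℕ => (q ^ n) ^ k • c) (t := (f.support : Set (Q ⧸ H)))
      (fun k => Finset.mem_coe.2 (hmem k)) f.support.finite_toSet
    obtain ⟨d, rfl⟩ := Nat.exists_eq_add_of_lt hij
    have h1 : (q ^ n) ^ (d + 1) • c = c := by
      apply MulAction.injective ((q ^ n) ^ i)
      simp only at hh ⊢
      rw [← mul_smul, ← pow_add, ← add_assoc]
      exact hh.symm
    rw [smul_eq_iff, ← pow_mul, ← conj_pow'] at h1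
    have h2 := hR _ _ (Nat.mul_pos hn (Nat.succ_pos d)) h1
    have h3 : (q ^ n) ^ e • c = c := by
      rw [smul_eq_iff, ← pow_mul, mul_comm n e, ← conj_pow', pow_mul]
      exact H.pow_mem h2 n
    have h4 := shift hU hI f hf _ (hall e) c
    rw [h3, ← pow_mul, mul_comm n e, ← conj_pow', pow_mul] at h4
    have h5 := hE _ h2 (f c) (hf c) n hn h4.symm
    rw [← pow_mul, conj_pow'] at h5
    conv_rhs => rw [← h5]
    rw [← act_mul, ← act_mul]
    congr 2
    group
  rw [S_eq ρ H f _ subset_rfl, map_sum]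
  exact Finset.sum_congr rfl hc

end Pool.Agent.Cdim
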