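import Pool.Agent.Lib.MP_721660_al.CD.St

namespace Pool.Agent.Cdim

universe u

namespace IndNx

variable {Q M : Type u} [Group Q] [AddCommGroup M]

theorem key (ρ : Act Q M) (H : Subgroup Q) (U W : AddSubgroup M) (hI : Indep ρ H U) (hW : W ≤ U)
    (hH : InvOn ρ H W) {u : M} (hu : u ∈ U) (h : u ∈ spanOn ρ ⊤ (W : Set M)) : u ∈ W := by
  obtain ⟨S, hS, h1⟩ := Subgroup.exists_isComplement_left H 1
  have sS : ∀ (g : Q) (m : M), (Finsupp.single g m).sum (fun g m => ρ g m) = ρ g m := fun g m =>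
    Finsupp.sum_single_index (map_zero _)
  have sA : ∀ v w : Q →₀ M, (v + w).sum (fun g m => ρ g m) =
      v.sum (fun g m => ρ g m) + w.sum (fun g m => ρ g m) := fun v w =>
    Finsupp.sum_add_index' (fun g => map_zero _) fun g => map_add _
  have k : ∀ x ∈ spanOn ρ ⊤ (W : Set M), ∃ v : Q →₀ M, (∀ g, v g ∈ W) ∧ (∀ g, g ∉ S → v g = 0) ∧
      v.sum (fun g m => ρ g m) = x := by
    intro x hx
    induction hx using AddSubgroup.closure_induction with
    | mem x hx =>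
      obtain ⟨g, -, m, hm, rfl⟩ := hx
      obtain ⟨⟨s, t⟩, e⟩ := hS.2 g
      refine ⟨Finsupp.single s.1 (ρ t.1 m), fun g' => ?_, fun g' hg => ?_, ?_⟩
      · by_cases q : g' = s.1
        · rw [q, Finsupp.single_eq_same]; exact hH _ t.2 m hm
        · rw [Finsupp.single_eq_of_ne q]; exact W.zero_mem
      · exact Finsupp.single_eq_of_ne fun q => hg (q ▸ s.2)
      · rw [sS, ← act_mul]
        exact congrArg (fun z => ρ z m) e
    | zero => exact ⟨0, fun _ => W.zero_mem, fun _ _ => rfl, Finsupp.sum_zero_index⟩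
    | add x y _ _ a b =>
      obtain ⟨v, v1, v2, rfl⟩ := a
      obtain ⟨w, w1, w2, rfl⟩ := b
      exact ⟨v + w, fun g => W.add_mem (v1 g) (w1 g), fun g hg => by
        rw [Finsupp.add_apply, v2 g hg, w2 g hg, add_zero], sA v w⟩
    | neg x _ a =>
      obtain ⟨v, v1, v2, rfl⟩ := a
      refine ⟨-v, fun g => W.neg_mem (v1 g), fun g hg => by
        rw [Finsupp.neg_apply, v2 g hg, neg_zero], ?_⟩
      rw [eq_neg_iff_add_eq_zero, ← sA, neg_add_cancel, Finsupp.sum_zero_index]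
  obtain ⟨v, v1, v2, v3⟩ := k u h
  obtain ⟨w, hw⟩ : ∃ w : Q →₀ M, w = v + Finsupp.single (1 : Q) (-u) := ⟨_, rfl⟩
  have m : ∀ g ∈ w.support, g ∈ S := fun g hg => by
    by_contra q
    refine Finsupp.mem_support_iff.1 hg ?_
    have r : g ≠ 1 := fun r => q (r ▸ h1)
    rw [hw, Finsupp.add_apply, v2 g q, Finsupp.single_eq_of_ne r, add_zero]
  have z : ∀ g ∈ w.support, w g = 0 := by
    refine hI _ _ (fun g _ => ?_) (fun g hg g' hg' q => ?_) ?_
    · rw [hw]
      refine U.add_mem (hW (v1 g)) ?_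
      by_cases q : g = 1
      · rw [q, Finsupp.single_eq_same]; exact U.neg_mem hu
      · rw [Finsupp.single_eq_of_ne q]; exact U.zero_mem
    · have := hS.1 (a₁ := (⟨g, m g hg⟩, ⟨g⁻¹ * g', q⟩)) (a₂ := (⟨g', m g' hg'⟩, ⟨1, H.one_mem⟩))
        (by simp)
      exact congrArg (fun x => x.1.1) this
    · change w.sum (fun g m => ρ g m) = 0
      rw [hw, sA, v3, sS, act_one, add_neg_cancel]
  have z1 : w 1 = 0 := by
    by_contra q
    exact q (z 1 (Finsupp.mem_support_iff.2 q))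
  rw [hw, Finsupp.add_apply, Finsupp.single_eq_same, add_neg_eq_zero] at z1
  exact z1 ▸ v1 1

end IndNx

theorem indn_st : IndNSt.{u} := by
  intro Q M _ _ ρ H U h hN hI W hW hm
  obtain ⟨n, hn⟩ := hN (fun i => spanOn ρ ⊤ ((W i).map U.subtype : Set M))
    (fun i g m k => invOn_spanOn ρ ⊤ _ g trivial m k) fun i j k =>
      spanOn_le (invOn_spanOn ρ ⊤ _)
        (Set.Subset.trans (AddSubgroup.map_mono (hm k)) (subset_spanOn ρ ⊤ _))
  refine ⟨n, fun i hi => le_antisymm (fun u hu => ?_) (hm hi)⟩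
  have k : (u : M) ∈ spanOn ρ ⊤ ((W n).map U.subtype : Set M) := by
    rw [← hn i hi]
    exact subset_spanOn ρ ⊤ _ ⟨u, hu, rfl⟩
  obtain ⟨w, w1, w2⟩ := IndNx.key ρ H U _ hI (by rintro _ ⟨w, -, rfl⟩; exact w.2) (by
    rintro g hg _ ⟨w, hw, rfl⟩
    exact ⟨_, hW n ⟨g, hg⟩ w hw, rfl⟩) u.2 k
  exact (Subtype.ext w2 : w = u) ▸ w1

end Pool.Agent.Cdim
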