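import Pool.Agent.Lib.MP_721660_al.CD.St

namespace Pool.Agent.Cdim

universe u

namespace Mainx

variable {Q M B : Type u} [Group Q] [AddCommGroup M] [AddCommGroup B]

theorem comm_quo {ρ : Act Q M} {π : Q →* Multiplicative B} (hC : Comm ρ π) (W : AddSubgroup M)
    (h : Inv ρ W) : Comm (quo ρ W h) π := by
  intro a ha b hb
  refine AddMonoidHom.ext fun m => ?_
  obtain ⟨m, rfl⟩ := QuotientAddGroup.mk_surjective m
  have := DFunLike.congr_fun (hC a ha b hb).eq m
  exact congrArg (QuotientAddGroup.mk : M → M ⧸ W) this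

theorem comm_part {ρ : Act Q M} {π : Q →* Multiplicative B} (hC : Comm ρ π) (H : Subgroup Q)
    (U : AddSubgroup M) (h : InvOn ρ H U) : Comm (part ρ H U h) (π.comp H.subtype) := by
  intro a ha b hb
  refine AddMonoidHom.ext fun m => Subtype.ext ?_
  exact DFunLike.congr_fun (hC a ha b hb).eq (m : M)

theorem lift_sub (hE : IndESt.{u}) (ρ : Act Q M) (H : Subgroup Q) (U : AddSubgroup M)
    (h : InvOn ρ H U) (hI : Indep ρ H U) (hR : Root H) (U' : AddSubgroup U) (h0 : U' ≠ ⊥)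
    (hinv : Inv (part ρ H U h) U') (her : ErOn (part ρ H U h) ⊤ U') :
    ∃ V : AddSubgroup M, V ≠ ⊥ ∧ Inv ρ V ∧ ErOn ρ ⊤ V := by
  have h1 : InvOn ρ H (U'.map U.subtype) := by
    rintro g hg _ ⟨m, hm, rfl⟩
    exact ⟨part ρ H U h ⟨g, hg⟩ m, hinv _ m hm, rfl⟩
  have h2 : Indep ρ H (U'.map U.subtype) := by
    intro s v hv hs hsum
    refine hI s v (fun g hg => ?_) hs hsum
    obtain ⟨m, _, hm⟩ := hv g hg
    rw [← hm]
    exact m.2
  have h3 : ErOn ρ H (U'.map U.subtype) := by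
    obtain ⟨e, he, hEr⟩ := her
    refine ⟨e, he, ?_⟩
    rintro q hq _ ⟨m, hm, rfl⟩ n hn hfix
    exact congrArg Subtype.val (hEr ⟨q, hq⟩ trivial m hm n hn (Subtype.ext hfix))
  refine ⟨spanOn ρ ⊤ (U'.map U.subtype : Set M), ?_, fun g m hm => invOn_spanOn ρ ⊤ _ g trivial m hm,
    hE Q M ρ H _ h1 h2 hR h3⟩
  intro hbot
  apply h0
  rw [eq_bot_iff]
  intro m hm
  have : (m : M) ∈ spanOn ρ ⊤ (U'.map U.subtype : Set M) :=
    subset_spanOn ρ ⊤ _ ⟨m, hm, rfl⟩
  rw [hbot, AddSubgroup.mem_bot] at this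
  exact (AddSubgroup.mem_bot).2 (Subtype.ext this)

end Mainx

theorem main_st (hG : GenSt.{u}) (hB : BasicSt.{u}) (hA : ApSt.{u}) (h2 : Case2St.{u})
    (h3 : Case3St.{u}) (hN : IndNSt.{u}) (hE : IndESt.{u}) (hR : RootSt.{u}) (hP : PMaxSt.{u}) :
    MainSt.{u} := by
  intro p r hp
  induction r using Nat.strong_induction_on with
  | _ r ih =>
  intro Q M B _ _ _ _ ρ π hr hpM hmax hC hNo
  refine hG Q M ρ hNo fun W hW hWt => ?_
  have hNo' : Noeth (quo ρ W hW) := (hB Q M ρ hNo).2.1 W hW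
  have hC' := Mainx.comm_quo hC W hW
  have hnt : Nontrivial (M ⧸ W) := QuotientAddGroup.nontrivial_iff.2 hWt
  have hp' : ∀ m : M ⧸ W, p • m = 0 := by
    intro m
    obtain ⟨m, rfl⟩ := QuotientAddGroup.mk_surjective m
    rw [← QuotientAddGroup.mk_nsmul, hpM m]
    rfl
  obtain ⟨H, U, h, hker, hU0, hI, hTF⟩ := hA Q (M ⧸ W) B (quo ρ W hW) π hmax hC' hnt
  have hroot : Root H := hR Q B π H hker
  have hmaxH : GMax H := hP.2.1 Q H hmax
  have hCH := Mainx.comm_part hC' H U h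
  have hNH : Noeth (part (quo ρ W hW) H U h) := hN Q _ _ H U h hNo' hI
  have hpU : ∀ m : U, p • m = 0 := fun m => Subtype.ext (hp' m)
  by_cases hfix : ∀ q : H, ¬ IsOfFinOrder ((π.comp H.subtype) q) →
      ∀ m : U, part (quo ρ W hW) H U h q m = m → m = 0
  · have her := h2 H U B _ _ hmaxH hCH hTF hfix
    refine Mainx.lift_sub hE _ H U h hI hroot ⊤ ?_ (fun _ _ _ => trivial) ?_
    · have : Nontrivial U := (AddSubgroup.nontrivial_iff_ne_bot U).2 hU0
      exact top_ne_bot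
    · obtain ⟨e, he, hEr⟩ := her
      exact ⟨e, he, fun q _ m _ n hn hf => hEr q m n hn hf⟩
  · push Not at hfix
    obtain ⟨q, hq, v, hv, hv0⟩ := hfix
    obtain ⟨U', h0, hinv, her⟩ := h3 H U B _ _ p hp (fun r' hr' => ih r' (hr ▸ hr')) hpU hmaxH hCH
      hTF hNH q v hq hv0 hv
    exact Mainx.lift_sub hE _ H U h hI hroot U' h0 hinv her

theorem meta_st (h : MainSt.{u}) : MetaSt.{u} := by
  intro Q _ hmax hmeta M _ ρ p hp hpM hNo
  have hfg : Group.FG Q := ⟨hmax ⊤⟩
  have hfg' : Group.FG (Abelianization Q) :=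
    Group.fg_of_surjective (f := Abelianization.of) (QuotientGroup.mk'_surjective _)
  have hfin : Module.Finite ℤ (Additive (Abelianization Q)) :=
    Module.Finite.iff_addGroup_fg.2 inferInstance
  let π : Q →* Multiplicative (Additive (Abelianization Q)) :=
    (MulEquiv.multiplicativeAdditive (Abelianization Q)).symm.toMonoidHom.comp Abelianization.of
  have hker : ∀ a ∈ π.ker, a ∈ commutator Q := by
    intro a ha
    rw [← Abelianization.ker_of]
    exact ha
  refine h p _ hp Q M (Additive (Abelianization Q)) ρ π rfl hpM hmax ?_ hNo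
  intro a ha b hb
  exact (hmeta a (hker a ha) b (hker b hb)).map ρ

end Pool.Agent.Cdim
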