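import Pool.Agent.Lib.MP_721660_al.CD.St

namespace Pool.Agent.Cdim

universe u

namespace Opx

theorem tors_bound (B : Type u) [AddCommGroup B] [Module.Finite ℤ B] :
    ∃ e : ℕ, 0 < e ∧ ∀ (b : B) (n : ℕ), 0 < n → n • b = 0 → e • b = 0 := by
  have : Finite (Submodule.torsion ℤ B) :=
    Module.finite_of_fg_torsion _ (Submodule.torsion_isTorsion)
  refine ⟨Nat.card (Submodule.torsion ℤ B), Nat.card_pos, fun b n hn h => ?_⟩
  have hb : b ∈ Submodule.torsion ℤ B := by
    refine ⟨⟨(n : ℤ), mem_nonZeroDivisors_of_ne_zero (by exact_mod_cast hn.ne')⟩, ?_⟩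
    show (n : ℤ) • b = 0
    rw [natCast_zsmul]; exact h
  have h1 : Nat.card (Submodule.torsion ℤ B) • (⟨b, hb⟩ : Submodule.torsion ℤ B) = 0 :=
    card_nsmul_eq_zero'
  exact congrArg Subtype.val h1

end Opx

theorem root_st : RootSt.{u} := by
  intro Q B _ _ _ π H hH
  let S : Submodule ℤ B := AddSubgroup.toIntSubmodule (Subgroup.toAddSubgroup' (H.map π))
  have hS : ∀ q : Q, (π q).toAdd ∈ S ↔ q ∈ H := by
    intro q
    have h1 : (π q).toAdd ∈ S ↔ π q ∈ H.map π := Iff.rfl
    rw [h1]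
    constructor
    · rintro ⟨h, hh, he⟩
      have : h⁻¹ * q ∈ π.ker := by
        rw [MonoidHom.mem_ker, map_mul, map_inv, he, inv_mul_cancel]
      have h2 := H.mul_mem hh (hH this)
      rwa [mul_inv_cancel_left] at h2
    · intro h
      exact ⟨q, h, rfl⟩
  obtain ⟨e, he, hE⟩ := Opx.tors_bound (B ⧸ S)
  refine ⟨e, he, fun q n hn hq => ?_⟩
  have key : ∀ k : ℕ, q ^ k ∈ H ↔ k • (S.mkQ (π q).toAdd) = 0 := by
    intro k
    rw [← hS, ← map_nsmul, Submodule.mkQ_apply, Submodule.Quotient.mk_eq_zero, map_pow,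
      toAdd_pow]
  exact (key e).2 (hE _ n hn ((key n).1 hq))

open scoped commutatorElement in
theorem op_st (hE : PErSt.{u}) (hP : PMaxSt.{u}) : OpSt.{u} := by
  intro Q M B _ _ _ ρ π hQ hC
  let f : Q →* ρ.toHomUnits.range := ρ.toHomUnits.rangeRestrict
  have hf : Function.Surjective f := MonoidHom.rangeRestrict_surjective _
  have hiff : ∀ x y : Q, Commute (f x) (f y) ↔ Commute (ρ x) (ρ y) := by
    intro x y
    constructor
    · intro h
      exact congrArg (fun z : ρ.toHomUnits.range => ((z : (AddMonoid.End M)ˣ) : AddMonoid.End M)) h.eq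
    · intro h
      exact Subtype.ext (Units.ext h.eq)
  have hmax : GMax ρ.toHomUnits.range := hP.2.2 Q _ f hf hQ
  have hsol : Group.IsSolvable ρ.toHomUnits.range := by
    refine ⟨⟨2, ?_⟩⟩
    have h1 : derivedSeries ρ.toHomUnits.range 1 ≤ π.ker.map f := by
      rw [derivedSeries_one, commutator_def, Subgroup.commutator_le]
      intro a _ b _
      obtain ⟨x, rfl⟩ := hf a
      obtain ⟨y, rfl⟩ := hf b
      refine ⟨⁅x, y⁆, ?_, map_commutatorElement f x y⟩
      show ⁅x, y⁆ ∈ π.ker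
      rw [MonoidHom.mem_ker, map_commutatorElement, commutatorElement_eq_one_iff_commute]
      exact Commute.all _ _
    rw [show (2 : ℕ) = 1 + 1 from rfl, derivedSeries_succ, eq_bot_iff, Subgroup.commutator_le]
    intro a ha b hb
    obtain ⟨x, hx, rfl⟩ := h1 ha
    obtain ⟨y, hy, rfl⟩ := h1 hb
    rw [Subgroup.mem_bot, commutatorElement_eq_one_iff_commute]
    exact (hiff x y).2 (hC x hx y hy)
  obtain ⟨e, he, h⟩ := hE _ hsol hmax
  refine ⟨e, he, fun x y n hn hc => ?_⟩
  have h2 : Commute (f x) (f y ^ n) := by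
    rw [← map_pow]; exact (hiff x _).2 hc
  have h3 := h _ _ n hn h2
  rw [← map_pow] at h3
  exact (hiff x _).1 h3

end Pool.Agent.Cdim
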