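import Pool.Agent.Lib.MP_721660_al.CD.St

/-! An infinitely `p`-divisible fraction in a finitely generated domain is a root of unity. -/

namespace Pool.Agent.Cdim

universe u

namespace Perfx

theorem int_jac : IsJacobsonRing ℤ := by
  rw [isJacobsonRing_iff_prime_eq]
  intro P hP
  by_cases h : P = ⊥
  · subst h
    refine le_antisymm (fun x hx => ?_) Ideal.le_jacobson
    have := Int.isUnit_iff.1 (Ideal.mem_jacobson_bot.1 hx x)
    rw [Ideal.mem_bot]
    rcases this with h | h <;> nlinarith [mul_self_nonneg x]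
  · have := Ring.DimensionLEOne.maximalOfPrime h hP
    exact Ideal.jacobson_eq_self_of_isMaximal

end Perfx

theorem perf_st (h : Perf1St.{u}) : PerfSt.{u} := by
  intro R _ _ _ p hp hp0 d₁ d₂ h1 h2 hc
  have : IsNoetherianRing R := Algebra.FiniteType.isNoetherianRing ℤ R
  have := Perfx.int_jac
  have : IsJacobsonRing R := isJacobsonRing_of_finiteType (A := ℤ)
  have : Fact p.Prime := ⟨hp⟩
  have : _root_.CharP R p := (_root_.CharP.charP_iff_prime_eq_zero hp).2 hp0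
  have hj : (⊥ : Ideal R).jacobson = ⊥ :=
    IsJacobsonRing.out inferInstance (Ideal.isPrime_bot.isRadical)
  have hd : d₁ * d₂ ∉ (⊥ : Ideal R).jacobson := by
    rw [hj, Ideal.mem_bot]; exact mul_ne_zero h1 h2
  rw [Ideal.jacobson, Ideal.mem_sInf] at hd
  push Not at hd
  obtain ⟨m, ⟨-, hm⟩, hdm⟩ := hd
  have := hm
  let : Field (R ⧸ m) := Ideal.Quotient.field m
  have : Algebra.FiniteType ℤ (R ⧸ m) :=
    Algebra.FiniteType.of_surjective (Ideal.Quotient.mkₐ ℤ m) (Ideal.Quotient.mkₐ_surjective ℤ m)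
  have hf : Module.Finite ℤ (R ⧸ m) := finite_of_finite_type_of_isJacobsonRing ℤ (R ⧸ m)
  have hpq : (p : R ⧸ m) = 0 := by
    rw [← map_natCast (Ideal.Quotient.mk m), hp0, map_zero]
  have : Finite (R ⧸ m) := by
    refine Module.finite_of_fg_torsion (R ⧸ m) fun x => ?_
    refine ⟨⟨(p : ℤ), mem_nonZeroDivisors_of_ne_zero (by exact_mod_cast hp.ne_zero)⟩, ?_⟩
    show (p : ℤ) • x = 0
    rw [zsmul_eq_mul, Int.cast_natCast, hpq, zero_mul]
  let : Fintype (R ⧸ m) := Fintype.ofFinite _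
  have hd1 : d₁ ∉ m := fun hh => hdm (m.mul_mem_right _ hh)
  have hd2 : d₂ ∉ m := fun hh => hdm (m.mul_mem_left _ hh)
  have e1 := FiniteField.pow_card_sub_one_eq_one (Ideal.Quotient.mk m d₁)
    (fun hh => hd1 (Ideal.Quotient.eq_zero_iff_mem.1 hh))
  have e2 := FiniteField.pow_card_sub_one_eq_one (Ideal.Quotient.mk m d₂)
    (fun hh => hd2 (Ideal.Quotient.eq_zero_iff_mem.1 hh))
  have hs : 0 < Fintype.card (R ⧸ m) - 1 := by
    have := Fintype.one_lt_card (α := R ⧸ m); omega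
  generalize Fintype.card (R ⧸ m) - 1 = s at e1 e2 hs
  refine ⟨s, hs, ?_⟩
  have hw : d₂ ^ s - d₁ ^ s ∈ m := by
    rw [← Ideal.Quotient.eq_zero_iff_mem, map_sub, map_pow, map_pow, e1, e2, sub_self]
  have := h R m p (d₂ ^ s - d₁ ^ s) (d₁ ^ s) hm.isPrime hp.two_le hw
    (fun hh => hd1 (hm.isPrime.mem_of_pow_mem _ hh)) fun l => by
      obtain ⟨c₁, c₂, hc1, hc2⟩ := hc l
      refine ⟨c₁ ^ s, c₂ ^ s - c₁ ^ s, pow_ne_zero _ hc1, ?_⟩
      have e : (d₂ * c₁ ^ p ^ l) ^ s = (d₁ * c₂ ^ p ^ l) ^ s := by rw [hc2]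
      rw [mul_pow, mul_pow, ← pow_mul, ← pow_mul, mul_comm (p ^ l), pow_mul, pow_mul] at e
      rw [sub_pow_char_pow]
      linear_combination e
  exact (sub_eq_zero.1 this).symm

end Pool.Agent.Cdim
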