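import Pool.Agent.Lib.MP_721660_al.CD.St

/-! An element of a prime ideal is not a unit multiple of `p ^ l`-th powers for all `l`. -/

namespace Pool.Agent.Cdim

universe u

namespace Perf1x

theorem loc {S : Type u} [CommRing S] [IsDomain S] [IsNoetherianRing S] [Ring.KrullDimLE 1 S]
    {p : ℕ} (hp : 2 ≤ p) {w d : S} (hw : w ≠ 0) (hu : ¬ IsUnit w) (hd : IsUnit d)
    (h : ∀ l : ℕ, ∃ a b : S, a ≠ 0 ∧ w * a ^ p ^ l = d * b ^ p ^ l) : False := by
  have nz : ∀ {x : S}, x ≠ 0 → x ∈ nonZeroDivisors S := fun hx =>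
    mem_nonZeroDivisors_of_ne_zero hx
  obtain ⟨n, hn⟩ := ENat.ne_top_iff_exists.1 (Ring.ord_ne_top (nz hw))
  have hn0 : n ≠ 0 := by
    rintro rfl
    apply hu
    have h0 : Module.length S (S ⧸ Ideal.span {w}) = 0 := hn.symm
    rw [Module.length_eq_zero_iff, Ideal.Quotient.subsingleton_iff,
      Ideal.span_singleton_eq_top] at h0
    exact h0
  obtain ⟨a, b, ha, hab⟩ := h n
  have hpos : p ^ n ≠ 0 := pow_ne_zero _ (by omega)
  have hb : b ≠ 0 := by
    rintro rfl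
    rw [zero_pow hpos, mul_zero] at hab
    exact mul_ne_zero hw (pow_ne_zero _ ha) hab
  obtain ⟨x, hx⟩ := ENat.ne_top_iff_exists.1 (Ring.ord_ne_top (nz ha))
  obtain ⟨y, hy⟩ := ENat.ne_top_iff_exists.1 (Ring.ord_ne_top (nz hb))
  have e := congrArg (Ring.ord S) hab
  rw [Ring.ord_mul' S (nz hw), Ring.ord_mul_of_isUnit_left hd, Ring.ord_pow (nz ha),
    Ring.ord_pow (nz hb), ← hn, ← hx, ← hy, nsmul_eq_mul, nsmul_eq_mul] at e
  have e2 : n + p ^ n * x = p ^ n * y := by exact_mod_cast e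
  have h1 : p ^ n ∣ n := (Nat.dvd_add_left (Dvd.intro _ rfl)).1 (e2 ▸ Dvd.intro _ rfl)
  have h2 : p ^ n ≤ n := Nat.le_of_dvd (Nat.pos_of_ne_zero hn0) h1
  exact absurd (Nat.lt_pow_self (by omega : 1 < p)) (not_lt.2 h2)

end Perf1x

theorem perf1_st : Perf1St.{u} := by
  intro R _ _ _ P p w d hP hp hw hd h
  by_contra hw0
  obtain ⟨Q, hQ, hQP⟩ := Ideal.exists_minimalPrimes_le
    ((Ideal.span_singleton_le_iff_mem P).2 hw)
  have hQp : Q.IsPrime := hQ.isPrime
  have hwQ : w ∈ Q := hQ.1.2 (Ideal.mem_span_singleton_self w)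
  have hht := Ideal.height_le_one_of_isPrincipal_of_mem_minimalPrimes _ Q hQ
  have hdim : Ring.KrullDimLE 1 (Localization.AtPrime Q) := by
    rw [Ring.krullDimLE_iff, IsLocalization.AtPrime.ringKrullDim_eq_height Q]
    exact_mod_cast hht
  have hinj : Function.Injective (algebraMap R (Localization.AtPrime Q)) :=
    IsLocalization.injective _ Q.primeCompl_le_nonZeroDivisors
  refine Perf1x.loc (S := Localization.AtPrime Q) hp (w := algebraMap R _ w)
    (d := algebraMap R _ d) ((map_ne_zero_iff _ hinj).2 hw0) ?_ ?_ fun l => ?_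
  · rw [IsLocalization.AtPrime.isUnit_to_map_iff _ Q]
    exact fun h1 => h1 hwQ
  · rw [IsLocalization.AtPrime.isUnit_to_map_iff _ Q]
    exact fun h1 => hd (hQP h1)
  · obtain ⟨a, b, ha, hab⟩ := h l
    refine ⟨algebraMap R _ a, algebraMap R _ b, (map_ne_zero_iff _ hinj).2 ha, ?_⟩
    rw [← map_pow, ← map_pow, ← map_mul, ← map_mul, hab]

end Pool.Agent.Cdim
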