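import Pool.Agent.Lib.MP_721660_al.CD.St

namespace Pool.Agent.Cdim

universe u

namespace Pigx

variable {Q U : Type u} [Group Q] [Group U]

/-- Elements of `K` whose image is the `P`-th power of the image of an element of `K`. -/
def pw (f : Q →* U) (K : Subgroup Q) (hc : ∀ a ∈ K, ∀ b ∈ K, Commute (f a) (f b)) (P : ℕ) :
    Subgroup Q where
  carrier := {a | a ∈ K ∧ ∃ b ∈ K, f a = f b ^ P}
  one_mem' := ⟨K.one_mem, 1, K.one_mem, by simp⟩
  mul_mem' := by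
    rintro a a' ⟨ha, b, hb, e⟩ ⟨ha', b', hb', e'⟩
    exact ⟨K.mul_mem ha ha', b * b', K.mul_mem hb hb', by
      rw [map_mul, map_mul, e, e', (hc b hb b' hb').mul_pow]⟩
  inv_mem' := by
    rintro a ⟨ha, b, hb, e⟩
    exact ⟨K.inv_mem ha, b⁻¹, K.inv_mem hb, by rw [map_inv, map_inv, e, inv_pow]⟩

theorem pw_normal (f : Q →* U) (K : Subgroup Q) [hK : K.Normal]
    (hc : ∀ a ∈ K, ∀ b ∈ K, Commute (f a) (f b)) (P : ℕ) : (pw f K hc P).Normal := by
  refine ⟨?_⟩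
  rintro a ⟨ha, b, hb, e⟩ g
  refine ⟨hK.conj_mem a ha g, g * b * g⁻¹, hK.conj_mem b hb g, ?_⟩
  simp only [map_mul, map_inv, e, conj_pow]

theorem fin_map (f : Q →* U) (K : Subgroup Q) (hF : K.FG)
    (hc : ∀ a ∈ K, ∀ b ∈ K, Commute (f a) (f b)) {P : ℕ} (hP : 0 < P)
    (ht : ∀ a ∈ K, f a ^ P = 1) : Finite (K.map f) := by
  letI : CommGroup (K.map f) :=
    { (inferInstance : Group (K.map f)) with
      mul_comm := by
        rintro ⟨_, a, ha, rfl⟩ ⟨_, b, hb, rfl⟩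
        exact Subtype.ext (hc a ha b hb).eq }
  haveI : Group.FG (K.map f) := by
    rw [Group.fg_iff_subgroup_fg]
    obtain ⟨s, rfl⟩ := hF
    classical
    exact ⟨s.image f, by rw [Finset.coe_image, MonoidHom.map_closure]⟩
  refine CommGroup.finite_of_fg_torsion _ ?_
  rintro ⟨_, a, ha, rfl⟩
  exact isOfFinOrder_iff_pow_eq_one.2 ⟨P, hP, Subtype.ext (ht a ha)⟩

end Pigx

open Pigx in
theorem pig_st : PigSt.{u} := by
  intro Q M B ι _ _ _ ρ π hG hC P hP I y q hq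
  let f : Q →* (AddMonoid.End M)ˣ := ρ.toHomUnits
  have hc : ∀ a ∈ π.ker, ∀ b ∈ π.ker, Commute (f a) (f b) := fun a ha b hb =>
    Units.ext (hC a ha b hb).eq
  haveI := pw_normal f π.ker hc P
  let φ := QuotientGroup.mk' (pw f π.ker hc P)
  have hφ : ∀ a, φ a = 1 ↔ a ∈ pw f π.ker hc P := fun a => QuotientGroup.eq_one_iff a
  haveI : Finite (π.ker.map φ) := by
    refine fin_map φ π.ker (hG _) (fun a ha b hb => ?_) hP fun a ha => ?_
    · rw [← commutatorElement_eq_one_iff_commute, ← map_commutatorElement, hφ]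
      refine ⟨?_, 1, one_mem _, ?_⟩
      · rw [commutatorElement_def]
        exact mul_mem (mul_mem (mul_mem ha hb) (inv_mem ha)) (inv_mem hb)
      · rw [map_commutatorElement, commutatorElement_eq_one_iff_commute.2 (hc a ha b hb)]
        simp
    · rw [← map_pow, hφ]
      exact ⟨pow_mem ha P, a, ha, map_pow f a P⟩
  have hm : ∀ (j : ℕ) (x : I), y ^ j * (q x ^ j)⁻¹ ∈ π.ker := fun j x => by
    rw [MonoidHom.mem_ker, map_mul, map_inv, map_pow, map_pow, hq x x.2, mul_inv_cancel]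
  have key : ∀ j1 j2 : ℕ, j1 < j2 →
      (∀ x : I, φ (y ^ j1 * (q x ^ j1)⁻¹) = φ (y ^ j2 * (q x ^ j2)⁻¹)) →
      ∃ j : ℕ, 0 < j ∧ ∀ (k : ℕ), ∀ x ∈ I, ∃ a ∈ π.ker,
        ρ (y ^ (k * j) * (q x ^ (k * j))⁻¹) = ρ a ^ P := by
    intro j1 j2 hj he
    obtain ⟨j, rfl⟩ := Nat.exists_eq_add_of_lt hj
    refine ⟨j + 1, Nat.succ_pos j, fun k x hx => ?_⟩
    have e := he ⟨x, hx⟩
    simp only [map_mul, map_inv, map_pow] at e
    have e1 : φ y ^ (j + 1) = φ (q x) ^ (j + 1) := by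
      rw [add_assoc, pow_add (φ y), add_comm j1, pow_add (φ (q x)), mul_inv_rev, mul_assoc,
        mul_right_inj] at e
      have e2 : φ y ^ (j + 1) * (φ (q x) ^ j1)⁻¹ * (φ (q x) ^ (j + 1))⁻¹ =
          φ y ^ (j + 1) * (φ (q x) ^ (j + 1))⁻¹ * (φ (q x) ^ j1)⁻¹ := by
        rw [mul_assoc, mul_assoc, ← mul_inv_rev, ← mul_inv_rev, ← pow_add, ← pow_add,
          add_comm j1]
      rw [← mul_assoc, e2] at e
      have e3 : φ y ^ (j + 1) * (φ (q x) ^ (j + 1))⁻¹ = 1 :=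
        mul_right_cancel (b := (φ (q x) ^ j1)⁻¹) (by rw [one_mul]; exact e.symm)
      exact mul_inv_eq_one.1 e3
    have e4 : φ (y ^ (k * (j + 1)) * (q x ^ (k * (j + 1)))⁻¹) = 1 := by
      simp only [map_mul, map_inv, map_pow]
      rw [mul_comm k, pow_mul, pow_mul, e1, mul_inv_cancel]
    obtain ⟨-, b, hb, e5⟩ := (hφ _).1 e4
    exact ⟨b, hb, congrArg Units.val e5⟩
  obtain ⟨j1, j2, hne, he⟩ := Finite.exists_ne_map_eq_of_infinite
    (fun (j : ℕ) (x : I) => (⟨φ (y ^ j * (q x ^ j)⁻¹), Subgroup.mem_map_of_mem φ (hm j x)⟩ :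
      π.ker.map φ))
  have he' : ∀ x : I, φ (y ^ j1 * (q x ^ j1)⁻¹) = φ (y ^ j2 * (q x ^ j2)⁻¹) := fun x =>
    congrArg Subtype.val (congrFun he x)
  rcases lt_or_gt_of_ne hne with h | h
  · exact key j1 j2 h he'
  · exact key j2 j1 h fun x => (he' x).symm

end Pool.Agent.Cdim
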