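import Pool.Agent.Lib.MP_721660_al.CD.St

namespace Pool.Agent.Cdim

universe u

namespace Relx

variable {R M ι : Type u} [CommRing R] [AddCommGroup M] [Module R M]

/-- A nontrivial relation with coefficients in the `p ^ l`-th powers. -/
def Dep (p : ℕ) (v : ι → M) (R : Type u) [CommRing R] [Module R M] (l : ℕ) (I : Finset ι) :
    Prop :=
  ∃ c : ι → R, (∃ x ∈ I, c x ≠ 0) ∧ ∑ x ∈ I, c x ^ p ^ l • v x = 0

theorem lower {p : ℕ} {v : ι → M} {I : Finset ι} {l j : ℕ} {c : ι → R}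
    (h : ∑ x ∈ I, c x ^ p ^ (l + j) • v x = 0) :
    ∑ x ∈ I, (c x ^ p ^ j) ^ p ^ l • v x = 0 := by
  rw [← h]
  refine Finset.sum_congr rfl fun x _ => ?_
  rw [← pow_mul, ← pow_add, add_comm j l]

theorem anti [IsDomain R] {p : ℕ} {v : ι → M} {I : Finset ι} {l l' : ℕ} (hl : l ≤ l')
    (h : Dep p v R l' I) : Dep p v R l I := by
  obtain ⟨j, rfl⟩ := Nat.exists_eq_add_of_le hl
  obtain ⟨c, ⟨x, hx, hc⟩, h⟩ := h
  exact ⟨fun y => c y ^ p ^ j, ⟨x, hx, pow_ne_zero _ hc⟩, lower h⟩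

theorem allz [DecidableEq ι] {p : ℕ} (hp : p ≠ 0) {v : ι → M} {I : Finset ι} {l : ℕ}
    (hI : ∀ x ∈ I, ¬ Dep p v R l (I.erase x)) {c : ι → R}
    (h : ∑ x ∈ I, c x ^ p ^ l • v x = 0) {x : ι} (hx : x ∈ I) (h0 : c x = 0) :
    ∀ y ∈ I, c y = 0 := by
  intro y hy
  by_contra hne
  refine hI x hx ⟨c, ⟨y, Finset.mem_erase.2 ⟨fun e => hne (e ▸ h0), hy⟩, hne⟩, ?_⟩
  rw [← Finset.add_sum_erase I _ hx, h0, zero_pow (pow_ne_zero l hp), zero_smul, zero_add] at h
  exact h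

theorem prop [DecidableEq ι] {p : ℕ} [Fact p.Prime] [_root_.CharP R p] {v : ι → M}
    {I : Finset ι} {l : ℕ} (hI : ∀ x ∈ I, ¬ Dep p v R l (I.erase x)) {c c' : ι → R}
    (h : ∑ x ∈ I, c x ^ p ^ l • v x = 0) (h' : ∑ x ∈ I, c' x ^ p ^ l • v x = 0)
    {i x : ι} (hi : i ∈ I) (hx : x ∈ I) : c' i * c x = c i * c' x := by
  have hp : p ≠ 0 := (Fact.out : p.Prime).ne_zero
  have hd : ∑ y ∈ I, (c' i * c y - c i * c' y) ^ p ^ l • v y = 0 := by
    have e : ∀ y ∈ I, (c' i * c y - c i * c' y) ^ p ^ l • v y =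
        c' i ^ p ^ l • (c y ^ p ^ l • v y) - c i ^ p ^ l • (c' y ^ p ^ l • v y) := fun y _ => by
      rw [sub_pow_char_pow, mul_pow, mul_pow, sub_smul, mul_smul, mul_smul]
    rw [Finset.sum_congr rfl e, Finset.sum_sub_distrib, ← Finset.smul_sum, ← Finset.smul_sum, h,
      h', smul_zero, smul_zero, sub_zero]
  exact sub_eq_zero.1 (allz (c := fun y => c' i * c y - c i * c' y) hp hI hd hi
    (by ring) x hx)

end Relx

open Relx in
theorem rel_st (h : PerfSt.{u}) : RelSt.{u} := by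
  intro R M ι _ _ _ _ _ p hp hp0 htf s v hs hv hsum
  classical
  have : Fact p.Prime := ⟨hp⟩
  have : _root_.CharP R p := (CharP.charP_iff_prime_eq_zero hp).2 hp0
  have hall : ∀ l, Dep p v R l s := fun l => by
    obtain ⟨x, hx⟩ := hs
    exact ⟨fun _ => 1, ⟨x, hx, one_ne_zero⟩, by simpa using hsum⟩
  obtain ⟨I, hI, hmin⟩ := Finset.exists_min_image
    (s.powerset.filter fun J => ∀ l, Dep p v R l J) Finset.card
    ⟨s, Finset.mem_filter.2 ⟨Finset.mem_powerset.2 subset_rfl, hall⟩⟩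
  obtain ⟨hIs, hID⟩ := Finset.mem_filter.1 hI
  have hIs' : I ⊆ s := Finset.mem_powerset.1 hIs
  have hx : ∀ x, ∃ l, x ∈ I → ¬ Dep p v R l (I.erase x) := fun x => by
    by_cases hxI : x ∈ I
    · by_contra hc
      push Not at hc
      have := hmin (I.erase x) (Finset.mem_filter.2
        ⟨Finset.mem_powerset.2 ((Finset.erase_subset x I).trans hIs'), fun l => (hc l).2⟩)
      exact absurd (Finset.card_erase_lt_of_mem hxI) (not_lt.2 this)
    · exact ⟨0, fun k => absurd k hxI⟩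
  choose L hL using hx
  have h0 : ∀ x ∈ I, ¬ Dep p v R (I.sup L) (I.erase x) := fun x hxI k =>
    hL x hxI (anti (Finset.le_sup hxI) k)
  obtain ⟨c, ⟨i, hi, hci⟩, hc⟩ := hID (I.sup L)
  have hk : ∃ k ∈ I, i ≠ k := by
    by_contra hno
    push Not at hno
    have e : I = {i} := Finset.eq_singleton_iff_unique_mem.2 ⟨hi, fun k hk => (hno k hk).symm⟩
    have hc' := hc
    generalize I.sup L = l at hc'
    rw [e, Finset.sum_singleton] at hc'
    rcases htf _ _ hc' with e1 | e1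
    · exact hci (pow_eq_zero_iff (pow_ne_zero _ hp.ne_zero) |>.1 e1)
    · exact hv i (hIs' hi) e1
  obtain ⟨k, hk, hik⟩ := hk
  have hck : c k ≠ 0 := fun e => hci (allz hp.ne_zero h0 hc hk e i hi)
  obtain ⟨t, ht, hct⟩ := h R p hp hp0 (c i) (c k) hci hck fun l => by
    obtain ⟨e, ⟨y, hy, hey⟩, he⟩ := hID (I.sup L + l)
    have he' := lower he
    refine ⟨e i, e k, fun e0 => ?_, ?_⟩
    · exact pow_ne_zero _ hey (allz (c := fun z => e z ^ p ^ l) hp.ne_zero h0 he' hi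
        (by simp only [e0]; exact zero_pow (pow_ne_zero _ hp.ne_zero)) y hy)
    · rw [mul_comm]
      exact prop (c' := fun z => e z ^ p ^ l) h0 hc he' hi hk
  refine ⟨I, hIs', i, hi, k, hk, hik, I.sup L, t, ht, ⟨c, hci, hc⟩, fun c' hc' => ?_⟩
  have e := congrArg (fun z => z ^ t) (prop h0 hc hc' hi hk)
  simp only [mul_pow] at e
  rw [← hct, mul_comm] at e
  exact mul_left_cancel₀ (pow_ne_zero t hci) e

end Pool.Agent.Cdim
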