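import Pool.Agent.Lib.MP_721660_al.CD.St

namespace Pool.Agent.Cdim

universe u

namespace Ringx
variable {Q M B : Type u} [Group Q] [AddCommGroup M] [AddCommGroup B]
  (ρ : Act Q M) (π : Q →* Multiplicative B)

theorem comm (h : Comm ρ π) (x y : AddMonoid.End M) (hx : x ∈ Rg ρ π) (hy : y ∈ Rg ρ π) :
    Commute x y := by
  have h1 : ∀ a ∈ π.ker, Commute (ρ a) y := by
    intro a ha
    induction hy using Subring.closure_induction with
    | mem z hz => obtain ⟨b, hb, rfl⟩ := hz; exact h a ha b hb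
    | zero => exact Commute.zero_right _
    | one => exact Commute.one_right _
    | add z w _ _ hz hw => exact hz.add_right hw
    | neg z _ hz => exact hz.neg_right
    | mul z w _ _ hz hw => exact hz.mul_right hw
  induction hx using Subring.closure_induction with
  | mem z hz => obtain ⟨b, hb, rfl⟩ := hz; exact h1 b hb
  | zero => exact Commute.zero_left _
  | one => exact Commute.one_left _
  | add z w _ _ hz hw => exact hz.add_left hw
  | neg z _ hz => exact hz.neg_left
  | mul z w _ _ hz hw => exact hz.mul_left hw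

theorem conj (g : Q) (x : AddMonoid.End M) (hx : x ∈ Rg ρ π) : ρ g * x * ρ g⁻¹ ∈ Rg ρ π := by
  induction hx using Subring.closure_induction with
  | mem z hz =>
    obtain ⟨b, hb, rfl⟩ := hz
    exact Subring.subset_closure ⟨g * b * g⁻¹, (MonoidHom.normal_ker π).conj_mem b hb g, by
      rw [map_mul, map_mul]⟩
  | zero => rw [mul_zero, zero_mul]; exact zero_mem _
  | one => rw [mul_one, ← map_mul, mul_inv_cancel, map_one]; exact one_mem _
  | add z w _ _ hz hw => rw [mul_add, add_mul]; exact add_mem hz hw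
  | neg z _ hz => rw [mul_neg, neg_mul]; exact neg_mem hz
  | mul z w _ _ hz hw =>
    have e : ρ g * (z * w) * ρ g⁻¹ = ρ g * z * ρ g⁻¹ * (ρ g * w * ρ g⁻¹) := by
      have e1 : ρ g⁻¹ * ρ g = 1 := by rw [← map_mul, inv_mul_cancel, map_one]
      calc ρ g * (z * w) * ρ g⁻¹ = ρ g * z * (ρ g⁻¹ * ρ g) * w * ρ g⁻¹ := by
            rw [e1, mul_one, mul_assoc (ρ g) z w]
        _ = _ := by simp only [mul_assoc]
    rw [e]
    exact mul_mem hz hw

/-- the operator of an element of the kernel -/
def emb (a : π.ker) : Rg ρ π := ⟨ρ a, Subring.subset_closure ⟨a, a.2, rfl⟩⟩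

theorem fin (h : GMax Q) : Algebra.FiniteType ℤ (Rg ρ π) := by
  classical
  have h1 : Monoid.FG π.ker :=
    Group.fg_iff_monoid_fg.1 ((Group.fg_iff_subgroup_fg _).2 (h π.ker))
  obtain ⟨S, hS⟩ := h1.fg_top
  refine ⟨⟨S.image (emb ρ π), eq_top_iff.2 fun x _ => ?_⟩⟩
  have h2 : ∀ a : π.ker, emb ρ π a ∈ Algebra.adjoin ℤ ((S.image (emb ρ π) : Finset _) :
      Set (Rg ρ π)) := by
    intro a
    have ha : a ∈ Submonoid.closure (S : Set π.ker) := hS ▸ Submonoid.mem_top a
    induction ha using Submonoid.closure_induction with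
    | mem z hz => exact Algebra.subset_adjoin (Finset.mem_coe.2 (Finset.mem_image_of_mem _ hz))
    | one =>
      have e : emb ρ π 1 = 1 := Subtype.ext (map_one ρ)
      rw [e]; exact one_mem _
    | mul z w _ _ hz hw =>
      have e : emb ρ π (z * w) = emb ρ π z * emb ρ π w := Subtype.ext (map_mul ρ _ _)
      rw [e]; exact mul_mem hz hw
  obtain ⟨x, hx⟩ := x
  induction hx using Subring.closure_induction with
  | mem z hz => obtain ⟨b, hb, rfl⟩ := hz; exact h2 ⟨b, hb⟩
  | zero => exact zero_mem _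
  | one => exact one_mem _
  | add z w _ _ hz hw => exact add_mem (hz trivial) (hw trivial)
  | neg z _ hz => exact neg_mem (hz trivial)
  | mul z w _ _ hz hw => exact mul_mem (hz trivial) (hw trivial)

end Ringx

theorem ring_st : RingSt.{u} := by
  intro Q M B _ _ _ ρ π hQ hC
  let inst : CommRing (Rg ρ π) :=
    { (inferInstance : Ring (Rg ρ π)) with
      mul_comm := fun x y => Subtype.ext (Ringx.comm ρ π hC x y x.2 y.2).eq }
  refine ⟨Rg ρ π, inst, Module.compHom M (Rg ρ π).subtype, (Rg ρ π).subtype,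
    Subtype.val_injective, Subring.range_subtype _, fun _ _ => rfl, Ringx.fin ρ π hQ,
    fun g r => ⟨⟨_, Ringx.conj ρ π g r r.2⟩, rfl⟩⟩

end Pool.Agent.Cdim
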