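import Pool.Agent.Lib.MP_721660_al.CD.All
import Pool.Agent.Lib.MP_721660_al.CD.IndN
import Pool.Agent.Lib.MP_721660_al.CD.IndE
import Pool.Agent.Lib.MP_721660_al.CD.Perf1
import Pool.Agent.Lib.MP_721660_al.CD.Perf
import Pool.Agent.Lib.MP_721660_al.CD.Rel
import Pool.Agent.Lib.MP_721660_al.CD.Ring
import Pool.Agent.Lib.MP_721660_al.CD.Pig
import Pool.Agent.Lib.MP_721660_al.CD.Core
import Pool.Agent.Lib.MP_721660_al.CD.Ap
import Pool.Agent.Lib.MP_721660_al.CD.Op
import Pool.Agent.Lib.MP_721660_al.CD.Case2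
import Pool.Agent.Lib.MP_721660_al.CD.Case3
import Pool.Agent.Lib.MP_721660_al.CD.Main

namespace Pool.Agent.Cdim

universe u

theorem core_all : CoreSt.{u} := core_st ring_st (rel_st (perf_st perf1_st)) pig_st

theorem meta_all : MetaSt.{u} :=
  meta_st (main_st gen_all basic_st (ap_st ring_st) case2_st
    (case3_st core_all (op_st per_all pmax_st) indn_st inde_st pmax_st) indn_st inde_st root_st
    pmax_st)

theorem bdd_meta (G Q : Type u) [Group G] [Group Q] (f : G →* Q)
    (hfg : Group.FG G) (hf : Function.Surjective f)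
    (hA : ∀ a ∈ f.ker, ∀ b ∈ f.ker, Commute a b) (hm : GMax Q)
    (h : ∀ x ∈ commutator Q, ∀ y ∈ commutator Q, Commute x y) : Bdd G :=
  outer G Q f hfg hf hA (solvable_of_meta Q h) hm (meta_all Q hm h)

end Pool.Agent.Cdim
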