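import Pool.Agent.Lib.MP_721660_al.CD.St

namespace Pool.Agent.Cdim

universe u

namespace Basicx

variable {Q M : Type u} [Group Q] [AddCommGroup M]

theorem maxi (ρ : Act Q M) (hN : Noeth ρ) (S : Set (AddSubgroup M)) (hS : S.Nonempty)
    (hI : ∀ W ∈ S, Inv ρ W) : ∃ W ∈ S, ∀ W' ∈ S, W ≤ W' → W' = W := by
  by_contra hcon
  push Not at hcon
  choose! nx h1 h2 h3 using hcon
  obtain ⟨W0, hW0⟩ := hS
  let c : ℕ → AddSubgroup M := fun n => nx^[n] W0
  have hc : ∀ n, c (n + 1) = nx (c n) := fun n => Function.iterate_succ_apply' nx n W0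
  have hmem : ∀ n, c n ∈ S := by
    intro n
    induction n with
    | zero => exact hW0
    | succ n ih => rw [hc]; exact h1 _ ih
  have hmono : Monotone c := monotone_nat_of_le_succ fun n => by rw [hc]; exact h2 _ (hmem n)
  obtain ⟨n, hn⟩ := hN c (fun i => hI _ (hmem i)) hmono
  have := hn (n + 1) (Nat.le_succ n)
  rw [hc] at this
  exact h3 _ (hmem n) this

/-- elements killed by `k`. -/
def tor (M : Type u) [AddCommGroup M] (k : ℕ) : AddSubgroup M where
  carrier := {m | k • m = 0}
  zero_mem' := smul_zero k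
  add_mem' := by
    intro a b ha hb
    show k • (a + b) = 0
    rw [smul_add, ha, hb, add_zero]
  neg_mem' := by
    intro a ha
    show k • (-a) = 0
    rw [smul_neg, ha, neg_zero]

theorem tor_le {k l : ℕ} (h : k ∣ l) : tor M k ≤ tor M l := by
  obtain ⟨c, rfl⟩ := h
  intro m hm
  have hm' : k • m = 0 := hm
  show (k * c) • m = 0
  rw [mul_comm, mul_smul, hm', smul_zero]

end Basicx

open Basicx in
theorem basic_st : BasicSt.{u} := by
  intro Q M _ _ ρ hN
  classical
  refine ⟨?_, ?_, maxi ρ hN, ?_, ?_⟩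
  · intro W h V hV hmono
    obtain ⟨n, hn⟩ := hN (fun i => (V i).map W.subtype) (by
      rintro i g _ ⟨m, hm, rfl⟩
      exact ⟨sub ρ W h g m, hV i g m hm, rfl⟩) (fun i j hij => AddSubgroup.map_mono (hmono hij))
    exact ⟨n, fun i hi => AddSubgroup.map_injective W.subtype_injective (hn i hi)⟩
  · intro W h V hV hmono
    obtain ⟨n, hn⟩ := hN (fun i => (V i).comap (QuotientAddGroup.mk' W)) (by
      intro i g m hm
      exact hV i g _ hm) (fun i j hij => AddSubgroup.comap_mono (hmono hij))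
    exact ⟨n, fun i hi =>
      AddSubgroup.comap_injective (QuotientAddGroup.mk'_surjective W) (hn i hi)⟩
  · obtain ⟨n, hn⟩ := hN (fun i => tor M i.factorial) (by
      intro i g m hm
      have hm' : i.factorial • m = 0 := hm
      show i.factorial • ρ g m = 0
      rw [← map_nsmul, hm', map_zero]) (fun i j hij => tor_le (Nat.factorial_dvd_factorial hij))
    refine ⟨n.factorial, Nat.factorial_pos n, fun m k hk hm => ?_⟩
    have h1 : m ∈ tor M (max k n).factorial :=
      tor_le (Nat.dvd_factorial hk (le_max_left k n)) hm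
    have h2 := hn (max k n) (le_max_right k n)
    have h3 : m ∈ tor M n.factorial := h2 ▸ h1
    exact h3
  · obtain ⟨W, ⟨s, rfl⟩, hmax⟩ := maxi ρ hN
      (Set.range fun s : Finset M => spanOn ρ ⊤ (s : Set M)) ⟨_, ∅, rfl⟩ (by
        rintro _ ⟨s, rfl⟩ g m hm
        exact invOn_spanOn ρ ⊤ _ g trivial m hm)
    refine ⟨s, eq_top_iff.2 fun m _ => ?_⟩
    have hle : spanOn ρ ⊤ (s : Set M) ≤ spanOn ρ ⊤ ((insert m s : Finset M) : Set M) :=
      spanOn_le (invOn_spanOn ρ ⊤ _) (fun x hx => subset_spanOn ρ ⊤ _ (by simp [hx]))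
    have := hmax _ ⟨insert m s, rfl⟩ hle
    have hm : m ∈ spanOn ρ ⊤ ((insert m s : Finset M) : Set M) :=
      subset_spanOn ρ ⊤ _ (by simp)
    simp only at this
    rwa [this] at hm

end Pool.Agent.Cdim
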