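import Pool.Agent.Lib.MP_721660_al.CD.St

/-! Prime case without fixed vectors outside the isolator of the kernel. -/

namespace Pool.Agent.Cdim

universe u

namespace Case2x

theorem tors (B : Type u) [AddCommGroup B] [Module.Finite ℤ B] :
    ∃ t : ℕ, 0 < t ∧ ∀ b : Multiplicative B, IsOfFinOrder b → b ^ t = 1 := by
  have hf : Finite (Submodule.torsion ℤ B) :=
    Module.finite_of_fg_torsion _ (Submodule.torsion_isTorsion (R := ℤ) (M := B))
  refine ⟨Nat.card (Submodule.torsion ℤ B), Nat.card_pos, fun b hb => ?_⟩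
  obtain ⟨n, hn, h⟩ := isOfFinOrder_iff_pow_eq_one.mp hb
  have hm : b.toAdd ∈ Submodule.torsion ℤ B := by
    refine (Submodule.mem_torsion_iff _).mpr
      ⟨⟨(n : ℤ), mem_nonZeroDivisors_of_ne_zero (by exact_mod_cast hn.ne')⟩, ?_⟩
    have := congrArg Multiplicative.toAdd h
    rw [toAdd_pow, toAdd_one] at this
    simpa [Submonoid.smul_def] using this
  have k := congrArg Subtype.val (card_nsmul_eq_zero' (x := (⟨_, hm⟩ : Submodule.torsion ℤ B)))
  apply Multiplicative.toAdd.injective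
  rw [toAdd_pow, toAdd_one]
  simpa using k

variable {Q M B : Type u} [Group Q] [AddCommGroup M] [AddCommGroup B]

theorem inv_pow_one (ρ : Act Q M) {a : Q} {n : ℕ} (h : ρ a ^ n = 1) : ρ a⁻¹ ^ n = 1 := by
  have k : ρ a ^ n * ρ a⁻¹ ^ n = 1 := by
    rw [← map_pow, ← map_pow, ← map_mul, inv_pow, mul_inv_cancel, map_one]
  rwa [h, one_mul] at k

theorem expo (ρ : Act Q M) (π : Q →* Multiplicative B) (hQ : GMax Q) (hC : Comm ρ π) :
    ∃ t : ℕ, 0 < t ∧ ∀ a ∈ π.ker, IsOfFinOrder (ρ a) → ρ a ^ t = 1 := by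
  let T : Subgroup Q :=
    { carrier := {a | a ∈ π.ker ∧ IsOfFinOrder (ρ a)}
      one_mem' := ⟨one_mem _, by rw [map_one]; exact IsOfFinOrder.one⟩
      mul_mem' := fun {a b} ha hb => ⟨mul_mem ha.1 hb.1, by
        rw [map_mul]; exact (hC a ha.1 b hb.1).isOfFinOrder_mul ha.2 hb.2⟩
      inv_mem' := fun {a} ha => ⟨inv_mem ha.1, by
        obtain ⟨n, hn, h⟩ := isOfFinOrder_iff_pow_eq_one.mp ha.2
        exact isOfFinOrder_iff_pow_eq_one.mpr ⟨n, hn, inv_pow_one ρ h⟩⟩ }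
  obtain ⟨S, hS⟩ := hQ T
  have hST : ∀ s ∈ S, s ∈ T := fun s hs => hS ▸ Subgroup.subset_closure hs
  refine ⟨∏ s ∈ S, orderOf (ρ s), Finset.prod_pos fun s hs => (hST s hs).2.orderOf_pos,
    fun a ha hf => ?_⟩
  have haT : a ∈ Subgroup.closure (S : Set Q) := hS ▸ (⟨ha, hf⟩ : a ∈ T)
  clear ha hf
  induction haT using Subgroup.closure_induction with
  | mem x hx => exact orderOf_dvd_iff_pow_eq_one.mp (Finset.dvd_prod_of_mem _ hx)
  | one => rw [map_one, one_pow]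
  | mul x y hx hy h1 h2 =>
    have x1 : x ∈ T := hS ▸ hx
    have y1 : y ∈ T := hS ▸ hy
    rw [map_mul, (hC x x1.1 y y1.1).mul_pow, h1, h2, one_mul]
  | inv x _ h => exact inv_pow_one ρ h

theorem fix_pow (ρ : Act Q M) {q : Q} {m : M} (h : ρ q m = m) (k : ℕ) : ρ (q ^ k) m = m := by
  induction k with
  | zero => rw [pow_zero, act_one]
  | succ k ih => rw [pow_succ, act_mul, h, ih]

end Case2x

open Case2x in
theorem case2_st : Case2St.{u} := by
  intro Q M B _ _ _ _ ρ π hQ hC hT h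
  obtain ⟨t, t0, ht⟩ := tors B
  obtain ⟨t', t1, ht'⟩ := expo ρ π hQ hC
  refine ⟨t * t', Nat.mul_pos t0 t1, fun q m n hn hfix => ?_⟩
  by_cases hm : m = 0
  · rw [hm, map_zero]
  have f1 : IsOfFinOrder (π q) := by
    by_contra hc
    refine hm (h (q ^ n) (fun k => hc ?_) m hfix)
    rw [map_pow] at k
    exact k.of_pow hn.ne'
  have a1 : q ^ t ∈ π.ker := by rw [MonoidHom.mem_ker, map_pow, ht _ f1]
  have a2 : ρ ((q ^ t) ^ n) m = m := by
    rw [← pow_mul, mul_comm, pow_mul]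
    exact fix_pow ρ hfix t
  have a3 : ρ ((q ^ t) ^ n) - 1 ∈ Rg ρ π :=
    sub_mem (Subring.subset_closure ⟨_, pow_mem a1 n, rfl⟩) (one_mem _)
  have a4 := (hT _ a3 m (by
    show ρ ((q ^ t) ^ n) m - m = 0
    rw [a2, sub_self])).resolve_right hm
  have a5 : IsOfFinOrder (ρ (q ^ t)) :=
    isOfFinOrder_iff_pow_eq_one.mpr ⟨n, hn, by rw [← map_pow]; exact sub_eq_zero.mp a4⟩
  rw [pow_mul, map_pow, ht' _ a1 a5]
  rfl

end Pool.Agent.Cdim
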