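import Mathlib

/-! Definitions for the bounded-chain theorem on centralisers (MP_721660_al). -/

namespace Pool.Agent.Cdim

universe u

/-- A group acting on an abelian group by additive maps. -/
abbrev Act (Q M : Type u) [Group Q] [AddCommGroup M] := Q →* AddMonoid.End M

section
variable {Q M : Type u} [Group Q] [AddCommGroup M]

/-- `W` is invariant under the subgroup `H`. -/
def InvOn (ρ : Act Q M) (H : Subgroup Q) (W : AddSubgroup M) : Prop :=
  ∀ g ∈ H, ∀ m ∈ W, ρ g m ∈ W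

/-- `W` is invariant under all of `Q`. -/
def Inv (ρ : Act Q M) (W : AddSubgroup M) : Prop := ∀ g, ∀ m ∈ W, ρ g m ∈ W

theorem act_mul (ρ : Act Q M) (g h : Q) (m : M) : ρ (g * h) m = ρ g (ρ h m) := by
  rw [map_mul]; rfl

theorem act_one (ρ : Act Q M) (m : M) : ρ 1 m = m := by
  rw [map_one]; rfl

theorem act_inv_act (ρ : Act Q M) (g : Q) (m : M) : ρ g⁻¹ (ρ g m) = m := by
  rw [← act_mul, inv_mul_cancel, act_one]

theorem act_act_inv (ρ : Act Q M) (g : Q) (m : M) : ρ g (ρ g⁻¹ m) = m := by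
  rw [← act_mul, mul_inv_cancel, act_one]

/-- The action on an invariant subgroup. -/
def sub (ρ : Act Q M) (W : AddSubgroup M) (h : Inv ρ W) : Act Q W where
  toFun g := (((ρ g : M →+ M).comp W.subtype).codRestrict W (fun m => h g m m.2) : W →+ W)
  map_one' := by
    refine AddMonoidHom.ext fun m => Subtype.ext ?_
    exact act_one ρ m
  map_mul' g g' := by
    refine AddMonoidHom.ext fun m => Subtype.ext ?_
    exact act_mul ρ g g' m

@[simp] theorem sub_coe (ρ : Act Q M) (W : AddSubgroup M) (h : Inv ρ W) (g : Q) (m : W) :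
    ((sub ρ W h g m : W) : M) = ρ g m := rfl

/-- The action on the quotient by an invariant subgroup. -/
def quo (ρ : Act Q M) (W : AddSubgroup M) (h : Inv ρ W) : Act Q (M ⧸ W) where
  toFun g := (QuotientAddGroup.map W W (ρ g : M →+ M) (fun m hm => h g m hm) : M ⧸ W →+ M ⧸ W)
  map_one' := by
    refine AddMonoidHom.ext fun m => ?_
    obtain ⟨m, rfl⟩ := QuotientAddGroup.mk_surjective m
    exact congrArg (QuotientAddGroup.mk : M → M ⧸ W) (act_one ρ m)
  map_mul' g g' := by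
    refine AddMonoidHom.ext fun m => ?_
    obtain ⟨m, rfl⟩ := QuotientAddGroup.mk_surjective m
    exact congrArg (QuotientAddGroup.mk : M → M ⧸ W) (act_mul ρ g g' m)

@[simp] theorem quo_mk (ρ : Act Q M) (W : AddSubgroup M) (h : Inv ρ W) (g : Q) (m : M) :
    quo ρ W h g (QuotientAddGroup.mk m) = (QuotientAddGroup.mk (ρ g m) : M ⧸ W) := rfl

/-- Restriction of the action to a subgroup. -/
def res (ρ : Act Q M) (H : Subgroup Q) : Act H M := ρ.comp H.subtype

@[simp] theorem res_apply (ρ : Act Q M) (H : Subgroup Q) (g : H) : res ρ H g = ρ g := rfl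

theorem InvOn.inv_res {ρ : Act Q M} {H : Subgroup Q} {W : AddSubgroup M} (h : InvOn ρ H W) :
    Inv (res ρ H) W := fun g m hm => h g g.2 m hm

/-- The action of `H` on an `H`-invariant subgroup `U`. -/
def part (ρ : Act Q M) (H : Subgroup Q) (U : AddSubgroup M) (h : InvOn ρ H U) : Act H U :=
  sub (res ρ H) U h.inv_res

@[simp] theorem part_coe (ρ : Act Q M) (H : Subgroup Q) (U : AddSubgroup M) (h : InvOn ρ H U)
    (g : H) (m : U) : ((part ρ H U h g m : U) : M) = ρ g m := rfl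

/-- The `H`-submodule generated by a set. -/
def spanOn (ρ : Act Q M) (H : Subgroup Q) (s : Set M) : AddSubgroup M :=
  AddSubgroup.closure {x | ∃ g ∈ H, ∃ m ∈ s, x = ρ g m}

theorem invOn_spanOn (ρ : Act Q M) (H : Subgroup Q) (s : Set M) : InvOn ρ H (spanOn ρ H s) := by
  intro g hg m hm
  induction hm using AddSubgroup.closure_induction with
  | mem x hx =>
    obtain ⟨g', hg', m', hm', rfl⟩ := hx
    exact AddSubgroup.subset_closure ⟨g * g', H.mul_mem hg hg', m', hm', (act_mul ρ g g' m').symm⟩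
  | zero => rw [map_zero]; exact zero_mem _
  | add x y _ _ hx hy => rw [map_add]; exact add_mem hx hy
  | neg x _ hx => rw [map_neg]; exact neg_mem hx

theorem subset_spanOn (ρ : Act Q M) (H : Subgroup Q) (s : Set M) : s ⊆ spanOn ρ H s :=
  fun m hm => AddSubgroup.subset_closure ⟨1, H.one_mem, m, hm, (act_one ρ m).symm⟩

theorem spanOn_le {ρ : Act Q M} {H : Subgroup Q} {s : Set M} {W : AddSubgroup M}
    (hW : InvOn ρ H W) (hs : s ⊆ W) : spanOn ρ H s ≤ W := by
  refine (AddSubgroup.closure_le _).2 ?_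
  rintro x ⟨g, hg, m, hm, rfl⟩
  exact hW g hg m (hs hm)

/-- ACC on invariant subgroups. -/
def Noeth (ρ : Act Q M) : Prop :=
  ∀ W : ℕ → AddSubgroup M, (∀ i, Inv ρ (W i)) → Monotone W → ∃ n, ∀ i, n ≤ i → W i = W n

/-- ACC on `H`-invariant subgroups of `U`. -/
def NoethOn (ρ : Act Q M) (H : Subgroup Q) (U : AddSubgroup M) : Prop :=
  ∀ W : ℕ → AddSubgroup M, (∀ i, InvOn ρ H (W i)) → (∀ i, W i ≤ U) → Monotone W →
    ∃ n, ∀ i, n ≤ i → W i = W n

/-- Eremitic module: one exponent serves all periodic points. -/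
def Er (ρ : Act Q M) : Prop :=
  ∃ e : ℕ, 0 < e ∧ ∀ (q : Q) (m : M) (n : ℕ), 0 < n → ρ (q ^ n) m = m → ρ (q ^ e) m = m

/-- The same for elements of `H` and points of `U`. -/
def ErOn (ρ : Act Q M) (H : Subgroup Q) (U : AddSubgroup M) : Prop :=
  ∃ e : ℕ, 0 < e ∧ ∀ q ∈ H, ∀ m ∈ U, ∀ n : ℕ, 0 < n → ρ (q ^ n) m = m → ρ (q ^ e) m = m

/-- The translates `g U` over distinct left cosets `g H` are independent. -/
def Indep (ρ : Act Q M) (H : Subgroup Q) (U : AddSubgroup M) : Prop :=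
  ∀ (s : Finset Q) (v : Q → M), (∀ g ∈ s, v g ∈ U) →
    (∀ g ∈ s, ∀ g' ∈ s, g⁻¹ * g' ∈ H → g = g') → ∑ g ∈ s, ρ g (v g) = 0 → ∀ g ∈ s, v g = 0

theorem er_part_iff (ρ : Act Q M) (H : Subgroup Q) (U : AddSubgroup M) (h : InvOn ρ H U) :
    Er (part ρ H U h) ↔ ErOn ρ H U := by
  constructor
  · rintro ⟨e, he, hE⟩
    refine ⟨e, he, fun q hq m hm n hn hfix => ?_⟩
    exact congrArg Subtype.val (hE ⟨q, hq⟩ ⟨m, hm⟩ n hn (Subtype.ext hfix))
  · rintro ⟨e, he, hE⟩
    refine ⟨e, he, fun q m n hn hfix => Subtype.ext ?_⟩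
    exact hE q q.2 m m.2 n hn (congrArg Subtype.val hfix)

theorem er_sub_iff (ρ : Act Q M) (U : AddSubgroup M) (h : Inv ρ U) :
    Er (sub ρ U h) ↔ ErOn ρ ⊤ U := by
  constructor
  · rintro ⟨e, he, hE⟩
    refine ⟨e, he, fun q _ m hm n hn hfix => ?_⟩
    exact congrArg Subtype.val (hE q ⟨m, hm⟩ n hn (Subtype.ext hfix))
  · rintro ⟨e, he, hE⟩
    refine ⟨e, he, fun q m n hn hfix => Subtype.ext ?_⟩
    exact hE q trivial m m.2 n hn (congrArg Subtype.val hfix)

theorem er_quo_iff (ρ : Act Q M) (W : AddSubgroup M) (h : Inv ρ W) :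
    Er (quo ρ W h) ↔ ∃ e : ℕ, 0 < e ∧ ∀ (q : Q) (m : M) (n : ℕ), 0 < n →
      ρ (q ^ n) m - m ∈ W → ρ (q ^ e) m - m ∈ W := by
  constructor
  · rintro ⟨e, he, hE⟩
    refine ⟨e, he, fun q m n hn hfix => ?_⟩
    have := hE q (QuotientAddGroup.mk m) n hn
      (by rw [quo_mk]; exact (QuotientAddGroup.eq_iff_sub_mem).2 hfix)
    rw [quo_mk] at this
    exact (QuotientAddGroup.eq_iff_sub_mem).1 this
  · rintro ⟨e, he, hE⟩
    refine ⟨e, he, fun q m n hn hfix => ?_⟩
    obtain ⟨m, rfl⟩ := QuotientAddGroup.mk_surjective m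
    rw [quo_mk] at hfix ⊢
    exact (QuotientAddGroup.eq_iff_sub_mem).2
      (hE q m n hn ((QuotientAddGroup.eq_iff_sub_mem).1 hfix))

end

/-- The subgroup `p M`. -/
def pM (M : Type u) [AddCommGroup M] (p : ℕ) : AddSubgroup M where
  carrier := {m | ∃ y, m = p • y}
  zero_mem' := ⟨0, by simp⟩
  add_mem' := by rintro _ _ ⟨y, rfl⟩ ⟨z, rfl⟩; exact ⟨y + z, (smul_add p y z).symm⟩
  neg_mem' := by rintro _ ⟨y, rfl⟩; exact ⟨-y, by simp⟩

theorem mem_pM {M : Type u} [AddCommGroup M] {p : ℕ} {m : M} : m ∈ pM M p ↔ ∃ y, m = p • y :=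
  Iff.rfl

theorem inv_pM {Q M : Type u} [Group Q] [AddCommGroup M] (ρ : Act Q M) (p : ℕ) :
    Inv ρ (pM M p) := by
  rintro g _ ⟨y, rfl⟩
  exact ⟨ρ g y, map_nsmul (ρ g) p y⟩

/-- `W'/W` has no `p`-torsion, and its infinitely `p`-divisible elements are torsion. -/
def Good {M : Type u} [AddCommGroup M] (p : ℕ) (W W' : AddSubgroup M) : Prop :=
  (∀ x ∈ W', p • x ∈ W → x ∈ W) ∧
    ∀ x ∈ W', (∀ j : ℕ, ∃ y ∈ W', x - p ^ j • y ∈ W) → ∃ n : ℕ, 0 < n ∧ n • x ∈ W

/-- Every subgroup is finitely generated. -/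
def GMax (Q : Type u) [Group Q] : Prop := ∀ H : Subgroup Q, H.FG

/-- Eremitic group. -/
def GEr (Q : Type u) [Group Q] : Prop :=
  ∃ e : ℕ, 0 < e ∧ ∀ (x y : Q) (n : ℕ), 0 < n → Commute x (y ^ n) → Commute x (y ^ e)

/-- Roots of elements of `H` have bounded order over `H`. -/
def Root {Q : Type u} [Group Q] (H : Subgroup Q) : Prop :=
  ∃ e : ℕ, 0 < e ∧ ∀ (q : Q) (n : ℕ), 0 < n → q ^ n ∈ H → q ^ e ∈ H

/-- Subgroups with a subnormal series with cyclic factors. -/
inductive Poly {Q : Type u} [Group Q] : Subgroup Q → Prop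
  | bot : Poly ⊥
  | step (N H : Subgroup Q) (x : Q) : Poly N → N ≤ H → x ∈ H →
      (∀ h ∈ H, ∀ n ∈ N, h * n * h⁻¹ ∈ N) → (∀ h ∈ H, ∃ j : ℤ, ∃ n ∈ N, h = x ^ j * n) → Poly H

/-- All Noetherian modules of prime exponent are eremitic (the heart of the proof). -/
def CharP (Q : Type u) [Group Q] : Prop :=
  ∀ (M : Type u) [AddCommGroup M] (ρ : Act Q M) (p : ℕ), p.Prime → (∀ m : M, p • m = 0) →
    Noeth ρ → Er ρ

/-- All Noetherian modules are eremitic. -/
def AllEr (Q : Type u) [Group Q] : Prop :=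
  ∀ (M : Type u) [AddCommGroup M] (ρ : Act Q M), Noeth ρ → Er ρ

/-- Strict chains of centralisers have bounded length. -/
def Bdd (G : Type u) [Group G] : Prop :=
  ∃ m : ℕ, ∀ (k : ℕ) (X : ℕ → Set G),
    (∀ i < k, Subgroup.centralizer (X i) < Subgroup.centralizer (X (i + 1))) → k ≤ m

section Mab
variable {Q M B : Type u} [Group Q] [AddCommGroup M] [AddCommGroup B]

/-- The kernel of `π` acts by commuting operators. -/
def Comm (ρ : Act Q M) (π : Q →* Multiplicative B) : Prop :=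
  ∀ a ∈ π.ker, ∀ b ∈ π.ker, Commute (ρ a) (ρ b)

/-- The ring of operators generated by the kernel of `π`. -/
def Rg (ρ : Act Q M) (π : Q →* Multiplicative B) : Subring (AddMonoid.End M) :=
  Subring.closure {r | ∃ a ∈ π.ker, r = ρ a}

/-- Every nonzero operator in `Rg` is injective. -/
def TF (ρ : Act Q M) (π : Q →* Multiplicative B) : Prop :=
  ∀ r ∈ Rg ρ π, ∀ m : M, r m = 0 → r = 0 ∨ m = 0

end Mab

end Pool.Agent.Cdim
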