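import Pool.Agent.Lib.MP_721660_al.CD.Defs

/-! Statements of the steps (outer layer O*, metabelian heart M*). -/

namespace Pool.Agent.Cdim

universe u

/-! ### Outer layer: general polycyclic quotient -/

/-- Basic facts on `Noeth`. -/
def BasicSt : Prop := ∀ (Q M : Type u) [Group Q] [AddCommGroup M] (ρ : Act Q M), Noeth ρ →
  (∀ (W : AddSubgroup M) (h : Inv ρ W), Noeth (sub ρ W h)) ∧
  (∀ (W : AddSubgroup M) (h : Inv ρ W), Noeth (quo ρ W h)) ∧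
  (∀ S : Set (AddSubgroup M), S.Nonempty → (∀ W ∈ S, Inv ρ W) →
    ∃ W ∈ S, ∀ W' ∈ S, W ≤ W' → W' = W) ∧
  (∃ t : ℕ, 0 < t ∧ ∀ (m : M) (n : ℕ), 0 < n → n • m = 0 → t • m = 0) ∧
  (∃ s : Finset M, spanOn ρ ⊤ (s : Set M) = ⊤)

/-- Extension lemma. -/
def ExtSt : Prop := ∀ (Q M : Type u) [Group Q] [AddCommGroup M] (ρ : Act Q M)
  (W : AddSubgroup M) (h : Inv ρ W), ErOn ρ ⊤ W → Er (quo ρ W h) →
  (∃ t : ℕ, 0 < t ∧ ∀ m ∈ W, ∀ n : ℕ, 0 < n → n • m = 0 → t • m = 0) → Er ρ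

/-- Noetherian induction: a nonzero eremitic submodule in every nonzero quotient is enough. -/
def GenSt : Prop := ∀ (Q M : Type u) [Group Q] [AddCommGroup M] (ρ : Act Q M), Noeth ρ →
  (∀ (W : AddSubgroup M) (h : Inv ρ W), W ≠ ⊤ →
    ∃ U : AddSubgroup (M ⧸ W), U ≠ ⊥ ∧ Inv (quo ρ W h) U ∧ ErOn (quo ρ W h) ⊤ U) → Er ρ

/-- Two primes. -/
def TwoSt : Prop := ∀ (Q M : Type u) [Group Q] [AddCommGroup M] (ρ : Act Q M) (p p' : ℕ),
  p.Prime → p'.Prime → p ≠ p' → (∀ (m : M) (n : ℕ), 0 < n → n • m = 0 → m = 0) →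
  Good p (⊥ : AddSubgroup M) ⊤ → Good p' (⊥ : AddSubgroup M) ⊤ →
  Er (quo ρ (pM M p) (inv_pM ρ p)) → Er (quo ρ (pM M p') (inv_pM ρ p')) → Er ρ

/-- Finitely generated abelian groups are eremitic modules for every acting group. -/
def FgSt : Prop := ∀ (Q M : Type u) [Group Q] [AddCommGroup M] (ρ : Act Q M),
  AddGroup.FG M → Er ρ

/-- Group form of the extension lemma. -/
def AffSt : Prop := ∀ (G Q : Type u) [Group G] [Group Q] (f : G →* Q),
  (∀ a ∈ f.ker, ∀ b ∈ f.ker, Commute a b) →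
  (∃ e : ℕ, 0 < e ∧ ∀ (y : G), ∀ a ∈ f.ker, ∀ n : ℕ, 0 < n → Commute a (y ^ n) →
    Commute a (y ^ e)) →
  (∃ t : ℕ, 0 < t ∧ ∀ a ∈ f.ker, ∀ n : ℕ, 0 < n → a ^ n = 1 → a ^ t = 1) → GEr Q → GEr G

/-- An abelian kernel as a module for the quotient. -/
def ModelSt : Prop := ∀ (G Q : Type u) [Group G] [Group Q] (f : G →* Q),
  Function.Surjective f → (∀ a ∈ f.ker, ∀ b ∈ f.ker, Commute a b) →
  ∃ (M : Type u) (_ : AddCommGroup M) (ρ : Act Q M) (ι : Multiplicative M →* G),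
    Function.Injective ι ∧ ι.range = f.ker ∧
    ∀ (g : G) (m : M), ι (Multiplicative.ofAdd (ρ (f g) m)) = g * ι (Multiplicative.ofAdd m) * g⁻¹

/-- Polycyclic groups are eremitic. -/
def PErSt : Prop := ∀ (Q : Type u) [Group Q], Group.IsSolvable Q → GMax Q → GEr Q

/-- Soluble with max gives a cyclic series. -/
def PolySt : Prop := ∀ (Q : Type u) [Group Q], Group.IsSolvable Q → GMax Q → Poly (⊤ : Subgroup Q)

/-- A cyclic series gives max; max passes to subgroups and quotients. -/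
def PMaxSt : Prop :=
  (∀ (Q : Type u) [Group Q] (H : Subgroup Q), Poly H → ∀ K : Subgroup Q, K ≤ H → K.FG) ∧
  (∀ (Q : Type u) [Group Q] (H : Subgroup Q), GMax Q → GMax H) ∧
  (∀ (Q Q' : Type u) [Group Q] [Group Q'] (f : Q →* Q'), Function.Surjective f → GMax Q → GMax Q')

/-- P. Hall: finitely generated modules over polycyclic groups are Noetherian. -/
def HallSt : Prop := ∀ (Q M : Type u) [Group Q] [AddCommGroup M] (ρ : Act Q M) (H : Subgroup Q),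
  Poly H → ∀ s : Finset M, NoethOn ρ H (spanOn ρ H (s : Set M))

/-- Calculus of `Good`: transitive, ascending unions. -/
def GoodSt : Prop := ∀ (M : Type u) [AddCommGroup M] (p : ℕ),
  (∀ W₁ W₂ W₃ : AddSubgroup M, W₁ ≤ W₂ → W₂ ≤ W₃ → Good p W₁ W₂ → Good p W₂ W₃ → Good p W₁ W₃) ∧
  (∀ W : ℕ → AddSubgroup M, Monotone W → (∀ i, Good p (W i) (W (i + 1))) →
    Good p (W 0) (⨆ i, W i))

/-- Separation for finitely generated abelian groups. -/
def Sep0St : Prop := ∀ (M : Type u) [AddCommGroup M] (s : Finset M) (W : AddSubgroup M),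
  W ≤ AddSubgroup.closure (s : Set M) →
  ∃ b : ℕ, ∀ p : ℕ, p.Prime → b < p → Good p W (AddSubgroup.closure (s : Set M))

/-- P. Hall's separation lemma. -/
def SepSt : Prop := ∀ (Q M : Type u) [Group Q] [AddCommGroup M] (ρ : Act Q M) (H : Subgroup Q),
  Poly H → ∀ (s : Finset M) (W : AddSubgroup M), InvOn ρ H W → W ≤ spanOn ρ H (s : Set M) →
  ∃ b : ℕ, ∀ p : ℕ, p.Prime → b < p → Good p W (spanOn ρ H (s : Set M))

/-- From prime exponent to all Noetherian modules. -/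
def ZeroSt : Prop := ∀ (Q : Type u) [Group Q], Poly (⊤ : Subgroup Q) → CharP Q → AllEr Q

/-- The kernel is finitely generated as a normal subgroup. -/
def FngSt : Prop := ∀ (G Q : Type u) [Group G] [Group Q] (f : G →* Q), Group.FG G →
  Function.Surjective f → Poly (⊤ : Subgroup Q) →
  ∃ s : Finset G, Subgroup.normalClosure (s : Set G) = f.ker

/-- The extension is eremitic. -/
def GErSt : Prop := ∀ (G Q : Type u) [Group G] [Group Q] (f : G →* Q), Group.FG G →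
  Function.Surjective f → (∀ a ∈ f.ker, ∀ b ∈ f.ker, Commute a b) → Group.IsSolvable Q → GMax Q →
  CharP Q → GEr G

/-- Induced modules, ACC. -/
def IndNSt : Prop := ∀ (Q M : Type u) [Group Q] [AddCommGroup M] (ρ : Act Q M) (H : Subgroup Q)
  (U : AddSubgroup M) (h : InvOn ρ H U), Noeth ρ → Indep ρ H U → Noeth (part ρ H U h)

/-- Induced modules, eremitic. -/
def IndESt : Prop := ∀ (Q M : Type u) [Group Q] [AddCommGroup M] (ρ : Act Q M) (H : Subgroup Q)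
  (U : AddSubgroup M), InvOn ρ H U → Indep ρ H U → Root H → ErOn ρ H U →
  ErOn ρ ⊤ (spanOn ρ ⊤ (U : Set M))

/-! ### Heart for metabelian quotients -/

/-- Local dimension one step. -/
def Perf1St : Prop := ∀ (R : Type u) [CommRing R] [IsDomain R] [IsNoetherianRing R]
  (P : Ideal R) (p : ℕ) (w d : R), P.IsPrime → 2 ≤ p → w ∈ P → d ∉ P →
  (∀ l : ℕ, ∃ a b : R, a ≠ 0 ∧ w * a ^ p ^ l = d * b ^ p ^ l) → w = 0

/-- An infinitely `p`-divisible fraction is a root of unity. -/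
def PerfSt : Prop := ∀ (R : Type u) [CommRing R] [IsDomain R] [Algebra.FiniteType ℤ R] (p : ℕ),
  p.Prime → (p : R) = 0 → ∀ d₁ d₂ : R, d₁ ≠ 0 → d₂ ≠ 0 →
  (∀ l : ℕ, ∃ c₁ c₂ : R, c₁ ≠ 0 ∧ d₂ * c₁ ^ p ^ l = d₁ * c₂ ^ p ^ l) →
  ∃ s : ℕ, 0 < s ∧ d₁ ^ s = d₂ ^ s

/-- Minimal relation over `R ^ (p ^ l)`. -/
def RelSt : Prop := ∀ (R M ι : Type u) [CommRing R] [IsDomain R] [Algebra.FiniteType ℤ R]
  [AddCommGroup M] [Module R M] (p : ℕ), p.Prime → (p : R) = 0 →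
  (∀ (r : R) (m : M), r • m = 0 → r = 0 ∨ m = 0) →
  ∀ (s : Finset ι) (v : ι → M), s.Nonempty → (∀ i ∈ s, v i ≠ 0) → ∑ i ∈ s, v i = 0 →
  ∃ I : Finset ι, I ⊆ s ∧ ∃ i ∈ I, ∃ k ∈ I, i ≠ k ∧ ∃ l t : ℕ, 0 < t ∧
    (∃ c : ι → R, c i ≠ 0 ∧ ∑ x ∈ I, c x ^ p ^ l • v x = 0) ∧
    ∀ c : ι → R, ∑ x ∈ I, c x ^ p ^ l • v x = 0 → c i ^ t = c k ^ t

/-- The operator ring as an abstract ring of finite type. -/
def RingSt : Prop := ∀ (Q M B : Type u) [Group Q] [AddCommGroup M] [AddCommGroup B]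
  (ρ : Act Q M) (π : Q →* Multiplicative B), GMax Q → Comm ρ π →
  ∃ (R : Type u) (_ : CommRing R) (_ : Module R M) (φ : R →+* AddMonoid.End M),
    Function.Injective φ ∧ φ.range = Rg ρ π ∧ (∀ (r : R) (m : M), r • m = φ r m) ∧
    Algebra.FiniteType ℤ R ∧ ∀ (g : Q) (r : R), ∃ r' : R, φ r' = ρ g * φ r * ρ g⁻¹

/-- Pigeonhole modulo `P`-th powers. -/
def PigSt : Prop := ∀ (Q M B ι : Type u) [Group Q] [AddCommGroup M] [AddCommGroup B]
  (ρ : Act Q M) (π : Q →* Multiplicative B), GMax Q → Comm ρ π → ∀ (P : ℕ), 0 < P →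
  ∀ (I : Finset ι) (y : Q) (q : ι → Q), (∀ x ∈ I, π (q x) = π y) →
  ∃ j : ℕ, 0 < j ∧ ∀ (k : ℕ), ∀ x ∈ I, ∃ a ∈ π.ker,
    ρ (y ^ (k * j) * (q x ^ (k * j))⁻¹) = ρ a ^ P

/-- Independence of fixed vectors. -/
def CoreSt : Prop := ∀ (Q M B ι : Type u) [Group Q] [AddCommGroup M] [AddCommGroup B]
  (ρ : Act Q M) (π : Q →* Multiplicative B) (p : ℕ), p.Prime → (∀ m : M, p • m = 0) →
  GMax Q → Comm ρ π → TF ρ π →
  ∀ (s : Finset ι) (v : ι → M) (q : ι → Q), s.Nonempty → (∀ i ∈ s, v i ≠ 0) →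
  (∀ i ∈ s, ρ (q i) (v i) = v i) → (∀ i ∈ s, ∀ k ∈ s, π (q i) = π (q k)) → ∑ i ∈ s, v i = 0 →
  ∃ i ∈ s, ∃ k ∈ s, i ≠ k ∧ ∃ n : ℕ, 0 < n ∧ ρ (q i ^ n) = ρ (q k ^ n)

/-- Associated prime step. -/
def ApSt : Prop := ∀ (Q M B : Type u) [Group Q] [AddCommGroup M] [AddCommGroup B]
  (ρ : Act Q M) (π : Q →* Multiplicative B), GMax Q → Comm ρ π → Nontrivial M →
  ∃ (H : Subgroup Q) (U : AddSubgroup M) (h : InvOn ρ H U), π.ker ≤ H ∧ U ≠ ⊥ ∧ Indep ρ H U ∧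
    TF (part ρ H U h) (π.comp H.subtype)

/-- The operator group is eremitic. -/
def OpSt : Prop := ∀ (Q M B : Type u) [Group Q] [AddCommGroup M] [AddCommGroup B]
  (ρ : Act Q M) (π : Q →* Multiplicative B), GMax Q → Comm ρ π →
  ∃ e : ℕ, 0 < e ∧ ∀ (x y : Q) (n : ℕ), 0 < n → Commute (ρ x) (ρ (y ^ n)) →
    Commute (ρ x) (ρ (y ^ e))

/-- Subgroups over the kernel have the root property. -/
def RootSt : Prop := ∀ (Q B : Type u) [Group Q] [AddCommGroup B] [Module.Finite ℤ B]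
  (π : Q →* Multiplicative B) (H : Subgroup Q), π.ker ≤ H → Root H

/-- Prime case, no fixed vectors outside the isolator of the kernel. -/
def Case2St : Prop := ∀ (Q M B : Type u) [Group Q] [AddCommGroup M] [AddCommGroup B]
  [Module.Finite ℤ B] (ρ : Act Q M) (π : Q →* Multiplicative B), GMax Q → Comm ρ π → TF ρ π →
  (∀ q : Q, ¬ IsOfFinOrder (π q) → ∀ m : M, ρ q m = m → m = 0) → Er ρ

/-- The heart at rank `r`. -/
def MainAt (p r : ℕ) : Prop := ∀ (Q M B : Type u) [Group Q] [AddCommGroup M] [AddCommGroup B]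
  [Module.Finite ℤ B] (ρ : Act Q M) (π : Q →* Multiplicative B), Module.finrank ℤ B = r →
  (∀ m : M, p • m = 0) → GMax Q → Comm ρ π → Noeth ρ → Er ρ

/-- Prime case, a fixed vector outside the isolator of the kernel. -/
def Case3St : Prop := ∀ (Q M B : Type u) [Group Q] [AddCommGroup M] [AddCommGroup B]
  [Module.Finite ℤ B] (ρ : Act Q M) (π : Q →* Multiplicative B) (p : ℕ), p.Prime →
  (∀ r < Module.finrank ℤ B, MainAt.{u} p r) →
  (∀ m : M, p • m = 0) → GMax Q → Comm ρ π → TF ρ π → Noeth ρ →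
  ∀ (q : Q) (v : M), ¬ IsOfFinOrder (π q) → v ≠ 0 → ρ q v = v →
  ∃ U : AddSubgroup M, U ≠ ⊥ ∧ Inv ρ U ∧ ErOn ρ ⊤ U

/-- The heart at every rank. -/
def MainSt : Prop := ∀ p r : ℕ, p.Prime → MainAt.{u} p r

/-- The heart for metabelian groups with max. -/
def MetaSt : Prop := ∀ (Q : Type u) [Group Q], GMax Q →
  (∀ x ∈ commutator Q, ∀ y ∈ commutator Q, Commute x y) → CharP Q

end Pool.Agent.Cdim
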