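import Pool.Agent.Lib.MP_721660_al.CD.St

/-! From prime exponent to all Noetherian modules. -/

namespace Pool.Agent.Cdim

universe u

namespace Zerox

theorem prime_tors {M : Type u} [AddCommGroup M] : ∀ (n : ℕ), 0 < n → ∀ m : M, m ≠ 0 →
    n • m = 0 → ∃ p : ℕ, p.Prime ∧ ∃ x : M, x ≠ 0 ∧ p • x = 0 := by
  intro n
  induction n using Nat.strong_induction_on with
  | _ n ih =>
    intro hn m hm h
    by_cases h1 : n = 1
    · subst h1
      exact absurd (by simpa using h) hm
    · have hp : (Nat.minFac n).Prime := Nat.minFac_prime h1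
      obtain ⟨k, hk⟩ := Nat.minFac_dvd n
      have hk0 : 0 < k := by
        rcases Nat.eq_zero_or_pos k with h0 | h0
        · rw [h0, mul_zero] at hk; omega
        · exact h0
      have hkn : k < n := by
        have h2 := hp.two_le
        calc k < 2 * k := by omega
          _ ≤ Nat.minFac n * k := Nat.mul_le_mul_right k h2
          _ = n := hk.symm
      by_cases hz : k • m = 0
      · exact ih k hkn hk0 m hm hz
      · refine ⟨Nat.minFac n, hp, k • m, hz, ?_⟩
        rw [← mul_nsmul', ← hk]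
        exact h

theorem er_pM {Q M : Type u} [Group Q] [AddCommGroup M] (hB : BasicSt.{u}) (hC : CharP Q)
    (ρ : Act Q M) (hN : Noeth ρ) (p : ℕ) (hp : p.Prime) :
    Er (quo ρ (pM M p) (inv_pM ρ p)) := by
  refine hC (M ⧸ pM M p) _ p hp ?_ ((hB Q M ρ hN).2.1 _ _)
  intro m
  obtain ⟨m, rfl⟩ := QuotientAddGroup.mk_surjective m
  rw [← QuotientAddGroup.mk_nsmul]
  exact (QuotientAddGroup.eq_zero_iff _).2 ⟨m, rfl⟩

theorem key {Q M : Type u} [Group Q] [AddCommGroup M] (hB : BasicSt.{u}) (hT : TwoSt.{u})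
    (hS : SepSt.{u}) (hP : Poly (⊤ : Subgroup Q)) (hC : CharP Q) (ρ : Act Q M) (hN : Noeth ρ)
    (hM : ∃ m : M, m ≠ 0) : ∃ U : AddSubgroup M, U ≠ ⊥ ∧ Inv ρ U ∧ ErOn ρ ⊤ U := by
  by_cases ht : ∃ (m : M) (n : ℕ), 0 < n ∧ n • m = 0 ∧ m ≠ 0
  · obtain ⟨m, n, hn, h, hm⟩ := ht
    obtain ⟨p, hp, x, hx, hpx⟩ := prime_tors n hn m hm h
    let U : AddSubgroup M :=
      { carrier := {y | p • y = 0}
        zero_mem' := by simp
        add_mem' := by
          intro a b ha hb
          simp only [Set.mem_ofPred_eq] at ha hb ⊢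
          rw [smul_add, ha, hb, add_zero]
        neg_mem' := by
          intro a ha
          simp only [Set.mem_ofPred_eq] at ha ⊢
          rw [smul_neg, ha, neg_zero] }
    have hU : Inv ρ U := by
      intro g y hy
      have hy' : p • y = 0 := hy
      change p • ρ g y = 0
      rw [← map_nsmul (ρ g) p y, hy', map_zero]
    refine ⟨U, ?_, hU, ?_⟩
    · intro hb
      have : x ∈ U := hpx
      rw [hb] at this
      exact hx (AddSubgroup.mem_bot.1 this)
    · refine (er_sub_iff ρ U hU).1 (hC U (sub ρ U hU) p hp ?_ ((hB Q M ρ hN).1 U hU))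
      intro y
      exact Subtype.ext y.2
  · have htf : ∀ (m : M) (n : ℕ), 0 < n → n • m = 0 → m = 0 := by
      intro m n hn h
      by_contra hm
      exact ht ⟨m, n, hn, h, hm⟩
    obtain ⟨s, hs⟩ := (hB Q M ρ hN).2.2.2.2
    obtain ⟨b, hb⟩ := hS Q M ρ ⊤ hP s ⊥
      (fun g _ m hm => by rw [AddSubgroup.mem_bot] at hm ⊢; rw [hm, map_zero]) bot_le
    rw [hs] at hb
    obtain ⟨p, hbp, hp⟩ := Nat.exists_infinite_primes (b + 1)
    obtain ⟨p', hpp, hp'⟩ := Nat.exists_infinite_primes (p + 1)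
    have hE : Er ρ := hT Q M ρ p p' hp hp' (by omega) htf (hb p hp (by omega))
      (hb p' hp' (by omega)) (er_pM hB hC ρ hN p hp) (er_pM hB hC ρ hN p' hp')
    refine ⟨⊤, ?_, fun _ _ _ => trivial, ?_⟩
    · obtain ⟨m, hm⟩ := hM
      intro hb'
      have : m ∈ (⊤ : AddSubgroup M) := trivial
      rw [hb'] at this
      exact hm (AddSubgroup.mem_bot.1 this)
    · obtain ⟨e, he, hE⟩ := hE
      exact ⟨e, he, fun q _ m _ n hn h => hE q m n hn h⟩

end Zerox

theorem zero_st (hB : BasicSt.{u}) (hG : GenSt.{u}) (hT : TwoSt.{u}) (hS : SepSt.{u}) :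
    ZeroSt.{u} := by
  intro Q _ hP hC M _ ρ hN
  refine hG Q M ρ hN fun W h hW => ?_
  refine Zerox.key hB hT hS hP hC (quo ρ W h) ((hB Q M ρ hN).2.1 W h) ?_
  by_contra hz
  push Not at hz
  apply hW
  rw [eq_top_iff]
  intro m _
  exact (QuotientAddGroup.eq_zero_iff m).1 (hz _)

end Pool.Agent.Cdim
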